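import Mathlib

set_option autoImplicit false

/-!
Project CTD (problem MP_8d342a_al): common definitions.
-/

namespace CTD

/-- Data `((r₁, m₁), (r₂, m₂))` of a class transposition. -/
abbrev Data := (ℕ × ℕ) × (ℕ × ℕ)

/-- The residue class `r(m) = {r + k m : k ∈ ℤ}`, coded by the pair `c = (r, m)`. -/
def cls (c : ℕ × ℕ) : Set ℤ := {x | ∃ k : ℤ, x = c.1 + k * c.2}

/-- `t` is the data of a class transposition: `0 ≤ r₁ < m₁`, `0 ≤ r₂ < m₂` and the two
residue classes are disjoint. -/
def IsCT (t : Data) : Prop :=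
  t.1.1 < t.1.2 ∧ t.2.1 < t.2.2 ∧ Disjoint (cls t.1) (cls t.2)

/-- The permutation `g` of `ℤ` is the class transposition with data `t`. -/
def Is (t : Data) (g : Equiv.Perm ℤ) : Prop :=
  (∀ k : ℤ, g (t.1.1 + k * t.1.2) = t.2.1 + k * t.2.2) ∧
  (∀ k : ℤ, g (t.2.1 + k * t.2.2) = t.1.1 + k * t.1.2) ∧
  (∀ x : ℤ, x ∉ cls t.1 → x ∉ cls t.2 → g x = x)

/-- The group generated by the class transpositions with data in the list `L`. -/
def grp (L : List Data) : Subgroup (Equiv.Perm ℤ) :=
  Subgroup.closure {g | ∃ t ∈ L, Is t g}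

/-- The group of `L` has only finite orbits on `ℤ`. -/
def FinOrb (L : List Data) : Prop :=
  ∀ x : ℤ, (MulAction.orbit (grp L) x).Finite

/-- The support of the group of `L`: all integers moved by at least one element. -/
def supp (L : List Data) : Set ℤ := {x | ∃ g ∈ grp L, g x ≠ x}

/-- The group of `L` acts transitively on the set of nonnegative integers in its support. -/
def Trans (L : List Data) : Prop :=
  ∀ x y : ℤ, 0 ≤ x → 0 ≤ y → x ∈ supp L → y ∈ supp L → y ∈ MulAction.orbit (grp L) x

/-- The class transposition as a function on the integers. -/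
def tau (t : Data) (x : ℤ) : ℤ :=
  if x % t.1.2 = t.1.1 then t.2.1 + x / t.1.2 * t.2.2
  else if x % t.2.2 = t.2.1 then t.1.1 + x / t.2.2 * t.1.2 else x

/-- The class transposition as a function on the natural numbers. -/
def tauN (t : Data) (x : ℕ) : ℕ :=
  if x % t.1.2 = t.1.1 then t.2.1 + x / t.1.2 * t.2.2
  else if x % t.2.2 = t.2.1 then t.1.1 + x / t.2.2 * t.1.2 else x

/-- The steps `x ↦ τ x`, `τ` in `L`. -/
def Adj (L : List Data) (x y : ℤ) : Prop := ∃ t ∈ L, y = tau t x

/-- Connected by steps. -/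
def Conn (L : List Data) : ℤ → ℤ → Prop := Relation.ReflTransGen (Adj L)

/-- Steps of natural numbers inside the interval `[lo, hi)`. -/
def AdjN (L : List Data) (lo hi : ℕ) (x y : ℕ) : Prop :=
  lo ≤ x ∧ x < hi ∧ lo ≤ y ∧ y < hi ∧ ∃ t ∈ L, y = tauN t x

/-- Connected by steps inside the interval `[lo, hi)`. -/
def ConnN (L : List Data) (lo hi : ℕ) : ℕ → ℕ → Prop := Relation.ReflTransGen (AdjN L lo hi)

/-- All members of the list are class transpositions and all slopes `m₂ / m₁` are integral
powers (positive, negative or zero) of one integer `b ≥ 2`. -/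
def InFam (L : List Data) : Prop :=
  ∃ b : ℕ, 2 ≤ b ∧ ∀ t ∈ L, IsCT t ∧ ∃ e : ℕ, t.2.2 = t.1.2 * b ^ e ∨ t.1.2 = t.2.2 * b ^ e

/-- Working hypothesis: `b` is the base, `C` a common multiple of the smaller moduli, `T` a
bound of the exponents. -/
structure Good (L : List Data) (b C T : ℕ) : Prop where
  hb : 2 ≤ b
  hC : 0 < C
  hT : 1 ≤ T
  hct : ∀ t ∈ L, IsCT t
  hsl : ∀ t ∈ L, (∃ e ≤ T, t.2.2 = t.1.2 * b ^ e ∧ t.1.2 ∣ C) ∨
    (∃ e ≤ T, t.1.2 = t.2.2 * b ^ e ∧ t.2.2 ∣ C)

/-- Words: a list of digits (most significant digit first) and a state. -/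
abbrev Word (b C : ℕ) := List (Fin b) × Fin C

variable {b C : ℕ}

/-- Reading digits: `dig k l = k * b ^ |l| + value of l`. -/
def dig (k : ℤ) (l : List (Fin b)) : ℤ := l.foldl (fun a d => a * b + (d : ℕ)) k

/-- The integer with prefix `k` and word `w`. -/
def num (k : ℤ) (w : Word b C) : ℤ := (w.2 : ℕ) + C * dig k w.1

/-- Put the digits `p` in front of the word `w`. -/
def pre (p : List (Fin b)) (w : Word b C) : Word b C := (p ++ w.1, w.2)

/-- A step of words: one class transposition of `L` maps `num k u` to `num k v` for all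
prefixes `k`. -/
def StepW (L : List Data) (u v : Word b C) : Prop :=
  ∃ t ∈ L, ∀ k : ℤ, tau t (num k u) = num k v

/-- Connected words. -/
def ConnW (L : List Data) : Word b C → Word b C → Prop := Relation.ReflTransGen (StepW L)

/-- Connected by words of length at most `h`. -/
def ConnH (L : List Data) (h : ℕ) : Word b C → Word b C → Prop :=
  Relation.ReflTransGen (fun u v => u.1.length ≤ h ∧ v.1.length ≤ h ∧ StepW L u v)

/-- A bound for the number of words of length at most `2 T`. -/
def NP (b C T : ℕ) : ℕ := 2 * C * b ^ (2 * T)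

/-- A bound for the lengths of the words which are needed. -/
def HH (b C T : ℕ) : ℕ := 2 * T + NP b C T ^ 2

/-- The natural number `x` lies in one of the residue classes of `L`. -/
def suppN (L : List Data) (x : ℕ) : Prop :=
  ∃ t ∈ L, x % t.1.2 = t.1.1 ∨ x % t.2.2 = t.2.1

/-- Upper end of the interval for the first criterion. -/
def hi1 (b C T : ℕ) : ℕ := 2 * C * b ^ (NP b C T + 2 * T)

/-- Upper end of the interval for the second criterion. -/
def hi2 (b C T : ℕ) : ℕ := 2 * C * b ^ (HH b C T)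

/-- Bounded form of: all orbits are finite. -/
def crit1 (L : List Data) (b C T : ℕ) : Prop :=
  ∀ j < 2 * T + 1, ∀ X < C * b ^ j, ∀ y < hi1 b C T, C * b ^ (NP b C T + 1) ≤ y →
    ¬ ConnN L C (hi1 b C T) (C * b ^ j + X) y

/-- Bounded form of: transitive on the nonnegative integers of the support. -/
def crit2 (L : List Data) (b C T : ℕ) : Prop :=
  (∀ X < C * b ^ T, suppN L X → ∃ j < T, ∃ Y < C * b ^ j,
    ConnN L C (hi2 b C T) (C * b ^ T + X) (C * b ^ j + Y)) ∧
  (∀ x < C * b ^ T, ∀ y < C * b ^ T, suppN L x → suppN L y → ConnN L 0 (hi2 b C T) x y)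

/-- One round of the closure under steps inside `[lo, hi)`. -/
def grow (L : List Data) (lo hi : ℕ) (F : List ℕ) : List ℕ :=
  F ++ F.flatMap (fun x => L.map (fun t =>
    if lo ≤ tauN t x ∧ tauN t x < hi then tauN t x else x))

/-- The base, the exponents and the moduli are bounded by this number. -/
def bnd (L : List Data) : ℕ := L.foldr (fun t a => t.1.2 + t.2.2 + a) 3

/-- A common multiple of all moduli. -/
def mulC (L : List Data) : ℕ := L.foldr (fun t a => t.1.2 * t.2.2 * a) 1

/-- Bounded form of the family condition with base `b`. -/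
def FamB (L : List Data) (b : ℕ) : Prop :=
  2 ≤ b ∧ ∀ t ∈ L, IsCT t ∧ ∃ e < bnd L, t.2.2 = t.1.2 * b ^ e ∨ t.1.2 = t.2.2 * b ^ e

end CTD
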