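import Pool.Agent.CTD.Defs

set_option autoImplicit false

/-!
Project CTD (problem MP_8d342a_al): two further definitions used in the final statements.
-/

namespace CTD

/-- `L` is a list of class transpositions with at most two different members (the data
`((r₁, m₁), (r₂, m₂))` and `((r₂, m₂), (r₁, m₁))` describe the same class transposition). -/
def TwoGen (L : List Data) : Prop :=
  (∀ t ∈ L, IsCT t) ∧
    ∃ t₁ t₂ : Data, ∀ t ∈ L, t = t₁ ∨ t = t₁.swap ∨ t = t₂ ∨ t = t₂.swap

/-- The permutation `g` maps the residue class `d(M)` into itself by the affine map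
`d + k M ↦ d' + k (lam M)` with an integer slope `lam ≥ 2`. -/
def Expands (g : Equiv.Perm ℤ) : Prop :=
  ∃ d d' M lam : ℤ, 0 < M ∧ 2 ≤ lam ∧ M ∣ d' - d ∧
    ∀ k : ℤ, g (d + k * M) = d' + k * (lam * M)

end CTD
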