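import Pool.Agent.CTD.Defs

set_option autoImplicit false

/-!
# CTD, job FAM: the bounded form of the family condition
-/

namespace CTD

theorem fam_three (L : List Data) : 3 ≤ bnd L := by
  induction L with
  | nil => exact le_refl 3
  | cons t L ih =>
    have e : bnd (t :: L) = t.1.2 + t.2.2 + bnd L := rfl
    omega

theorem fam_bnd {L : List Data} {t : Data} (h : t ∈ L) : t.1.2 + t.2.2 < bnd L := by
  induction L with
  | nil => simp at h
  | cons s L ih =>
    have e : bnd (s :: L) = s.1.2 + s.2.2 + bnd L := rfl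
    have h3 := fam_three L
    rcases List.mem_cons.1 h with rfl | h
    · omega
    · have := ih h
      omega

theorem fam_mul {L : List Data} {t : Data} (h : t ∈ L) : t.1.2 ∣ mulC L ∧ t.2.2 ∣ mulC L := by
  induction L with
  | nil => simp at h
  | cons s L ih =>
    have e : mulC (s :: L) = s.1.2 * s.2.2 * mulC L := rfl
    rw [e]
    rcases List.mem_cons.1 h with rfl | h
    · exact ⟨Dvd.dvd.mul_right (Dvd.intro _ rfl) _, Dvd.dvd.mul_right (Dvd.intro_left _ rfl) _⟩
    · exact ⟨Dvd.dvd.mul_left (ih h).1 _, Dvd.dvd.mul_left (ih h).2 _⟩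

theorem fam_pos {L : List Data} (h : ∀ t ∈ L, IsCT t) : 0 < mulC L := by
  induction L with
  | nil => exact Nat.one_pos
  | cons s L ih =>
    have e : mulC (s :: L) = s.1.2 * s.2.2 * mulC L := rfl
    rw [e]
    have h1 := h s List.mem_cons_self
    have h2 : 0 < s.1.2 := lt_of_le_of_lt (Nat.zero_le _) h1.1
    have h3 : 0 < s.2.2 := lt_of_le_of_lt (Nat.zero_le _) h1.2.1
    exact Nat.mul_pos (Nat.mul_pos h2 h3) (ih fun t ht => h t (List.mem_cons_of_mem _ ht))

/-- The exponent is bounded. -/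
theorem fam_exp {b m m' e B : ℕ} (hb : 2 ≤ b) (hm : 0 < m) (h : m' = m * b ^ e) (hB : m' < B) :
    e < B ∧ (B ≤ b → e = 0) := by
  have h1 : b ^ e ≤ m' := by
    rw [h]
    exact Nat.le_mul_of_pos_left _ hm
  have h2 : e < b ^ e := Nat.lt_pow_self (by omega)
  refine ⟨by omega, fun hbB => ?_⟩
  by_contra he
  have h3 : b ^ 1 ≤ b ^ e := Nat.pow_le_pow_right (by omega) (by omega)
  rw [pow_one] at h3
  omega

theorem FAM_iff (L : List Data) : InFam L ↔ ∃ b < bnd L, FamB L b := by
  constructor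
  · rintro ⟨b, hb, h⟩
    have h3 := fam_three L
    by_cases hlt : b < bnd L
    · refine ⟨b, hlt, hb, fun t ht => ⟨(h t ht).1, ?_⟩⟩
      obtain ⟨hct, e, he⟩ := h t ht
      have hB := fam_bnd ht
      have h1 : 0 < t.1.2 := lt_of_le_of_lt (Nat.zero_le _) hct.1
      have h2 : 0 < t.2.2 := lt_of_le_of_lt (Nat.zero_le _) hct.2.1
      rcases he with he | he
      · exact ⟨e, (fam_exp hb h1 he (by omega)).1, Or.inl he⟩
      · exact ⟨e, (fam_exp hb h2 he (by omega)).1, Or.inr he⟩
    · refine ⟨2, by omega, le_refl 2, fun t ht => ⟨(h t ht).1, 0, by omega, ?_⟩⟩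
      obtain ⟨hct, e, he⟩ := h t ht
      have hB := fam_bnd ht
      have h1 : 0 < t.1.2 := lt_of_le_of_lt (Nat.zero_le _) hct.1
      have h2 : 0 < t.2.2 := lt_of_le_of_lt (Nat.zero_le _) hct.2.1
      rcases he with he | he
      · have h0 := (fam_exp (B := bnd L) hb h1 he (by omega)).2 (by omega)
        rw [h0, pow_zero] at he
        left
        rw [pow_zero]
        exact he
      · have h0 := (fam_exp (B := bnd L) hb h2 he (by omega)).2 (by omega)
        rw [h0, pow_zero] at he
        right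
        rw [pow_zero]
        exact he
  · rintro ⟨b, -, hb, h⟩
    refine ⟨b, hb, fun t ht => ⟨(h t ht).1, ?_⟩⟩
    obtain ⟨e, -, he⟩ := (h t ht).2
    exact ⟨e, he⟩

theorem FAM_good (L : List Data) (b : ℕ) (h : FamB L b) : Good L b (mulC L) (bnd L) where
  hb := h.1
  hC := fam_pos fun t ht => (h.2 t ht).1
  hT := le_trans (by norm_num) (fam_three L)
  hct := fun t ht => (h.2 t ht).1
  hsl := by
    intro t ht
    obtain ⟨e, he, h1⟩ := (h.2 t ht).2
    have hd := fam_mul ht
    rcases h1 with h1 | h1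
    · exact Or.inl ⟨e, he.le, h1, hd.1⟩
    · exact Or.inr ⟨e, he.le, h1, hd.2⟩

end CTD
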