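import Pool.Agent.CTD.Defs

set_option autoImplicit false

/-!
Project CTD, job PRI: primitive recursion.
-/

namespace CTD

theorem pri_exists_lt {α : Type} [Primcodable α] {f : α → ℕ} {R : ℕ → α → Prop}
    (hf : Primrec f) (hR : PrimrecRel R) : PrimrecPred fun a => ∃ x < f a, R x a :=
  (hR.exists_mem_list.comp (Primrec.list_range.comp hf) Primrec.id).of_eq
    (fun a => by simp)

theorem pri_exists_mem {α β : Type} [Primcodable α] [Primcodable β] {f : α → List β}
    {R : β → α → Prop} (hf : Primrec f) (hR : PrimrecRel R) :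
    PrimrecPred fun a => ∃ x ∈ f a, R x a :=
  (hR.exists_mem_list.comp hf Primrec.id).of_eq (fun _ => Iff.rfl)

theorem pri_forall_mem {α β : Type} [Primcodable α] [Primcodable β] {f : α → List β}
    {R : β → α → Prop} (hf : Primrec f) (hR : PrimrecRel R) :
    PrimrecPred fun a => ∀ x ∈ f a, R x a :=
  (hR.forall_mem_list.comp hf Primrec.id).of_eq (fun _ => Iff.rfl)

/-- Powers are primitive recursive. -/
theorem pri_pow : Primrec₂ (fun a n : ℕ => a ^ n) :=
  (Primrec.nat_rec (α := ℕ) (f := fun _ : ℕ => 1) (g := fun (a : ℕ) (p : ℕ × ℕ) => p.2 * a)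
    (Primrec.const 1)
    ((Primrec.nat_mul.comp (Primrec.snd.comp Primrec.snd) Primrec.fst).to₂)).of_eq
    (fun a n => by
      induction n with
      | zero => simp
      | succ n ih => simpa [pow_succ] using congrArg (· * a) ih)

/-! ### Projections of the data -/

theorem pri_r1 : Primrec (fun t : Data => t.1.1) := Primrec.fst.comp Primrec.fst
theorem pri_m1 : Primrec (fun t : Data => t.1.2) := Primrec.snd.comp Primrec.fst
theorem pri_r2 : Primrec (fun t : Data => t.2.1) := Primrec.fst.comp Primrec.snd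
theorem pri_m2 : Primrec (fun t : Data => t.2.2) := Primrec.snd.comp Primrec.snd

/-- Bounded form of the condition on the data. -/
theorem pri_isCT_iff (t : Data) : (t.1.1 < t.1.2 ∧ t.2.1 < t.2.2 ∧
    ¬ ∃ x < t.1.2 * t.2.2, x % t.1.2 = t.1.1 ∧ x % t.2.2 = t.2.1) ↔ IsCT t := by
  obtain ⟨⟨r1, m1⟩, ⟨r2, m2⟩⟩ := t
  unfold IsCT
  dsimp only
  refine and_congr_right fun h1 => and_congr_right fun h2 => ?_
  rw [← not_iff_not, not_not, Set.not_disjoint_iff]
  have p1 : 0 < m1 := by omega
  have p2 : 0 < m2 := by omega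
  constructor
  · rintro ⟨x, _, e1, e2⟩
    refine ⟨(x : ℤ), ⟨(x / m1 : ℕ), ?_⟩, ⟨(x / m2 : ℕ), ?_⟩⟩
    · have := Nat.mod_add_div x m1
      rw [e1] at this
      have h := congrArg (fun n : ℕ => (n : ℤ)) this
      push_cast at h ⊢
      linarith
    · have := Nat.mod_add_div x m2
      rw [e2] at this
      have h := congrArg (fun n : ℕ => (n : ℤ)) this
      push_cast at h ⊢
      linarith
  · rintro ⟨z, ⟨k, hk⟩, ⟨l, hl⟩⟩
    dsimp only at hk hl
    have hM : (0 : ℤ) < ((m1 * m2 : ℕ) : ℤ) := by positivity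
    obtain ⟨x, hx⟩ := Int.eq_ofNat_of_zero_le (Int.emod_nonneg z hM.ne')
    have hlt := Int.emod_lt_of_pos z hM
    have hdiv := Int.emod_add_mul_ediv z ((m1 * m2 : ℕ) : ℤ)
    set q := z / ((m1 * m2 : ℕ) : ℤ) with hq
    refine ⟨x, ?_, ?_, ?_⟩
    · rw [hx] at hlt
      exact_mod_cast hlt
    · have e : (x : ℤ) = r1 + (k - m2 * q) * m1 := by
        rw [hx] at hdiv
        push_cast at hdiv
        linear_combination hdiv + hk
      have e2 : ((x % m1 : ℕ) : ℤ) = (r1 : ℤ) := by
        rw [Int.natCast_mod, e, Int.add_mul_emod_self_right]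
        exact Int.emod_eq_of_lt (by positivity) (by exact_mod_cast h1)
      exact_mod_cast e2
    · have e : (x : ℤ) = r2 + (l - m1 * q) * m2 := by
        rw [hx] at hdiv
        push_cast at hdiv
        linear_combination hdiv + hl
      have e2 : ((x % m2 : ℕ) : ℤ) = (r2 : ℤ) := by
        rw [Int.natCast_mod, e, Int.add_mul_emod_self_right]
        exact Int.emod_eq_of_lt (by positivity) (by exact_mod_cast h2)
      exact_mod_cast e2

theorem PRI_isCT : PrimrecPred (fun t : Data => IsCT t) := by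
  have hR : PrimrecRel (fun (x : ℕ) (t : Data) => x % t.1.2 = t.1.1 ∧ x % t.2.2 = t.2.1) := by
    apply PrimrecPred.and
    · exact Primrec.eq.comp (Primrec.nat_mod.comp Primrec.fst (pri_m1.comp Primrec.snd))
        (pri_r1.comp Primrec.snd)
    · exact Primrec.eq.comp (Primrec.nat_mod.comp Primrec.fst (pri_m2.comp Primrec.snd))
        (pri_r2.comp Primrec.snd)
  exact ((Primrec.nat_lt.comp pri_r1 pri_m1).and ((Primrec.nat_lt.comp pri_r2 pri_m2).and
    (pri_exists_lt (Primrec.nat_mul.comp pri_m1 pri_m2) hR).not)).of_eq pri_isCT_iff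

theorem PRI_bnd : Primrec bnd :=
  (Primrec.list_foldr (f := fun L : List Data => L) (g := fun _ : List Data => 3)
    (h := fun (_ : List Data) (p : Data × ℕ) => p.1.1.2 + p.1.2.2 + p.2)
    Primrec.id (Primrec.const 3)
    ((Primrec.nat_add.comp (Primrec.nat_add.comp (pri_m1.comp (Primrec.fst.comp Primrec.snd))
      (pri_m2.comp (Primrec.fst.comp Primrec.snd))) (Primrec.snd.comp Primrec.snd)).to₂)).of_eq
    (fun _ => rfl)

theorem PRI_mulC : Primrec mulC :=
  (Primrec.list_foldr (f := fun L : List Data => L) (g := fun _ : List Data => 1)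
    (h := fun (_ : List Data) (p : Data × ℕ) => p.1.1.2 * p.1.2.2 * p.2)
    Primrec.id (Primrec.const 1)
    ((Primrec.nat_mul.comp (Primrec.nat_mul.comp (pri_m1.comp (Primrec.fst.comp Primrec.snd))
      (pri_m2.comp (Primrec.fst.comp Primrec.snd))) (Primrec.snd.comp Primrec.snd)).to₂)).of_eq
    (fun _ => rfl)

theorem PRI_fam : PrimrecPred (fun p : List Data × ℕ => FamB p.1 p.2) := by
  unfold FamB
  apply PrimrecPred.and
  · exact Primrec.nat_le.comp (Primrec.const 2) Primrec.snd
  · refine pri_forall_mem (f := fun p : List Data × ℕ => p.1)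
      (R := fun (t : Data) (p : List Data × ℕ) => IsCT t ∧ ∃ e < bnd p.1,
        t.2.2 = t.1.2 * p.2 ^ e ∨ t.1.2 = t.2.2 * p.2 ^ e) Primrec.fst ?_
    apply PrimrecPred.and
    · exact PRI_isCT.comp Primrec.fst
    · refine pri_exists_lt (f := fun q : Data × (List Data × ℕ) => bnd q.2.1)
        (R := fun (e : ℕ) (q : Data × (List Data × ℕ)) =>
          q.1.2.2 = q.1.1.2 * q.2.2 ^ e ∨ q.1.1.2 = q.1.2.2 * q.2.2 ^ e)
        (PRI_bnd.comp (Primrec.fst.comp Primrec.snd)) ?_
      have hm1 : Primrec (fun u : ℕ × (Data × (List Data × ℕ)) => u.2.1.1.2) :=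
        pri_m1.comp (Primrec.fst.comp Primrec.snd)
      have hm2 : Primrec (fun u : ℕ × (Data × (List Data × ℕ)) => u.2.1.2.2) :=
        pri_m2.comp (Primrec.fst.comp Primrec.snd)
      have hp : Primrec (fun u : ℕ × (Data × (List Data × ℕ)) => u.2.2.2 ^ u.1) :=
        pri_pow.comp (Primrec.snd.comp (Primrec.snd.comp Primrec.snd)) Primrec.fst
      exact PrimrecPred.or (Primrec.eq.comp hm2 (Primrec.nat_mul.comp hm1 hp))
        (Primrec.eq.comp hm1 (Primrec.nat_mul.comp hm2 hp))

theorem PRI_supp : PrimrecPred (fun p : List Data × ℕ => suppN p.1 p.2) := by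
  unfold suppN
  refine pri_exists_mem (f := fun p : List Data × ℕ => p.1)
    (R := fun (t : Data) (p : List Data × ℕ) => p.2 % t.1.2 = t.1.1 ∨ p.2 % t.2.2 = t.2.1)
    Primrec.fst ?_
  apply PrimrecPred.or
  · exact Primrec.eq.comp (Primrec.nat_mod.comp (Primrec.snd.comp Primrec.snd)
      (pri_m1.comp Primrec.fst)) (pri_r1.comp Primrec.fst)
  · exact Primrec.eq.comp (Primrec.nat_mod.comp (Primrec.snd.comp Primrec.snd)
      (pri_m2.comp Primrec.fst)) (pri_r2.comp Primrec.fst)

theorem pri_tauN : Primrec₂ tauN := by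
  unfold Primrec₂ tauN
  have x : Primrec (fun q : Data × ℕ => q.2) := Primrec.snd
  have r1 : Primrec (fun q : Data × ℕ => q.1.1.1) := pri_r1.comp Primrec.fst
  have m1 : Primrec (fun q : Data × ℕ => q.1.1.2) := pri_m1.comp Primrec.fst
  have r2 : Primrec (fun q : Data × ℕ => q.1.2.1) := pri_r2.comp Primrec.fst
  have m2 : Primrec (fun q : Data × ℕ => q.1.2.2) := pri_m2.comp Primrec.fst
  exact Primrec.ite (Primrec.eq.comp (Primrec.nat_mod.comp x m1) r1)
    (Primrec.nat_add.comp r2 (Primrec.nat_mul.comp (Primrec.nat_div.comp x m1) m2))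
    (Primrec.ite (Primrec.eq.comp (Primrec.nat_mod.comp x m2) r2)
      (Primrec.nat_add.comp r1 (Primrec.nat_mul.comp (Primrec.nat_div.comp x m2) m1)) x)

/-- One round of the closure is primitive recursive. -/
theorem pri_grow : Primrec₂ (fun (p : List Data × (ℕ × ℕ) × (ℕ × ℕ)) (F : List ℕ) =>
    grow p.1 p.2.1.1 p.2.1.2 F) := by
  unfold grow
  refine Primrec.list_append.comp Primrec.snd ?_
  refine Primrec.list_flatMap Primrec.snd ?_
  refine Primrec.list_map (Primrec.fst.comp (Primrec.fst.comp Primrec.fst)) ?_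
  let α := ((List Data × (ℕ × ℕ) × (ℕ × ℕ)) × List ℕ) × ℕ
  have lo : Primrec (fun q : α × Data => q.1.1.1.2.1.1) :=
    Primrec.fst.comp (Primrec.fst.comp (Primrec.snd.comp (Primrec.fst.comp
      (Primrec.fst.comp Primrec.fst))))
  have hi : Primrec (fun q : α × Data => q.1.1.1.2.1.2) :=
    Primrec.snd.comp (Primrec.fst.comp (Primrec.snd.comp (Primrec.fst.comp
      (Primrec.fst.comp Primrec.fst))))
  have x : Primrec (fun q : α × Data => q.1.2) := Primrec.snd.comp Primrec.fst
  have ta : Primrec (fun q : α × Data => tauN q.2 q.1.2) := pri_tauN.comp Primrec.snd x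
  exact Primrec.ite ((Primrec.nat_le.comp lo ta).and (Primrec.nat_lt.comp ta hi)) ta x

/-- Primitive recursive membership in the iterated closure; `p = (L, (lo, hi), (x, y))`. -/
theorem PRI_grow : PrimrecPred (fun p : List Data × (ℕ × ℕ) × (ℕ × ℕ) =>
    p.2.2.2 ∈ (grow p.1 p.2.1.1 p.2.1.2)^[p.2.1.2] [p.2.2.1]) := by
  have h1 : Primrec (fun p : List Data × (ℕ × ℕ) × (ℕ × ℕ) =>
      (grow p.1 p.2.1.1 p.2.1.2)^[p.2.1.2] [p.2.2.1]) :=
    Primrec.nat_iterate (Primrec.snd.comp (Primrec.fst.comp Primrec.snd))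
      (Primrec.list_cons.comp (Primrec.fst.comp (Primrec.snd.comp Primrec.snd))
        (Primrec.const [])) pri_grow
  refine (pri_exists_mem (R := fun (z : ℕ) (p : List Data × (ℕ × ℕ) × (ℕ × ℕ)) =>
    z = p.2.2.2) h1 (Primrec.eq.comp Primrec.fst
      (Primrec.snd.comp (Primrec.snd.comp (Primrec.snd.comp Primrec.snd))))).of_eq ?_
  intro p
  simp

end CTD
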