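import Pool.Agent.CTD.P_ITE
import Pool.Agent.CTD.P_PRI

set_option autoImplicit false

/-!
Project CTD (MP_8d342a_al), job PRC: the two criteria are primitive recursive.
-/

namespace CTD


theorem prc_pow : Primrec₂ (fun a n : ℕ => a ^ n) := by
  have h : Primrec (fun p : ℕ × ℕ => Nat.rec (motive := fun _ => ℕ) 1 (fun _ y => y * p.1) p.2) :=
    Primrec.nat_rec' Primrec.snd (Primrec.const 1)
      (Primrec.nat_mul.comp (Primrec.snd.comp Primrec.snd) (Primrec.fst.comp Primrec.fst)).to₂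
  refine Primrec.of_eq h fun p => ?_
  obtain ⟨a, n⟩ := p
  induction n with
  | zero => rfl
  | succ n ih =>
    simp only [pow_succ] at ih ⊢
    rw [← ih]

section
variable {α : Type} [Primcodable α]

theorem prc_all {f : α → ℕ} {R : α → ℕ → Prop} (hf : Primrec f)
    (hR : PrimrecPred fun p : α × ℕ => R p.1 p.2) : PrimrecPred fun a => ∀ x < f a, R a x := by
  have h1 : PrimrecRel (fun (x : ℕ) (a : α) => R a x) :=
    hR.comp (Primrec.pair Primrec.snd Primrec.fst)
  have h2 : PrimrecPred fun p : List ℕ × α => ∀ x ∈ p.1, R p.2 x := h1.forall_mem_list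
  exact (h2.comp ((Primrec.list_range.comp hf).pair Primrec.id)).of_eq fun a => by simp

theorem prc_ex {f : α → ℕ} {R : α → ℕ → Prop} (hf : Primrec f)
    (hR : PrimrecPred fun p : α × ℕ => R p.1 p.2) : PrimrecPred fun a => ∃ x < f a, R a x := by
  have h1 : PrimrecRel (fun (x : ℕ) (a : α) => R a x) :=
    hR.comp (Primrec.pair Primrec.snd Primrec.fst)
  have h2 : PrimrecPred fun p : List ℕ × α => ∃ x ∈ p.1, R p.2 x := h1.exists_mem_list
  exact (h2.comp ((Primrec.list_range.comp hf).pair Primrec.id)).of_eq fun a => by simp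

theorem prc_imp {p q : α → Prop} (hp : PrimrecPred p)
    (hq : PrimrecPred q) : PrimrecPred fun a => p a → q a :=
  (hp.not.or hq).of_eq fun a => by tauto

theorem prc_NP {b C T : α → ℕ} (hb : Primrec b) (hC : Primrec C) (hT : Primrec T) :
    Primrec fun a => NP (b a) (C a) (T a) := by
  unfold NP
  exact Primrec.nat_mul.comp (Primrec.nat_mul.comp (Primrec.const 2) hC)
    (prc_pow.comp hb (Primrec.nat_mul.comp (Primrec.const 2) hT))

theorem prc_Cb {b C T : α → ℕ} (hb : Primrec b) (hC : Primrec C) (hT : Primrec T) :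
    Primrec fun a => C a * b a ^ T a :=
  Primrec.nat_mul.comp hC (prc_pow.comp hb hT)

theorem prc_hi1 {b C T : α → ℕ} (hb : Primrec b) (hC : Primrec C) (hT : Primrec T) :
    Primrec fun a => hi1 (b a) (C a) (T a) := by
  unfold hi1
  exact Primrec.nat_mul.comp (Primrec.nat_mul.comp (Primrec.const 2) hC)
    (prc_pow.comp hb (Primrec.nat_add.comp (prc_NP hb hC hT)
      (Primrec.nat_mul.comp (Primrec.const 2) hT)))

theorem prc_hi2 {b C T : α → ℕ} (hb : Primrec b) (hC : Primrec C) (hT : Primrec T) :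
    Primrec fun a => hi2 (b a) (C a) (T a) := by
  unfold hi2 HH
  exact Primrec.nat_mul.comp (Primrec.nat_mul.comp (Primrec.const 2) hC)
    (prc_pow.comp hb (Primrec.nat_add.comp (Primrec.nat_mul.comp (Primrec.const 2) hT)
      (prc_pow.comp (prc_NP hb hC hT) (Primrec.const 2))))

theorem prc_grow {L : α → List Data} {lo hi x y : α → ℕ} (hL : Primrec L) (hlo : Primrec lo)
    (hhi : Primrec hi) (hx : Primrec x) (hy : Primrec y) :
    PrimrecPred fun a => y a ∈ (grow (L a) (lo a) (hi a))^[hi a] [x a] :=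
  PRI_grow.comp (hL.pair ((hlo.pair hhi).pair (hx.pair hy)))

theorem prc_supp {L : α → List Data} {x : α → ℕ} (hL : Primrec L) (hx : Primrec x) :
    PrimrecPred fun a => suppN (L a) (x a) :=
  PRI_supp.comp (hL.pair hx)

end

theorem prc_pos {b C : ℕ} (hb : 2 ≤ b) (j : ℕ) : C ≤ C * b ^ j :=
  Nat.le_mul_of_pos_right C (Nat.pos_of_ne_zero (by positivity))

theorem prc_lt {b C : ℕ} (hb : 2 ≤ b) {i j X : ℕ} (hij : i ≤ j) (hX : X < C * b ^ i) :
    C * b ^ i + X < 2 * C * b ^ j := by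
  have h1 : C * b ^ i ≤ C * b ^ j :=
    Nat.mul_le_mul_left C (Nat.pow_le_pow_right (by omega) hij)
  have h2 : 2 * C * b ^ j = C * b ^ j + C * b ^ j := by ring
  omega

theorem PRC_one : ∃ P : List Data × ℕ × ℕ × ℕ → Prop, PrimrecPred P ∧
    ∀ (L : List Data) (b C T : ℕ), 2 ≤ b → 0 < C → 1 ≤ T →
      (P (L, b, C, T) ↔ crit1 L b C T) := by
  refine ⟨fun p => ∀ j < 2 * p.2.2.2 + 1, ∀ X < p.2.2.1 * p.2.1 ^ j,
    ∀ y < hi1 p.2.1 p.2.2.1 p.2.2.2,
    p.2.2.1 * p.2.1 ^ (NP p.2.1 p.2.2.1 p.2.2.2 + 1) ≤ y →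
    ¬ y ∈ (grow p.1 p.2.2.1 (hi1 p.2.1 p.2.2.1 p.2.2.2))^[hi1 p.2.1 p.2.2.1 p.2.2.2]
      [p.2.2.1 * p.2.1 ^ j + X], ?_, ?_⟩
  · have fL : Primrec fun p : List Data × ℕ × ℕ × ℕ => p.1 := Primrec.fst
    have fb : Primrec fun p : List Data × ℕ × ℕ × ℕ => p.2.1 := Primrec.fst.comp Primrec.snd
    have fC : Primrec fun p : List Data × ℕ × ℕ × ℕ => p.2.2.1 :=
      Primrec.fst.comp (Primrec.snd.comp Primrec.snd)
    have fT : Primrec fun p : List Data × ℕ × ℕ × ℕ => p.2.2.2 :=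
      Primrec.snd.comp (Primrec.snd.comp Primrec.snd)
    refine prc_all (Primrec.nat_add.comp (Primrec.nat_mul.comp (Primrec.const 2) fT)
      (Primrec.const 1)) ?_
    refine prc_all (prc_Cb (fb.comp Primrec.fst) (fC.comp Primrec.fst) Primrec.snd) ?_
    have g : Primrec fun a : ((List Data × ℕ × ℕ × ℕ) × ℕ) × ℕ => a.1.1 :=
      Primrec.fst.comp Primrec.fst
    refine prc_all (prc_hi1 (fb.comp g) (fC.comp g) (fT.comp g)) ?_
    have g' : Primrec fun a : (((List Data × ℕ × ℕ × ℕ) × ℕ) × ℕ) × ℕ => a.1.1.1 :=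
      g.comp Primrec.fst
    refine prc_imp (Primrec.nat_le.comp (prc_Cb (fb.comp g') (fC.comp g')
      (Primrec.nat_add.comp (prc_NP (fb.comp g') (fC.comp g') (fT.comp g'))
        (Primrec.const 1))) Primrec.snd) (PrimrecPred.not ?_)
    exact prc_grow (fL.comp g') (fC.comp g') (prc_hi1 (fb.comp g') (fC.comp g') (fT.comp g'))
      (Primrec.nat_add.comp (prc_Cb (fb.comp g') (fC.comp g')
        (Primrec.snd.comp (Primrec.fst.comp Primrec.fst))) (Primrec.snd.comp Primrec.fst))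
      Primrec.snd
  · intro L b C T hb hC hT
    unfold crit1
    refine forall_congr' fun j => forall_congr' fun hj => forall_congr' fun X =>
      forall_congr' fun hX => forall_congr' fun y => forall_congr' fun hy =>
      forall_congr' fun _ => not_congr ?_
    have h1 : C ≤ C * b ^ j + X := le_trans (prc_pos hb j) (Nat.le_add_right _ _)
    have hj' : j < 2 * T + 1 := hj
    have h2 : C * b ^ j + X < hi1 b C T := prc_lt hb (by omega) hX
    exact (ITE L C (hi1 b C T) _ y h1 h2).symm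

theorem PRC_two : ∃ P : List Data × ℕ × ℕ × ℕ → Prop, PrimrecPred P ∧
    ∀ (L : List Data) (b C T : ℕ), 2 ≤ b → 0 < C → 1 ≤ T →
      (P (L, b, C, T) ↔ crit2 L b C T) := by
  refine ⟨fun p => (∀ X < p.2.2.1 * p.2.1 ^ p.2.2.2, suppN p.1 X → ∃ j < p.2.2.2,
    ∃ Y < p.2.2.1 * p.2.1 ^ j,
    (p.2.2.1 * p.2.1 ^ j + Y) ∈ (grow p.1 p.2.2.1 (hi2 p.2.1 p.2.2.1 p.2.2.2))^[hi2
      p.2.1 p.2.2.1 p.2.2.2] [p.2.2.1 * p.2.1 ^ p.2.2.2 + X]) ∧
    (∀ x < p.2.2.1 * p.2.1 ^ p.2.2.2, ∀ y < p.2.2.1 * p.2.1 ^ p.2.2.2, suppN p.1 x →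
      suppN p.1 y → y ∈ (grow p.1 0 (hi2 p.2.1 p.2.2.1 p.2.2.2))^[hi2
      p.2.1 p.2.2.1 p.2.2.2] [x]), ?_, ?_⟩
  · have fL : Primrec fun p : List Data × ℕ × ℕ × ℕ => p.1 := Primrec.fst
    have fb : Primrec fun p : List Data × ℕ × ℕ × ℕ => p.2.1 := Primrec.fst.comp Primrec.snd
    have fC : Primrec fun p : List Data × ℕ × ℕ × ℕ => p.2.2.1 :=
      Primrec.fst.comp (Primrec.snd.comp Primrec.snd)
    have fT : Primrec fun p : List Data × ℕ × ℕ × ℕ => p.2.2.2 :=
      Primrec.snd.comp (Primrec.snd.comp Primrec.snd)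
    have g1 : Primrec fun a : (List Data × ℕ × ℕ × ℕ) × ℕ => a.1 := Primrec.fst
    have g2 : Primrec fun a : ((List Data × ℕ × ℕ × ℕ) × ℕ) × ℕ => a.1.1 :=
      Primrec.fst.comp Primrec.fst
    have g3 : Primrec fun a : (((List Data × ℕ × ℕ × ℕ) × ℕ) × ℕ) × ℕ => a.1.1.1 :=
      g2.comp Primrec.fst
    refine PrimrecPred.and ?_ ?_
    · refine prc_all (prc_Cb fb fC fT) ?_
      refine prc_imp (prc_supp (fL.comp g1) Primrec.snd) ?_
      refine prc_ex (fT.comp g1) ?_
      refine prc_ex (prc_Cb (fb.comp g2) (fC.comp g2) Primrec.snd) ?_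
      exact prc_grow (fL.comp g3) (fC.comp g3) (prc_hi2 (fb.comp g3) (fC.comp g3) (fT.comp g3))
        (Primrec.nat_add.comp (prc_Cb (fb.comp g3) (fC.comp g3) (fT.comp g3))
          (Primrec.snd.comp (Primrec.fst.comp Primrec.fst)))
        (Primrec.nat_add.comp (prc_Cb (fb.comp g3) (fC.comp g3)
          (Primrec.snd.comp Primrec.fst)) Primrec.snd)
    · refine prc_all (prc_Cb fb fC fT) ?_
      refine prc_all (prc_Cb (fb.comp g1) (fC.comp g1) (fT.comp g1)) ?_
      refine prc_imp (prc_supp (fL.comp g2) (Primrec.snd.comp Primrec.fst)) ?_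
      refine prc_imp (prc_supp (fL.comp g2) Primrec.snd) ?_
      exact prc_grow (fL.comp g2) (Primrec.const 0)
        (prc_hi2 (fb.comp g2) (fC.comp g2) (fT.comp g2)) (Primrec.snd.comp Primrec.fst)
        Primrec.snd
  · intro L b C T hb hC hT
    unfold crit2
    refine and_congr ?_ ?_
    · refine forall_congr' fun X => forall_congr' fun hX => forall_congr' fun _ =>
        exists_congr fun j => and_congr_right fun _ => exists_congr fun Y =>
        and_congr_right fun _ => ?_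
      have h1 : C ≤ C * b ^ T + X := le_trans (prc_pos hb T) (Nat.le_add_right _ _)
      have h2 : C * b ^ T + X < hi2 b C T := prc_lt hb (by unfold HH; omega) hX
      exact (ITE L C (hi2 b C T) _ _ h1 h2).symm
    · refine forall_congr' fun x => forall_congr' fun hx => forall_congr' fun y =>
        forall_congr' fun _ => forall_congr' fun _ => forall_congr' fun _ => ?_
      have hx' : x < C * b ^ T := hx
      have h2 : x < hi2 b C T := lt_of_le_of_lt (Nat.le_add_left _ _)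
        (prc_lt hb (j := HH b C T) (by unfold HH; omega) hx')
      exact (ITE L 0 (hi2 b C T) _ _ (Nat.zero_le _) h2).symm

end CTD
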