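import Pool.Agent.CTD.Defs

set_option autoImplicit false

/-!
Project CTD, job BAS: class transpositions as functions.
-/

namespace CTD

theorem bas_mem {c : ℕ × ℕ} (h : c.1 < c.2) (x : ℤ) : x ∈ cls c ↔ x % c.2 = c.1 := by
  have h1 : ((c.1 : ℕ) : ℤ) < ((c.2 : ℕ) : ℤ) := by exact_mod_cast h
  have h0 : (0 : ℤ) ≤ ((c.1 : ℕ) : ℤ) := by positivity
  constructor
  · rintro ⟨k, rfl⟩
    rw [Int.add_mul_emod_self_right]
    exact Int.emod_eq_of_lt h0 h1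
  · intro hx
    refine ⟨x / c.2, ?_⟩
    have := Int.emod_add_mul_ediv x c.2
    rw [hx] at this
    linarith [mul_comm ((c.2 : ℕ) : ℤ) (x / c.2)]

theorem bas_emod {c : ℕ × ℕ} (h : c.1 < c.2) (k : ℤ) :
    ((c.1 : ℤ) + k * c.2) % c.2 = c.1 :=
  (bas_mem h _).1 ⟨k, rfl⟩

theorem bas_ediv {c : ℕ × ℕ} (h : c.1 < c.2) (k : ℤ) :
    ((c.1 : ℤ) + k * c.2) / c.2 = k := by
  have h1 : ((c.1 : ℕ) : ℤ) < ((c.2 : ℕ) : ℤ) := by exact_mod_cast h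
  have h0 : (0 : ℤ) ≤ ((c.1 : ℕ) : ℤ) := by positivity
  have h2 : ((c.2 : ℕ) : ℤ) ≠ 0 := by linarith
  rw [Int.add_mul_ediv_right _ _ h2, Int.ediv_eq_zero_of_lt h0 h1, zero_add]

theorem bas_tau1 {t : Data} (h : IsCT t) (k : ℤ) :
    tau t ((t.1.1 : ℤ) + k * t.1.2) = t.2.1 + k * t.2.2 := by
  unfold tau
  rw [if_pos (bas_emod h.1 k), bas_ediv h.1 k]

theorem bas_tau2 {t : Data} (h : IsCT t) (k : ℤ) :
    tau t ((t.2.1 : ℤ) + k * t.2.2) = t.1.1 + k * t.1.2 := by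
  unfold tau
  have hn : ¬ (((t.2.1 : ℤ) + k * t.2.2) % t.1.2 = t.1.1) := by
    intro hc
    have h1 : ((t.2.1 : ℤ) + k * t.2.2) ∈ cls t.1 := (bas_mem h.1 _).2 hc
    exact Set.disjoint_left.1 h.2.2 h1 ⟨k, rfl⟩
  rw [if_neg hn, if_pos (bas_emod h.2.1 k), bas_ediv h.2.1 k]

theorem bas_tau3 {t : Data} (h : IsCT t) {x : ℤ} (h1 : x ∉ cls t.1) (h2 : x ∉ cls t.2) :
    tau t x = x := by
  unfold tau
  rw [if_neg (fun hc => h1 ((bas_mem h.1 x).2 hc)), if_neg (fun hc => h2 ((bas_mem h.2.1 x).2 hc))]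

/-- `x % m = r` with `0 ≤ r < m` iff `x = r + k m`. -/
theorem BAS_cls {t : Data} (h : IsCT t) (x : ℤ) :
    (x ∈ cls t.1 ↔ x % t.1.2 = t.1.1) ∧ (x ∈ cls t.2 ↔ x % t.2.2 = t.2.1) :=
  ⟨bas_mem h.1 x, bas_mem h.2.1 x⟩

theorem BAS_invol {t : Data} (h : IsCT t) (x : ℤ) : tau t (tau t x) = x := by
  by_cases h1 : x ∈ cls t.1
  · obtain ⟨k, rfl⟩ := h1
    rw [bas_tau1 h, bas_tau2 h]
  · by_cases h2 : x ∈ cls t.2
    · obtain ⟨k, rfl⟩ := h2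
      rw [bas_tau2 h, bas_tau1 h]
    · rw [bas_tau3 h h1 h2, bas_tau3 h h1 h2]

theorem bas_coef {c : ℕ × ℕ} (h : c.1 < c.2) {k : ℤ} (hx : 0 ≤ (c.1 : ℤ) + k * c.2) : 0 ≤ k := by
  have h1 : ((c.1 : ℕ) : ℤ) < ((c.2 : ℕ) : ℤ) := by exact_mod_cast h
  have h0 : (0 : ℤ) ≤ ((c.1 : ℕ) : ℤ) := by positivity
  by_contra hk
  have hk1 : k ≤ -1 := by omega
  have : k * ((c.2 : ℕ) : ℤ) ≤ (-1) * ((c.2 : ℕ) : ℤ) :=
    mul_le_mul_of_nonneg_right hk1 (by linarith)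
  linarith

theorem BAS_nonneg {t : Data} (h : IsCT t) {x : ℤ} (hx : 0 ≤ x) : 0 ≤ tau t x := by
  by_cases h1 : x ∈ cls t.1
  · obtain ⟨k, rfl⟩ := h1
    have hk := bas_coef h.1 hx
    rw [bas_tau1 h]
    positivity
  · by_cases h2 : x ∈ cls t.2
    · obtain ⟨k, rfl⟩ := h2
      have hk := bas_coef h.2.1 hx
      rw [bas_tau2 h]
      positivity
    · rw [bas_tau3 h h1 h2]
      exact hx

theorem BAS_nat {t : Data} (h : IsCT t) (x : ℕ) : tau t (x : ℤ) = (tauN t x : ℕ) := by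
  have _ := h
  unfold tau tauN
  have e1 : ((x : ℤ) % (t.1.2 : ℤ) = (t.1.1 : ℤ)) ↔ x % t.1.2 = t.1.1 := by
    rw [← Int.natCast_mod]
    exact Int.natCast_inj
  have e2 : ((x : ℤ) % (t.2.2 : ℤ) = (t.2.1 : ℤ)) ↔ x % t.2.2 = t.2.1 := by
    rw [← Int.natCast_mod]
    exact Int.natCast_inj
  by_cases c1 : x % t.1.2 = t.1.1
  · rw [if_pos (e1.2 c1), if_pos c1]
    push_cast
    rfl
  · rw [if_neg (fun hc => c1 (e1.1 hc)), if_neg c1]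
    by_cases c2 : x % t.2.2 = t.2.1
    · rw [if_pos (e2.2 c2), if_pos c2]
      push_cast
      rfl
    · rw [if_neg (fun hc => c2 (e2.1 hc)), if_neg c2]

theorem BAS_move {t : Data} (h : IsCT t) (x : ℤ) :
    tau t x ≠ x ↔ (x ∈ cls t.1 ∨ x ∈ cls t.2) := by
  constructor
  · intro hx
    by_contra hc
    exact hx (bas_tau3 h (fun h1 => hc (Or.inl h1)) (fun h2 => hc (Or.inr h2)))
  · rintro (h1 | h2) hx
    · obtain ⟨k, rfl⟩ := h1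
      rw [bas_tau1 h] at hx
      exact Set.disjoint_left.1 h.2.2 ⟨k, rfl⟩ ⟨k, hx.symm⟩
    · obtain ⟨k, rfl⟩ := h2
      rw [bas_tau2 h] at hx
      exact Set.disjoint_left.1 h.2.2 ⟨k, hx.symm⟩ ⟨k, rfl⟩

theorem BAS_is {t : Data} (h : IsCT t) (g : Equiv.Perm ℤ) : Is t g ↔ ∀ x, g x = tau t x := by
  constructor
  · rintro ⟨a1, a2, a3⟩ x
    by_cases h1 : x ∈ cls t.1
    · obtain ⟨k, rfl⟩ := h1
      rw [bas_tau1 h, a1]
    · by_cases h2 : x ∈ cls t.2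
      · obtain ⟨k, rfl⟩ := h2
        rw [bas_tau2 h, a2]
      · rw [bas_tau3 h h1 h2, a3 x h1 h2]
  · intro hg
    refine ⟨fun k => ?_, fun k => ?_, fun x h1 h2 => ?_⟩
    · rw [hg, bas_tau1 h]
    · rw [hg, bas_tau2 h]
    · rw [hg, bas_tau3 h h1 h2]

theorem BAS_exists {t : Data} (h : IsCT t) : ∃ g : Equiv.Perm ℤ, Is t g :=
  ⟨⟨tau t, tau t, BAS_invol h, BAS_invol h⟩, (BAS_is h _).2 fun _ => rfl⟩

end CTD
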