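import Pool.Agent.CTD.Defs

set_option autoImplicit false

/-!
Project CTD, job NUM: words as integers.
-/

namespace CTD

variable {b C : ℕ}

lemma num_dig_nil (k : ℤ) : dig k ([] : List (Fin b)) = k := rfl

lemma num_dig_cons (k : ℤ) (d : Fin b) (l : List (Fin b)) :
    dig k (d :: l) = dig (k * b + ((d : ℕ) : ℤ)) l := rfl

theorem NUM_dig (k : ℤ) (l : List (Fin b)) : dig k l = dig 0 l + k * (b : ℤ) ^ l.length := by
  induction l generalizing k with
  | nil => simp [num_dig_nil]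
  | cons d l ih =>
    rw [num_dig_cons, num_dig_cons, ih, ih (0 * (b : ℤ) + ((d : ℕ) : ℤ)), List.length_cons,
      pow_succ]
    ring

theorem NUM_dig_append (k : ℤ) (l l' : List (Fin b)) : dig k (l ++ l') = dig (dig k l) l' := by
  induction l generalizing k with
  | nil => rfl
  | cons d l ih => rw [List.cons_append, num_dig_cons, num_dig_cons, ih]

theorem NUM_pre (k : ℤ) (p : List (Fin b)) (w : Word b C) : num k (pre p w) = num (dig k p) w := by
  unfold num pre
  rw [NUM_dig_append]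

theorem NUM_split (k : ℤ) (w : Word b C) :
    num k w = num 0 w + C * (b : ℤ) ^ w.1.length * k := by
  unfold num
  rw [NUM_dig]
  ring

lemma num_dig_nonneg (l : List (Fin b)) : 0 ≤ dig 0 l := by
  induction l with
  | nil => simp [num_dig_nil]
  | cons d l ih =>
    rw [num_dig_cons, NUM_dig]
    positivity

lemma num_dig_lt (l : List (Fin b)) : dig 0 l < (b : ℤ) ^ l.length := by
  induction l with
  | nil => simp [num_dig_nil]
  | cons d l ih =>
    rw [num_dig_cons, NUM_dig, List.length_cons, pow_succ]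
    have h1 : ((d : ℕ) : ℤ) + 1 ≤ (b : ℤ) := by exact_mod_cast d.2
    have h2 : (0 : ℤ) ≤ (b : ℤ) ^ l.length := by positivity
    nlinarith

theorem NUM_nonneg (w : Word b C) : 0 ≤ num 0 w := by
  unfold num
  have := num_dig_nonneg w.1
  positivity

theorem NUM_lt (w : Word b C) : num 0 w < C * (b : ℤ) ^ w.1.length := by
  unfold num
  have h1 := num_dig_lt w.1
  have h2 : (((w.2 : Fin C) : ℕ) : ℤ) + 1 ≤ (C : ℤ) := by exact_mod_cast w.2.2
  have h3 : (0 : ℤ) ≤ C := by positivity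
  nlinarith

lemma num_exists_dig (hb : 2 ≤ b) (j : ℕ) (Y : ℤ) (h0 : 0 ≤ Y) (h1 : Y < (b : ℤ) ^ j) :
    ∃ l : List (Fin b), l.length = j ∧ dig 0 l = Y := by
  induction j generalizing Y with
  | zero =>
    refine ⟨[], rfl, ?_⟩
    rw [num_dig_nil]
    rw [pow_zero] at h1
    omega
  | succ j ih =>
    have hb0 : (0 : ℤ) < b := by positivity
    have h2 : Y / b < (b : ℤ) ^ j := by
      apply Int.ediv_lt_of_lt_mul hb0
      rw [← pow_succ]
      exact h1
    obtain ⟨l, hl, hd⟩ := ih (Y / b) (Int.ediv_nonneg h0 hb0.le) h2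
    have h3 : 0 ≤ Y % b := Int.emod_nonneg _ hb0.ne'
    have h4 : Y % b < b := Int.emod_lt_of_pos _ hb0
    refine ⟨l ++ [⟨(Y % b).toNat, by omega⟩], by simp [hl], ?_⟩
    rw [NUM_dig_append, hd, num_dig_cons, num_dig_nil]
    have h5 : (((Y % b).toNat : ℕ) : ℤ) = Y % b := Int.toNat_of_nonneg h3
    rw [h5]
    exact Int.ediv_mul_add_emod Y b

/-- Division with remainder: `X = ρ + C Y`, `Y < b ^ j`, induction on `j`. -/
theorem NUM_exists (hb : 2 ≤ b) (hC : 0 < C) (j : ℕ) (X : ℤ) (h0 : 0 ≤ X)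
    (h1 : X < C * (b : ℤ) ^ j) : ∃ w : Word b C, w.1.length = j ∧ num 0 w = X := by
  have hC0 : (0 : ℤ) < C := by exact_mod_cast hC
  have h2 : X / C < (b : ℤ) ^ j := by
    apply Int.ediv_lt_of_lt_mul hC0
    rw [mul_comm]
    exact h1
  obtain ⟨l, hl, hd⟩ := num_exists_dig hb j (X / C) (Int.ediv_nonneg h0 hC0.le) h2
  have h3 : 0 ≤ X % C := Int.emod_nonneg _ hC0.ne'
  have h4 : X % C < C := Int.emod_lt_of_pos _ hC0
  refine ⟨(l, ⟨(X % C).toNat, by omega⟩), hl, ?_⟩
  unfold num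
  rw [hd]
  have h5 : (((X % C).toNat : ℕ) : ℤ) = X % C := Int.toNat_of_nonneg h3
  rw [h5]
  exact Int.emod_add_mul_ediv X C

lemma num_dig_inj {l l' : List (Fin b)} (hl : l.length = l'.length) (h : dig 0 l = dig 0 l') :
    l = l' := by
  induction l generalizing l' with
  | nil =>
    rw [List.length_nil] at hl
    exact (List.length_eq_zero_iff.mp hl.symm).symm
  | cons d l ih =>
    cases l' with
    | nil => simp at hl
    | cons d' l' =>
      have hl2 : l.length = l'.length := by simpa using hl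
      rw [num_dig_cons, num_dig_cons, NUM_dig, NUM_dig (0 * (b : ℤ) + ((d' : ℕ) : ℤ)),
        ← hl2] at h
      have h1 := num_dig_lt l
      have h2 := num_dig_nonneg l
      have h3 := num_dig_lt l'
      have h4 := num_dig_nonneg l'
      rw [← hl2] at h3
      have hB : (0 : ℤ) < (b : ℤ) ^ l.length := by
        have : 0 < b := Nat.pos_of_ne_zero (by
          intro h0
          have := d.2
          omega)
        positivity
      have h5 : ((d : ℕ) : ℤ) = ((d' : ℕ) : ℤ) := by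
        rcases lt_trichotomy ((d : ℕ) : ℤ) ((d' : ℕ) : ℤ) with h6 | h6 | h6
        · have h7 : ((d : ℕ) : ℤ) + 1 ≤ ((d' : ℕ) : ℤ) := h6
          nlinarith
        · exact h6
        · have h7 : ((d' : ℕ) : ℤ) + 1 ≤ ((d : ℕ) : ℤ) := h6
          nlinarith
      have h8 : d = d' := Fin.ext (by exact_mod_cast h5)
      have h9 : dig 0 l = dig 0 l' := by
        rw [h5] at h
        linarith
      rw [h8, ih hl2 h9]

theorem NUM_inj_len (hb : 2 ≤ b) {k : ℤ} {u v : Word b C} (hl : u.1.length = v.1.length)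
    (h : num k u = num k v) : u = v := by
  rw [NUM_split, NUM_split k v, ← hl] at h
  have h0 : num 0 u = num 0 v := by linarith
  unfold num at h0
  have h1 : (((u.2 : Fin C) : ℕ) : ℤ) + 1 ≤ (C : ℤ) := by exact_mod_cast u.2.2
  have h2 : (((v.2 : Fin C) : ℕ) : ℤ) + 1 ≤ (C : ℤ) := by exact_mod_cast v.2.2
  have h3 : (0 : ℤ) ≤ (((u.2 : Fin C) : ℕ) : ℤ) := by positivity
  have h4 : (0 : ℤ) ≤ (((v.2 : Fin C) : ℕ) : ℤ) := by positivity
  have h5 : dig 0 u.1 = dig 0 v.1 := by
    rcases lt_trichotomy (dig 0 u.1) (dig 0 v.1) with h6 | h6 | h6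
    · have h7 : dig 0 u.1 + 1 ≤ dig 0 v.1 := h6
      nlinarith
    · exact h6
    · have h7 : dig 0 v.1 + 1 ≤ dig 0 u.1 := h6
      nlinarith
  have h6 : (((u.2 : Fin C) : ℕ) : ℤ) = (((v.2 : Fin C) : ℕ) : ℤ) := by
    rw [h5] at h0
    linarith
  exact Prod.ext (num_dig_inj hl h5) (Fin.ext (by exact_mod_cast h6))

lemma num_one_bounds (w : Word b C) : C * (b : ℤ) ^ w.1.length ≤ num 1 w ∧
    num 1 w < 2 * (C * (b : ℤ) ^ w.1.length) := by
  rw [NUM_split]
  have h1 := NUM_nonneg w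
  have h2 := NUM_lt w
  constructor <;> linarith

lemma num_len_le (hb : 2 ≤ b) {u v : Word b C} (h : num 1 u = num 1 v) :
    v.1.length ≤ u.1.length := by
  by_contra hc
  rw [not_le] at hc
  have h1 := num_one_bounds u
  have h2 := num_one_bounds v
  have hC : (0 : ℤ) ≤ C := by positivity
  have h3 : 2 * (b : ℤ) ^ u.1.length ≤ (b : ℤ) ^ v.1.length := by
    calc 2 * (b : ℤ) ^ u.1.length ≤ (b : ℤ) * (b : ℤ) ^ u.1.length := by
          have : (2 : ℤ) ≤ b := by exact_mod_cast hb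
          have h4 : (0 : ℤ) ≤ (b : ℤ) ^ u.1.length := by positivity
          nlinarith
      _ = (b : ℤ) ^ (u.1.length + 1) := by rw [pow_succ, mul_comm]
      _ ≤ (b : ℤ) ^ v.1.length := by
          apply pow_le_pow_right₀ _ hc
          have : (2 : ℤ) ≤ b := by exact_mod_cast hb
          linarith
  have h4 : 2 * (C * (b : ℤ) ^ u.1.length) ≤ C * (b : ℤ) ^ v.1.length := by
    calc 2 * (C * (b : ℤ) ^ u.1.length) = C * (2 * (b : ℤ) ^ u.1.length) := by ring
      _ ≤ C * (b : ℤ) ^ v.1.length := mul_le_mul_of_nonneg_left h3 hC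
  linarith [h1.2, h2.1]

/-- `C b^|u| ≤ num 1 u < 2 C b^|u|` gives equal lengths. -/
theorem NUM_inj (hb : 2 ≤ b) {u v : Word b C} (h : num 1 u = num 1 v) : u = v :=
  NUM_inj_len hb (le_antisymm (num_len_le hb h.symm) (num_len_le hb h)) h

theorem NUM_prefix (hb : 2 ≤ b) (k : ℤ) (i : ℕ) :
    ∃ z : List (Fin b), z.length = i ∧ dig (k / (b : ℤ) ^ i) z = k := by
  have hB : (0 : ℤ) < (b : ℤ) ^ i := by positivity
  obtain ⟨z, hz, hd⟩ := num_exists_dig hb i (k % (b : ℤ) ^ i) (Int.emod_nonneg _ hB.ne')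
    (Int.emod_lt_of_pos _ hB)
  refine ⟨z, hz, ?_⟩
  rw [NUM_dig, hd, hz, add_comm]
  exact Int.ediv_mul_add_emod k _

theorem NUM_card (hb : 2 ≤ b) (T : ℕ) :
    {w : Word b C | w.1.length ≤ 2 * T}.Finite ∧
      {w : Word b C | w.1.length ≤ 2 * T}.ncard ≤ NP b C T := by
  have hinj : Set.InjOn (fun w : Word b C => num 1 w) {w : Word b C | w.1.length ≤ 2 * T} :=
    fun u _ v _ h => NUM_inj hb h
  have hmaps : Set.MapsTo (fun w : Word b C => num 1 w) {w : Word b C | w.1.length ≤ 2 * T}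
      (Set.Ico (0 : ℤ) ((NP b C T : ℕ) : ℤ)) := by
    intro w hw
    have hw2 : w.1.length ≤ 2 * T := hw
    have h1 := num_one_bounds w
    have hb1 : (1 : ℤ) ≤ b := by
      have : (2 : ℤ) ≤ b := by exact_mod_cast hb
      linarith
    have h2 : (b : ℤ) ^ w.1.length ≤ (b : ℤ) ^ (2 * T) := pow_le_pow_right₀ hb1 hw2
    have hC : (0 : ℤ) ≤ C := by positivity
    have h3 : C * (b : ℤ) ^ w.1.length ≤ C * (b : ℤ) ^ (2 * T) := mul_le_mul_of_nonneg_left h2 hC
    have h4 : (0 : ℤ) ≤ C * (b : ℤ) ^ w.1.length := by positivity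
    refine ⟨by linarith [h1.1], ?_⟩
    have h5 : ((NP b C T : ℕ) : ℤ) = 2 * (C * (b : ℤ) ^ (2 * T)) := by
      unfold NP
      push_cast
      ring
    rw [h5]
    linarith [h1.2]
  have hfin : (Set.Ico (0 : ℤ) ((NP b C T : ℕ) : ℤ)).Finite := Set.finite_Ico _ _
  refine ⟨Set.Finite.of_injOn hmaps hinj hfin, ?_⟩
  have h6 := Set.ncard_le_ncard_of_injOn _ hmaps hinj hfin
  have h7 : (Set.Ico (0 : ℤ) ((NP b C T : ℕ) : ℤ)).ncard = NP b C T := by
    rw [← Finset.coe_Ico, Set.ncard_coe_finset, Int.card_Ico]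
    simp
  rw [h7] at h6
  exact h6

end CTD
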