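import Pool.Agent.CTD.Defs
import Pool.Agent.CTD.P_BAS
import Pool.Agent.CTD.P_NUM

set_option autoImplicit false

/-!
Project CTD, job COD: words and intervals of natural numbers.
-/

namespace CTD

variable {b C : ℕ}

/-- The part of a class transposition which maps the class `r(m)` to `r'(m')`. -/
theorem cod_key (hb : 2 ≤ b) (hC : 0 < C) {r m r' m' : ℕ} (hr : r < m) (hr' : r' < m')
    (hsl : (∃ e : ℕ, m' = m * b ^ e ∧ m ∣ C) ∨ (∃ e : ℕ, m = m' * b ^ e ∧ m' ∣ C))
    (v : Word b C) (hy : num 1 v % (m : ℤ) = r)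
    (h : (C : ℤ) ≤ r' + num 1 v / m * m') :
    ∃ v' : Word b C, ∀ k : ℤ, num k v % (m : ℤ) = r ∧
      (r' : ℤ) + num k v / m * m' = num k v' := by
  have hm : (0 : ℤ) < m := by exact_mod_cast Nat.lt_of_le_of_lt (Nat.zero_le _) hr
  have hm' : (0 : ℤ) < m' := by exact_mod_cast Nat.lt_of_le_of_lt (Nat.zero_le _) hr'
  have hbz : (2 : ℤ) ≤ b := by exact_mod_cast hb
  have hCz : (0 : ℤ) < C := by exact_mod_cast hC
  have hrz : (r : ℤ) < m := by exact_mod_cast hr
  have hr'z : (r' : ℤ) < m' := by exact_mod_cast hr'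
  have hY0 := NUM_nonneg v
  have hY1 := NUM_lt v
  set Y := num 0 v with hYdef
  -- general construction
  have main : ∀ (q : ℤ) (j : ℕ), C * (b : ℤ) ^ v.1.length = q * m → q * m' = C * (b : ℤ) ^ j →
      ∃ v' : Word b C, ∀ k : ℤ, num k v % (m : ℤ) = r ∧
      (r' : ℤ) + num k v / m * m' = num k v' := by
    intro q j hq1 hq2
    have hmod : ∀ k : ℤ, num k v % (m : ℤ) = Y % m := by
      intro k
      rw [NUM_split k v, ← hYdef, hq1]
      have : Y + q * m * k = Y + m * (q * k) := by ring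
      rw [this, Int.add_mul_emod_self_left]
    have hYr : Y % (m : ℤ) = r := by rw [← hmod 1]; exact hy
    have hdiv : ∀ k : ℤ, num k v / (m : ℤ) = Y / m + q * k := by
      intro k
      rw [NUM_split k v, ← hYdef, hq1]
      have : Y + q * m * k = Y + m * (q * k) := by ring
      rw [this, Int.add_mul_ediv_left _ _ hm.ne']
    have hYq : Y / (m : ℤ) < q := by
      apply Int.ediv_lt_of_lt_mul hm
      rw [← hq1]; exact hY1
    have hYn : 0 ≤ Y / (m : ℤ) := Int.ediv_nonneg hY0 hm.le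
    have hZ0 : 0 ≤ (r' : ℤ) + Y / m * m' := by positivity
    have hZ1 : (r' : ℤ) + Y / m * m' < C * (b : ℤ) ^ j := by
      rw [← hq2]
      nlinarith
    obtain ⟨v', hl, hv'⟩ := NUM_exists hb hC j _ hZ0 hZ1
    refine ⟨v', fun k => ⟨by rw [hmod k]; exact hYr, ?_⟩⟩
    rw [NUM_split k v', hv', hl, hdiv k, ← hq2]
    ring
  rcases hsl with ⟨e, he, hd⟩ | ⟨e, he, hd⟩
  · obtain ⟨c, hc⟩ := hd
    have hcz : (C : ℤ) = m * c := by exact_mod_cast hc
    have hez : (m' : ℤ) = m * (b : ℤ) ^ e := by exact_mod_cast he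
    apply main (c * (b : ℤ) ^ v.1.length) (v.1.length + e)
    · rw [hcz]; ring
    · rw [hcz, hez, pow_add]; ring
  · obtain ⟨c, hc⟩ := hd
    have hcz : (C : ℤ) = m' * c := by exact_mod_cast hc
    have hez : (m : ℤ) = m' * (b : ℤ) ^ e := by exact_mod_cast he
    by_cases hle : e ≤ v.1.length
    · obtain ⟨i, hi⟩ := Nat.exists_eq_add_of_le hle
      apply main (c * (b : ℤ) ^ i) i
      · rw [hi, hcz, hez, pow_add]; ring
      · rw [hcz]; ring
    · exfalso
      push Not at hle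
      have hsplit := NUM_split 1 v
      rw [← hYdef] at hsplit
      have hpow : (b : ℤ) ^ (v.1.length + 1) ≤ (b : ℤ) ^ e :=
        pow_le_pow_right₀ (by linarith) hle
      have hlt : num 1 v < c * m := by
        have h1 : num 1 v < 2 * (C * (b : ℤ) ^ v.1.length) := by
          rw [hsplit]; linarith
        have h2 : 2 * (C * (b : ℤ) ^ v.1.length) ≤ C * (b : ℤ) ^ (v.1.length + 1) := by
          rw [pow_succ]
          have : (0 : ℤ) ≤ C * (b : ℤ) ^ v.1.length := by positivity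
          nlinarith
        have h3 : C * (b : ℤ) ^ (v.1.length + 1) ≤ C * (b : ℤ) ^ e :=
          mul_le_mul_of_nonneg_left hpow hCz.le
        have h4 : C * (b : ℤ) ^ e = c * m := by rw [hcz, hez]; ring
        linarith
      have hdlt : num 1 v / (m : ℤ) < c := Int.ediv_lt_of_lt_mul hm hlt
      have : (r' : ℤ) + num 1 v / m * m' < C := by
        rw [hcz]
        nlinarith
      linarith

theorem COD_step {L : List Data} {T : ℕ} (hG : Good L b C T) {t : Data} (ht : t ∈ L)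
    (v : Word b C) (h : (C : ℤ) ≤ tau t (num 1 v)) :
    tau t (num 1 v) = num 1 v ∨
      ∃ v' : Word b C, tau t (num 1 v) = num 1 v' ∧ StepW L v v' := by
  have hct := hG.hct t ht
  obtain ⟨h1, h2, hdis⟩ := hct
  have hct := hG.hct t ht
  have hsl := hG.hsl t ht
  by_cases hA : num 1 v % (t.1.2 : ℤ) = t.1.1
  · right
    have htau : tau t (num 1 v) = t.2.1 + num 1 v / t.1.2 * t.2.2 := by
      unfold tau; rw [if_pos hA]
    have hs : (∃ e : ℕ, t.2.2 = t.1.2 * b ^ e ∧ t.1.2 ∣ C) ∨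
        (∃ e : ℕ, t.1.2 = t.2.2 * b ^ e ∧ t.2.2 ∣ C) := by
      rcases hsl with ⟨e, _, h3, h4⟩ | ⟨e, _, h3, h4⟩
      · exact Or.inl ⟨e, h3, h4⟩
      · exact Or.inr ⟨e, h3, h4⟩
    obtain ⟨v', hv'⟩ := cod_key hG.hb hG.hC h1 h2 hs v hA (by rw [← htau]; exact h)
    have hall : ∀ k : ℤ, tau t (num k v) = num k v' := by
      intro k
      unfold tau
      rw [if_pos (hv' k).1]
      exact (hv' k).2
    exact ⟨v', hall 1, t, ht, hall⟩
  · by_cases hB : num 1 v % (t.2.2 : ℤ) = t.2.1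
    · right
      have htau : tau t (num 1 v) = t.1.1 + num 1 v / t.2.2 * t.1.2 := by
        unfold tau; rw [if_neg hA, if_pos hB]
      have hs : (∃ e : ℕ, t.1.2 = t.2.2 * b ^ e ∧ t.2.2 ∣ C) ∨
          (∃ e : ℕ, t.2.2 = t.1.2 * b ^ e ∧ t.1.2 ∣ C) := by
        rcases hsl with ⟨e, _, h3, h4⟩ | ⟨e, _, h3, h4⟩
        · exact Or.inr ⟨e, h3, h4⟩
        · exact Or.inl ⟨e, h3, h4⟩
      obtain ⟨v', hv'⟩ := cod_key hG.hb hG.hC h2 h1 hs v hB (by rw [← htau]; exact h)
      have hall : ∀ k : ℤ, tau t (num k v) = num k v' := by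
        intro k
        unfold tau
        have hn : ¬ num k v % (t.1.2 : ℤ) = t.1.1 := by
          intro hcon
          have e1 := ((BAS_cls hct (num k v)).1).2 hcon
          have e2 := ((BAS_cls hct (num k v)).2).2 (hv' k).1
          exact (Set.disjoint_left.1 hdis) e1 e2
        rw [if_neg hn, if_pos (hv' k).1]
        exact (hv' k).2
      exact ⟨v', hall 1, t, ht, hall⟩
    · left
      unfold tau
      rw [if_neg hA, if_neg hB]

theorem cod_conn {L : List Data} {T : ℕ} (hG : Good L b C T) (h : ℕ) (x y : ℕ)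
    (hxy : ConnN L C (2 * C * b ^ h) x y) (u : Word b C) (hx : (x : ℤ) = num 1 u)
    (hu : u.1.length ≤ h) :
    ∃ v : Word b C, (y : ℤ) = num 1 v ∧ v.1.length ≤ h ∧ ConnH L h u v := by
  induction hxy with
  | refl => exact ⟨u, hx, hu, Relation.ReflTransGen.refl⟩
  | tail hac hcd ih =>
    rename_i a c
    obtain ⟨v, hv1, hv2, hv3⟩ := ih
    obtain ⟨_, _, h3, h4, t, ht, h5⟩ := hcd
    have hc : (c : ℤ) = tau t (num 1 v) := by
      rw [← hv1, BAS_nat (hG.hct t ht) a, h5]
    have hge : (C : ℤ) ≤ tau t (num 1 v) := by rw [← hc]; exact_mod_cast h3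
    rcases COD_step hG ht v hge with hs | ⟨v', hs, hst⟩
    · exact ⟨v, by rw [hc, hs], hv2, hv3⟩
    · have hcv : (c : ℤ) = num 1 v' := by rw [hc, hs]
      have hl : v'.1.length ≤ h := by
        by_contra hcon
        push Not at hcon
        have h6 := NUM_split 1 v'
        have h7 := NUM_nonneg v'
        have hb2 : (2 : ℤ) ≤ b := by exact_mod_cast hG.hb
        have hC0 : (0 : ℤ) < C := by exact_mod_cast hG.hC
        have h8 : (c : ℤ) < 2 * C * (b : ℤ) ^ h := by exact_mod_cast h4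
        have h9 : (b : ℤ) ^ (h + 1) ≤ (b : ℤ) ^ v'.1.length :=
          pow_le_pow_right₀ (by linarith) hcon
        have h10 : 2 * C * (b : ℤ) ^ h ≤ C * (b : ℤ) ^ (h + 1) := by
          rw [pow_succ]
          have : (0 : ℤ) ≤ C * (b : ℤ) ^ h := by positivity
          nlinarith
        have h11 : C * (b : ℤ) ^ (h + 1) ≤ C * (b : ℤ) ^ v'.1.length :=
          mul_le_mul_of_nonneg_left h9 hC0.le
        rw [hcv, h6] at h8
        linarith
      exact ⟨v', hcv, hl, hv3.tail ⟨hv2, hl, hst⟩⟩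

theorem COD_conn {L : List Data} {T : ℕ} (hG : Good L b C T) (h : ℕ) (x y : ℕ)
    (hxy : ConnN L C (2 * C * b ^ h) x y) (u : Word b C) (hx : (x : ℤ) = num 1 u)
    (hu : u.1.length ≤ h) :
    ∃ v : Word b C, (y : ℤ) = num 1 v ∧ ConnH L h u v := by
  obtain ⟨v, h1, _, h3⟩ := cod_conn hG h x y hxy u hx hu
  exact ⟨v, h1, h3⟩

theorem COD_one {L : List Data} {T : ℕ} (hG : Good L b C T) (h : ℕ) (u v : Word b C)
    (huv : ConnH L h u v) (x y : ℕ) (hx : (x : ℤ) = num 1 u) (hy : (y : ℤ) = num 1 v) :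
    ConnN L C (2 * C * b ^ h) x y := by
  have hb2 : (2 : ℤ) ≤ b := by exact_mod_cast hG.hb
  have hC0 : (0 : ℤ) < C := by exact_mod_cast hG.hC
  have hrange : ∀ w : Word b C, w.1.length ≤ h →
      (C : ℤ) ≤ num 1 w ∧ num 1 w < 2 * C * (b : ℤ) ^ h := by
    intro w hw
    have h1 := NUM_split 1 w
    have h2 := NUM_nonneg w
    have h3 := NUM_lt w
    have h4 : (1 : ℤ) ≤ (b : ℤ) ^ w.1.length := one_le_pow₀ (by linarith)
    have h5 : (b : ℤ) ^ w.1.length ≤ (b : ℤ) ^ h := pow_le_pow_right₀ (by linarith) hw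
    rw [h1]
    constructor
    · nlinarith
    · nlinarith
  have key : ConnN L C (2 * C * b ^ h) (num 1 u).toNat (num 1 v).toNat := by
    refine Relation.ReflTransGen.lift (fun w : Word b C => (num 1 w).toNat) ?_ _ _ huv
    rintro a c ⟨ha, hc, t, ht, hs⟩
    obtain ⟨a1, a2⟩ := hrange a ha
    obtain ⟨c1, c2⟩ := hrange c hc
    have ea : (((num 1 a).toNat : ℕ) : ℤ) = num 1 a := Int.toNat_of_nonneg (by linarith)
    have ec : (((num 1 c).toNat : ℕ) : ℤ) = num 1 c := Int.toNat_of_nonneg (by linarith)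
    refine ⟨?_, ?_, ?_, ?_, t, ht, ?_⟩
    · zify; rw [ea]; exact a1
    · zify; rw [ea]; exact a2
    · zify; rw [ec]; exact c1
    · zify; rw [ec]; exact c2
    · zify
      rw [← BAS_nat (hG.hct t ht), ea, ec]
      exact (hs 1).symm
  have ex : (num 1 u).toNat = x := by rw [← hx]; exact Int.toNat_natCast x
  have ey : (num 1 v).toNat = y := by rw [← hy]; exact Int.toNat_natCast y
  rw [ex, ey] at key
  exact key

theorem COD_zero {L : List Data} {T : ℕ} (hG : Good L b C T) (h : ℕ) (u v : Word b C)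
    (huv : ConnH L h u v) (x y : ℕ) (hx : (x : ℤ) = num 0 u) (hy : (y : ℤ) = num 0 v) :
    ConnN L 0 (2 * C * b ^ h) x y := by
  have hb2 : (2 : ℤ) ≤ b := by exact_mod_cast hG.hb
  have hC0 : (0 : ℤ) < C := by exact_mod_cast hG.hC
  have hrange : ∀ w : Word b C, w.1.length ≤ h →
      (0 : ℤ) ≤ num 0 w ∧ num 0 w < 2 * C * (b : ℤ) ^ h := by
    intro w hw
    have h2 := NUM_nonneg w
    have h3 := NUM_lt w
    have h4 : (1 : ℤ) ≤ (b : ℤ) ^ w.1.length := one_le_pow₀ (by linarith)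
    have h5 : (b : ℤ) ^ w.1.length ≤ (b : ℤ) ^ h := pow_le_pow_right₀ (by linarith) hw
    constructor
    · exact h2
    · nlinarith
  have key : ConnN L 0 (2 * C * b ^ h) (num 0 u).toNat (num 0 v).toNat := by
    refine Relation.ReflTransGen.lift (fun w : Word b C => (num 0 w).toNat) ?_ _ _ huv
    rintro a c ⟨ha, hc, t, ht, hs⟩
    obtain ⟨a1, a2⟩ := hrange a ha
    obtain ⟨c1, c2⟩ := hrange c hc
    have ea : (((num 0 a).toNat : ℕ) : ℤ) = num 0 a := Int.toNat_of_nonneg a1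
    have ec : (((num 0 c).toNat : ℕ) : ℤ) = num 0 c := Int.toNat_of_nonneg c1
    refine ⟨Nat.zero_le _, ?_, Nat.zero_le _, ?_, t, ht, ?_⟩
    · zify; rw [ea]; exact a2
    · zify; rw [ec]; exact c2
    · zify
      rw [← BAS_nat (hG.hct t ht), ea, ec]
      exact (hs 0).symm
  have ex : (num 0 u).toNat = x := by rw [← hx]; exact Int.toNat_natCast x
  have ey : (num 0 v).toNat = y := by rw [← hy]; exact Int.toNat_natCast y
  rw [ex, ey] at key
  exact key

end CTD
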