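import Pool.Agent.CTD.Defs
import Pool.Agent.CTD.P_BAS
import Pool.Agent.CTD.P_NUM

set_option autoImplicit false

/-!
Project CTD, job WIN: the window lemma and the decomposition of steps.
-/

namespace CTD


variable {b C : ℕ}

/-- Arithmetic of one branch of `tau`. -/
theorem win_aux (m m' q r' X : ℤ) (hm : 0 < m) (hm' : 0 < m') (hX : 0 ≤ X)
    (hX' : X < m * q) (hr : 0 ≤ r') (hr' : r' < m') :
    0 ≤ r' + X / m * m' ∧ r' + X / m * m' < m' * q ∧
      ∀ k : ℤ, r' + (X + m * q * k) / m * m' = r' + X / m * m' + m' * q * k := by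
  have h0 : 0 ≤ X / m := Int.ediv_nonneg hX hm.le
  have h1 : X / m < q := Int.ediv_lt_of_lt_mul hm (by rw [mul_comm]; exact hX')
  refine ⟨by positivity, ?_, ?_⟩
  · have h2 : X / m * m' ≤ (q - 1) * m' :=
      mul_le_mul_of_nonneg_right (by omega) hm'.le
    nlinarith
  · intro k
    have h3 : (X + m * q * k) / m = X / m + q * k := by
      rw [mul_assoc, Int.add_mul_ediv_left _ _ hm.ne']
    rw [h3]
    ring

/-- One branch of `tau` produces a word. -/
theorem win_word (hb : 2 ≤ b) (hC : 0 < C) (j : ℕ) (m m' q r' X : ℤ) (hm : 0 < m)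
    (hm' : 0 < m') (hX : 0 ≤ X) (hX' : X < m * q) (hr : 0 ≤ r') (hr' : r' < m')
    (hj : m' * q = C * (b : ℤ) ^ j) :
    ∃ v : Word b C, v.1.length = j ∧
      ∀ k : ℤ, r' + (X + m * q * k) / m * m' = num k v := by
  obtain ⟨h1, h2, h3⟩ := win_aux m m' q r' X hm hm' hX hX' hr hr'
  obtain ⟨v, hv, hv'⟩ := NUM_exists hb hC j (r' + X / m * m') h1 (by rw [← hj]; exact h2)
  refine ⟨v, hv, fun k => ?_⟩
  rw [h3 k, NUM_split k v, hv', hv, hj]

theorem win_mod (m q X k : ℤ) : (X + m * q * k) % m = X % m := by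
  rw [mul_assoc, Int.add_mul_emod_self_left]

/-- The window lemma in terms of the quotients. -/
theorem win_core (hb : 2 ≤ b) (hC : 0 < C) {t : Data} (hct : IsCT t) (T j1 j2 : ℕ)
    (q1 q2 : ℤ) (h1 : (C : ℤ) * (b : ℤ) ^ T = t.1.2 * q1)
    (h2 : (C : ℤ) * (b : ℤ) ^ T = t.2.2 * q2)
    (h3 : (t.2.2 : ℤ) * q1 = C * (b : ℤ) ^ j1) (h4 : (t.1.2 : ℤ) * q2 = C * (b : ℤ) ^ j2)
    (hj1 : j1 ≤ 2 * T) (hj2 : j2 ≤ 2 * T) (u : Word b C) (hu : u.1.length = T) :
    ∃ v : Word b C, v.1.length ≤ 2 * T ∧ ∀ k : ℤ, tau t (num k u) = num k v := by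
  obtain ⟨hr1, hr2, -⟩ := hct
  have hm1 : (0 : ℤ) < t.1.2 := by omega
  have hm2 : (0 : ℤ) < t.2.2 := by omega
  have hs : ∀ k : ℤ, num k u = num 0 u + C * (b : ℤ) ^ T * k := by
    intro k
    rw [NUM_split k u, hu]
  have hX0 : 0 ≤ num 0 u := NUM_nonneg u
  have hX1 : num 0 u < C * (b : ℤ) ^ T := by
    have := NUM_lt u
    rwa [hu] at this
  have hmod1 : ∀ k : ℤ, num k u % t.1.2 = num 0 u % t.1.2 := by
    intro k
    rw [hs k, h1, win_mod]
  have hmod2 : ∀ k : ℤ, num k u % t.2.2 = num 0 u % t.2.2 := by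
    intro k
    rw [hs k, h2, win_mod]
  by_cases c1 : num 0 u % (t.1.2 : ℤ) = t.1.1
  · obtain ⟨v, hv, hv'⟩ := win_word hb hC j1 t.1.2 t.2.2 q1 t.2.1 (num 0 u) hm1 hm2 hX0
      (by rw [← h1]; exact hX1) (by omega) (by omega) h3
    refine ⟨v, by omega, fun k => ?_⟩
    have hk : tau t (num k u) = t.2.1 + num k u / t.1.2 * t.2.2 := by
      simp only [tau]
      rw [if_pos (by rw [hmod1 k]; exact c1)]
    rw [hk, ← hv' k, ← h1, ← hs k]
  · by_cases c2 : num 0 u % (t.2.2 : ℤ) = t.2.1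
    · obtain ⟨v, hv, hv'⟩ := win_word hb hC j2 t.2.2 t.1.2 q2 t.1.1 (num 0 u) hm2 hm1 hX0
        (by rw [← h2]; exact hX1) (by omega) (by omega) h4
      refine ⟨v, by omega, fun k => ?_⟩
      have hk : tau t (num k u) = t.1.1 + num k u / t.2.2 * t.1.2 := by
        simp only [tau]
        rw [if_neg (by rw [hmod1 k]; exact c1), if_pos (by rw [hmod2 k]; exact c2)]
      rw [hk, ← hv' k, ← h2, ← hs k]
    · refine ⟨u, by omega, fun k => ?_⟩
      simp only [tau]
      rw [if_neg (by rw [hmod1 k]; exact c1), if_neg (by rw [hmod2 k]; exact c2)]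

/-- Let `X = num 0 u ∈ [0, C b^T)`.  All moduli divide `C b^T`. -/
theorem WIN {L : List Data} {T : ℕ} (hG : Good L b C T) {t : Data} (ht : t ∈ L)
    (u : Word b C) (hu : u.1.length = T) :
    ∃ v : Word b C, v.1.length ≤ 2 * T ∧ ∀ k : ℤ, tau t (num k u) = num k v := by
  rcases hG.hsl t ht with ⟨e, he, hm, q, hq⟩ | ⟨e, he, hm, q, hq⟩
  · obtain ⟨d, rfl⟩ := Nat.exists_eq_add_of_le he
    have hm' : (t.2.2 : ℤ) = t.1.2 * (b : ℤ) ^ e := by rw [hm]; push_cast; ring
    have hq' : (C : ℤ) = t.1.2 * q := by exact_mod_cast hq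
    refine win_core hG.hb hG.hC (hG.hct t ht) (e + d) (e + d + e) d (q * (b : ℤ) ^ (e + d))
      (q * (b : ℤ) ^ d) ?_ ?_ ?_ ?_ (by omega) (by omega) u hu
    · rw [hq']; ring
    · rw [hm', hq']; ring
    · rw [hm', hq']; ring
    · rw [hq']; ring
  · obtain ⟨d, rfl⟩ := Nat.exists_eq_add_of_le he
    have hm' : (t.1.2 : ℤ) = t.2.2 * (b : ℤ) ^ e := by rw [hm]; push_cast; ring
    have hq' : (C : ℤ) = t.2.2 * q := by exact_mod_cast hq
    refine win_core hG.hb hG.hC (hG.hct t ht) (e + d) d (e + d + e) (q * (b : ℤ) ^ d)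
      (q * (b : ℤ) ^ (e + d)) ?_ ?_ ?_ ?_ (by omega) (by omega) u hu
    · rw [hm', hq']; ring
    · rw [hq']; ring
    · rw [hq']; ring
    · rw [hm', hq']; ring

theorem WIN_symm {L : List Data} {T : ℕ} (hG : Good L b C T) {u v : Word b C}
    (h : StepW L u v) : StepW L v u := by
  obtain ⟨t, ht, h⟩ := h
  refine ⟨t, ht, fun k => ?_⟩
  rw [← h k, BAS_invol (hG.hct t ht)]

theorem WIN_pre {L : List Data} {u v : Word b C} (p : List (Fin b)) (h : StepW L u v) :
    StepW L (pre p u) (pre p v) := by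
  obtain ⟨t, ht, h⟩ := h
  refine ⟨t, ht, fun k => ?_⟩
  rw [NUM_pre, NUM_pre, h]

/-- For `|u| ≥ T` write `u = p s` with `|s| = T` and use WIN. -/
theorem WIN_long {L : List Data} {T : ℕ} (hG : Good L b C T) {t : Data} (ht : t ∈ L)
    (u : Word b C) (hu : T ≤ u.1.length) :
    ∃ (p : List (Fin b)) (s s' : Word b C), u = pre p s ∧ s.1.length = T ∧
      s'.1.length ≤ 2 * T ∧ (∀ k : ℤ, tau t (num k s) = num k s') ∧
      ∀ k : ℤ, tau t (num k u) = num k (pre p s') := by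
  have hs : ((u.1.drop (u.1.length - T), u.2) : Word b C).1.length = T := by
    simp only [List.length_drop]
    omega
  obtain ⟨s', hs', h⟩ := WIN hG ht (u.1.drop (u.1.length - T), u.2) hs
  have hu' : u = pre (u.1.take (u.1.length - T)) (u.1.drop (u.1.length - T), u.2) := by
    simp only [pre, List.take_append_drop]
  refine ⟨u.1.take (u.1.length - T), (u.1.drop (u.1.length - T), u.2), s', hu', hs, hs', h,
    fun k => ?_⟩
  rw [NUM_pre, ← h, ← NUM_pre, ← hu']

theorem win_len_pre (p : List (Fin b)) (w : Word b C) :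
    (pre p w).1.length = p.length + w.1.length := by
  simp only [pre, List.length_append]

/-- If `|u| ≥ T`: `u = p s`, `v = p s'` by WIN_long and NUM_inj.  If `|u| < T` take `p = []`;
`|v| ≤ 2 T`, for otherwise WIN_long for `v` (and symmetry) gives `u = p s'` with `|p| > T`. -/
theorem WIN_dec {L : List Data} {T : ℕ} (hG : Good L b C T) {u v : Word b C}
    (h : StepW L u v) :
    ∃ (p : List (Fin b)) (s s' : Word b C), u = pre p s ∧ v = pre p s' ∧
      s.1.length ≤ 2 * T ∧ s'.1.length ≤ 2 * T ∧ StepW L s s' := by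
  obtain ⟨t, ht, h'⟩ := h
  by_cases hu : T ≤ u.1.length
  · obtain ⟨p, s, s', h1, h2, h3, h4, h5⟩ := WIN_long hG ht u hu
    refine ⟨p, s, s', h1, ?_, by omega, h3, ⟨t, ht, h4⟩⟩
    apply NUM_inj hG.hb
    rw [← h' 1, h5 1]
  · refine ⟨[], u, v, rfl, rfl, by omega, ?_, ⟨t, ht, h'⟩⟩
    by_contra hv
    obtain ⟨p, s, s', h1, h2, h3, h4, h5⟩ := WIN_long hG ht v (by omega)
    have h6 : u = pre p s' := by
      apply NUM_inj hG.hb
      rw [← h5 1, ← h' 1, BAS_invol (hG.hct t ht)]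
    have h7 := congrArg (fun w : Word b C => w.1.length) h1
    have h8 := congrArg (fun w : Word b C => w.1.length) h6
    simp only [win_len_pre] at h7 h8
    omega

/-- The lengths differ by at most `2 T`. -/
theorem WIN_len {L : List Data} {T : ℕ} (hG : Good L b C T) {u v : Word b C}
    (h : StepW L u v) : v.1.length ≤ u.1.length + 2 * T := by
  obtain ⟨p, s, s', h1, h2, h3, h4, -⟩ := WIN_dec hG h
  rw [h1, h2, win_len_pre, win_len_pre]
  omega

end CTD
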