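import Pool.Agent.CTD.Defs
import Pool.Agent.CTD.P_NUM
import Pool.Agent.CTD.P_WIN

set_option autoImplicit false

/-!
Project CTD (MP_8d342a_al), job INT: words and orbits on the integers.
-/

namespace CTD

variable {b C : ℕ}

theorem INT_conn {L : List Data} {u v : Word b C} (h : ConnW L u v) (k : ℤ) :
    Conn L (num k u) (num k v) := by
  induction h with
  | refl => exact Relation.ReflTransGen.refl
  | tail _ hs ih =>
    obtain ⟨t, ht, hk⟩ := hs
    exact ih.tail ⟨t, ht, (hk k).symm⟩

theorem int_pre {L : List Data} {u v : Word b C} (p : List (Fin b)) (h : ConnW L u v) :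
    ConnW L (pre p u) (pre p v) := by
  induction h with
  | refl => exact Relation.ReflTransGen.refl
  | tail _ hs ih => exact ih.tail (WIN_pre p hs)

theorem int_pre_length (p : List (Fin b)) (w : Word b C) :
    (pre p w).1.length = p.length + w.1.length := by
  simp [pre]

/-- Iterated extension. -/
def int_seq (z : List (Fin b)) (q : Word b C) : ℕ → Word b C
  | 0 => q
  | i + 1 => pre z (int_seq z q i)

theorem int_seq_length (z : List (Fin b)) (q : Word b C) (i : ℕ) :
    (int_seq z q i).1.length = i * z.length + q.1.length := by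
  induction i with
  | zero => simp [int_seq]
  | succ i ih => rw [int_seq, int_pre_length, ih]; ring

theorem int_seq_step {L : List Data} (z : List (Fin b)) (q : Word b C)
    (h : ConnW L q (pre z q)) (i : ℕ) : ConnW L (int_seq z q i) (int_seq z q (i + 1)) := by
  induction i with
  | zero => exact h
  | succ i ih => exact int_pre z ih

theorem int_seq_conn {L : List Data} (z : List (Fin b)) (q : Word b C)
    (h : ConnW L q (pre z q)) (i : ℕ) : ConnW L q (int_seq z q i) := by
  induction i with
  | zero => exact Relation.ReflTransGen.refl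
  | succ i ih => exact ih.trans (int_seq_step z q h i)

/-- Pumping gives an infinite orbit: `num 1 (z^i q)`, `i = 0, 1, ..`. -/
theorem INT_pump {L : List Data} {T : ℕ} (hG : Good L b C T) (q : Word b C)
    (z : List (Fin b)) (hz : z ≠ []) (h : ConnW L q (pre z q)) :
    ¬ ∀ x : ℤ, {y | Conn L x y}.Finite := by
  intro hfin
  have hf := hfin (num 1 q)
  have hinj : Function.Injective (fun i : ℕ => num 1 (int_seq z q i)) := by
    intro i j hij
    have h1 : int_seq z q i = int_seq z q j := NUM_inj hG.hb hij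
    have h2 := congrArg (fun w : Word b C => w.1.length) h1
    simp only [int_seq_length] at h2
    have h3 : 0 < z.length := List.length_pos_iff.mpr hz
    have h4 : i * z.length = j * z.length := by omega
    exact Nat.eq_of_mul_eq_mul_right h3 h4
  have hsub : Set.range (fun i : ℕ => num 1 (int_seq z q i)) ⊆ {y | Conn L (num 1 q) y} := by
    rintro y ⟨i, rfl⟩
    exact INT_conn (int_seq_conn z q h i) 1
  exact (Set.infinite_range_of_injective hinj) (hf.subset hsub)

theorem int_step {L : List Data} {T : ℕ} (hG : Good L b C T) {t : Data} (ht : t ∈ L)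
    (w : Word b C) (hw : T ≤ w.1.length) :
    ∃ w' : Word b C, StepW L w w' ∧ ∀ k : ℤ, tau t (num k w) = num k w' := by
  obtain ⟨p, s, s', _, _, _, _, h⟩ := WIN_long hG ht w hw
  exact ⟨pre p s', ⟨t, ht, h⟩, h⟩

theorem int_div_mem (n : ℤ) {b : ℕ} (hb : 2 ≤ b) (i : ℕ) :
    n / (b : ℤ) ^ i ∈ Set.Icc (-|n|) |n| := by
  have hb0 : (0 : ℤ) < (b : ℤ) ^ i := by positivity
  have hb1 : (1 : ℤ) ≤ (b : ℤ) ^ i := by omega
  constructor
  · rw [Int.le_ediv_iff_mul_le hb0]
    have h1 : -|n| ≤ n := neg_abs_le n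
    have h2 : 0 ≤ |n| := abs_nonneg n
    nlinarith
  · have h1 : n ≤ |n| := le_abs_self n
    have h2 : 0 ≤ |n| := abs_nonneg n
    have h3 : n / (b : ℤ) ^ i < |n| + 1 := by
      rw [Int.ediv_lt_iff_lt_mul hb0]
      nlinarith
    omega

theorem int_exists (hb : 2 ≤ b) (hC : 0 < C) (j : ℕ) (x : ℤ) :
    ∃ (k : ℤ) (w : Word b C), w.1.length = j ∧ x = num k w := by
  have hpos : (0 : ℤ) < C * (b : ℤ) ^ j := by positivity
  obtain ⟨w, hw, hwx⟩ := NUM_exists hb hC j (x % (C * (b : ℤ) ^ j))
    (Int.emod_nonneg _ hpos.ne') (Int.emod_lt_of_pos _ hpos)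
  refine ⟨x / (C * (b : ℤ) ^ j), w, hw, ?_⟩
  rw [NUM_split, hwx, hw]
  exact (Int.emod_add_mul_ediv x _).symm

/-- If all words connected to words of length `≤ 2T` have length `≤ N`, all orbits are
finite. -/
theorem INT_fin {L : List Data} {T : ℕ} (hG : Good L b C T) (N : ℕ)
    (hN : ∀ u w : Word b C, u.1.length ≤ 2 * T → ConnW L u w → w.1.length ≤ N) :
    ∀ x : ℤ, {y | Conn L x y}.Finite := by
  intro x
  obtain ⟨n, w0, hw0, hx⟩ := int_exists (C := C) hG.hb hG.hC T x
  have hinv : ∀ y, Conn L x y → ∃ (i : ℕ) (u w : Word b C), u.1.length ≤ 2 * T ∧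
      ConnW L u w ∧ y = num (n / (b : ℤ) ^ i) w := by
    intro y hy
    induction hy with
    | refl =>
      refine ⟨0, w0, w0, by omega, Relation.ReflTransGen.refl, ?_⟩
      simpa using hx
    | tail _ hs ih =>
      obtain ⟨i, u, w, hu, huw, hy⟩ := ih
      obtain ⟨t, ht, hty⟩ := hs
      by_cases hw : T ≤ w.1.length
      · obtain ⟨w', hst, hk⟩ := int_step hG ht w hw
        exact ⟨i, u, w', hu, huw.tail hst, by rw [hty, hy, hk]⟩
      · obtain ⟨z, hz, hzk⟩ := NUM_prefix hG.hb (n / (b : ℤ) ^ i) T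
        have hlen : (pre z w).1.length = T + w.1.length := by
          rw [int_pre_length, hz]
        obtain ⟨w', hst, hk⟩ := int_step hG ht (pre z w) (by omega)
        refine ⟨i + T, pre z w, w', by omega, Relation.ReflTransGen.single hst, ?_⟩
        have h1 : n / (b : ℤ) ^ (i + T) = n / (b : ℤ) ^ i / (b : ℤ) ^ T := by
          rw [pow_add]
          exact (Int.ediv_ediv_of_nonneg (by positivity)).symm
        rw [hty, hy, h1, ← hk, NUM_pre, hzk]
  have hfinw : {w : Word b C | w.1.length ≤ 2 * N}.Finite := (NUM_card hG.hb N).1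
  refine ((Set.finite_Icc (-|n|) |n|).image2 (fun k w => num k w) hfinw).subset ?_
  intro y hy
  obtain ⟨i, u, w, hu, huw, hyw⟩ := hinv y hy
  have h1 := hN u w hu huw
  refine ⟨n / (b : ℤ) ^ i, int_div_mem n hG.hb i, w, ?_, hyw.symm⟩
  show w.1.length ≤ 2 * N
  omega

/-- Every connection of integers comes from words (extend by `T` digits when the word gets
shorter than `T`). -/
theorem INT_lift {L : List Data} {T : ℕ} (hG : Good L b C T) {x y : ℤ} (h : Conn L x y) :
    ∃ (k : ℤ) (u v : Word b C), x = num k u ∧ y = num k v ∧ ConnW L u v := by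
  induction h with
  | refl =>
    obtain ⟨k, w, _, hx⟩ := int_exists (C := C) hG.hb hG.hC T x
    exact ⟨k, w, w, hx, hx, Relation.ReflTransGen.refl⟩
  | tail _ hs ih =>
    obtain ⟨k, u, v, hx, hy, huv⟩ := ih
    obtain ⟨t, ht, hty⟩ := hs
    by_cases hv : T ≤ v.1.length
    · obtain ⟨v', hst, hk⟩ := int_step hG ht v hv
      exact ⟨k, u, v', hx, by rw [hty, hy, hk], huv.tail hst⟩
    · obtain ⟨z, hz, hzk⟩ := NUM_prefix hG.hb k T
      have hlen : (pre z v).1.length = T + v.1.length := by
        rw [int_pre_length, hz]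
      obtain ⟨v', hst, hk⟩ := int_step hG ht (pre z v) (by omega)
      refine ⟨k / (b : ℤ) ^ T, pre z u, v', ?_, ?_, (int_pre z huv).tail hst⟩
      · rw [NUM_pre, hzk, hx]
      · rw [hty, hy, ← hk, NUM_pre, hzk]

end CTD
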