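import Pool.Agent.CTD.P_BAS

set_option autoImplicit false

/-!
Project CTD (MP_8d342a_al), job ORB: orbits of the group and steps.
-/

namespace CTD


theorem orb_step_symm {L : List Data} (hL : ∀ t ∈ L, IsCT t) {x y : ℤ} (h : Adj L x y) :
    Adj L y x := by
  obtain ⟨t, ht, rfl⟩ := h
  exact ⟨t, ht, (BAS_invol (hL t ht) x).symm⟩

theorem ORB_symm {L : List Data} (hL : ∀ t ∈ L, IsCT t) {x y : ℤ} (h : Conn L x y) :
    Conn L y x := by
  induction h with
  | refl => exact Relation.ReflTransGen.refl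
  | tail _ hbc ih => exact Relation.ReflTransGen.head (orb_step_symm hL hbc) ih

/-- Every element of the group moves along steps. -/
theorem orb_mem_conn {L : List Data} (hL : ∀ t ∈ L, IsCT t) {g : Equiv.Perm ℤ}
    (hg : g ∈ grp L) : ∀ x, Conn L x (g x) := by
  unfold grp at hg
  induction hg using Subgroup.closure_induction with
  | mem g hg =>
    intro x
    obtain ⟨t, ht, hg⟩ := hg
    exact Relation.ReflTransGen.single ⟨t, ht, (BAS_is (hL t ht) g).1 hg x⟩
  | one => exact fun x => Relation.ReflTransGen.refl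
  | mul g h _ _ ihg ihh => exact fun x => (ihh x).trans (ihg (h x))
  | inv g _ ih =>
    intro x
    have h1 := ih (g⁻¹ x)
    have h2 : g (g⁻¹ x) = x := g.apply_symm_apply x
    rw [h2] at h1
    exact ORB_symm hL h1

/-- `⊇`: each step is the action of a generator. `⊆`: closure induction; all generators are
involutions. -/
theorem ORB_orbit {L : List Data} (hL : ∀ t ∈ L, IsCT t) (x y : ℤ) :
    y ∈ MulAction.orbit (grp L) x ↔ Conn L x y := by
  constructor
  · rintro ⟨g, rfl⟩
    exact orb_mem_conn hL g.2 x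
  · intro h
    induction h with
    | refl => exact MulAction.mem_orbit_self x
    | tail _ hbc ih =>
      obtain ⟨t, ht, rfl⟩ := hbc
      obtain ⟨g, hg⟩ := ih
      obtain ⟨k, hk⟩ := BAS_exists (hL t ht)
      have hkm : k ∈ grp L := Subgroup.subset_closure ⟨t, ht, hk⟩
      refine ⟨⟨k, hkm⟩ * g, ?_⟩
      have h1 : (g : Equiv.Perm ℤ) x = _ := hg
      have h2 := (BAS_is (hL t ht) k).1 hk
      change k ((g : Equiv.Perm ℤ) x) = _
      rw [h1, h2]

theorem ORB_supp {L : List Data} (hL : ∀ t ∈ L, IsCT t) (x : ℤ) :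
    x ∈ supp L ↔ ∃ t ∈ L, x ∈ cls t.1 ∨ x ∈ cls t.2 := by
  constructor
  · rintro ⟨g, hg, hgx⟩
    by_contra hno
    push Not at hno
    have hfix : ∀ t ∈ L, tau t x = x := by
      intro t ht
      by_contra h
      rcases (BAS_move (hL t ht) x).1 h with h | h
      · exact (hno t ht).1 h
      · exact (hno t ht).2 h
    have hc := orb_mem_conn hL hg x
    have hall : ∀ y, Conn L x y → y = x := by
      intro y hy
      induction hy with
      | refl => rfl
      | tail _ hbc ih =>
        subst ih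
        obtain ⟨t, ht, rfl⟩ := hbc
        exact hfix t ht
    exact hgx (hall _ hc)
  · rintro ⟨t, ht, h⟩
    obtain ⟨k, hk⟩ := BAS_exists (hL t ht)
    refine ⟨k, Subgroup.subset_closure ⟨t, ht, hk⟩, ?_⟩
    rw [(BAS_is (hL t ht) k).1 hk x]
    exact (BAS_move (hL t ht) x).2 h

theorem ORB_suppN {L : List Data} (hL : ∀ t ∈ L, IsCT t) (x : ℕ) :
    (x : ℤ) ∈ supp L ↔ suppN L x := by
  rw [ORB_supp hL]
  unfold suppN
  constructor
  · rintro ⟨t, ht, h⟩
    rw [(BAS_cls (hL t ht) x).1, (BAS_cls (hL t ht) x).2] at h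
    exact ⟨t, ht, by exact_mod_cast h⟩
  · rintro ⟨t, ht, h⟩
    refine ⟨t, ht, ?_⟩
    rw [(BAS_cls (hL t ht) x).1, (BAS_cls (hL t ht) x).2]
    exact_mod_cast h

/-- If `x` is in the support and `y` is connected with `x`, then `y` is in the support:
otherwise all steps fix `y`, so `x = y`. -/
theorem ORB_supp_conn {L : List Data} (hL : ∀ t ∈ L, IsCT t) {x y : ℤ} (h : Conn L x y)
    (hx : x ∈ supp L) : y ∈ supp L := by
  by_contra hy
  rw [ORB_supp hL] at hy
  have hfix : ∀ t ∈ L, tau t y = y := by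
    intro t ht
    by_contra h'
    exact hy ⟨t, ht, (BAS_move (hL t ht) y).1 h'⟩
  have h' := ORB_symm hL h
  have hall : ∀ z, Conn L y z → z = y := by
    intro z hz
    induction hz with
    | refl => rfl
    | tail _ hbc ih =>
      subst ih
      obtain ⟨t, ht, rfl⟩ := hbc
      exact hfix t ht
  have hxy : x = y := hall x h'
  rw [hxy, ORB_supp hL] at hx
  exact hy hx

theorem ORB_nonneg {L : List Data} (hL : ∀ t ∈ L, IsCT t) {x y : ℤ} (h : Conn L x y)
    (hx : 0 ≤ x) : 0 ≤ y := by
  induction h with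
  | refl => exact hx
  | tail _ hbc ih =>
    obtain ⟨t, ht, rfl⟩ := hbc
    exact BAS_nonneg (hL t ht) ih

theorem ORB_fin {L : List Data} (hL : ∀ t ∈ L, IsCT t) :
    FinOrb L ↔ ∀ x : ℤ, {y | Conn L x y}.Finite := by
  unfold FinOrb
  refine forall_congr' fun x => ?_
  have : MulAction.orbit (grp L) x = {y | Conn L x y} := by
    ext y
    exact ORB_orbit hL x y
  rw [this]

theorem ORB_trans {L : List Data} (hL : ∀ t ∈ L, IsCT t) :
    Trans L ↔ ∀ x y : ℕ, suppN L x → suppN L y → Conn L x y := by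
  constructor
  · intro h x y hx hy
    exact (ORB_orbit hL _ _).1 (h x y (Int.natCast_nonneg x) (Int.natCast_nonneg y)
      ((ORB_suppN hL x).2 hx) ((ORB_suppN hL y).2 hy))
  · intro h x y hx hy hxs hys
    lift x to ℕ using hx
    lift y to ℕ using hy
    exact (ORB_orbit hL _ _).2 (h x y ((ORB_suppN hL x).1 hxs) ((ORB_suppN hL y).1 hys))

end CTD
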