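import Pool.Agent.CTD.Defs
import Pool.Agent.CTD.P_WIN

set_option autoImplicit false

/-!
Project CTD, job VAL: congruence closure by the function `val`.
-/

namespace CTD

variable {b C : ℕ}

section valdef

variable {K : Type*}

open Classical in
/-- One step of the value function. -/
noncomputable def val_step (T : ℕ) (φ : Word b C → K) (d : Fin b) (x : List (Fin b) × K) :
    List (Fin b) × K :=
  if h : x.1 = [] ∧ ∃ q : Word b C, q.1.length < 2 * T ∧ φ q = x.2 then
    ([], φ (pre [d] h.2.choose)) else (d :: x.1, x.2)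

/-- The value function. -/
noncomputable def val_fn (T : ℕ) (φ : Word b C → K) : List (Fin b) → Fin C → List (Fin b) × K
  | [], s => ([], φ ([], s))
  | d :: l, s => val_step T φ d (val_fn T φ l s)

theorem val_pre_cons (d : Fin b) (p : List (Fin b)) (w : Word b C) :
    pre (d :: p) w = pre [d] (pre p w) := rfl

theorem val_pre_nil (w : Word b C) : pre [] w = w := rfl

theorem val_pre_len (d : Fin b) (w : Word b C) : (pre [d] w).1.length = w.1.length + 1 := by
  simp [pre]

theorem val_fn_pre (T : ℕ) (φ : Word b C → K) (d : Fin b) (w : Word b C) :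
    val_fn T φ (pre [d] w).1 (pre [d] w).2 = val_step T φ d (val_fn T φ w.1 w.2) := rfl

theorem val_step_pos {T : ℕ} {φ : Word b C → K} (d : Fin b) {x : List (Fin b) × K}
    (h : x.1 = [] ∧ ∃ q : Word b C, q.1.length < 2 * T ∧ φ q = x.2) :
    ∃ q : Word b C, q.1.length < 2 * T ∧ φ q = x.2 ∧ val_step T φ d x = ([], φ (pre [d] q)) := by
  refine ⟨h.2.choose, h.2.choose_spec.1, h.2.choose_spec.2, ?_⟩
  unfold val_step
  rw [dif_pos h]

theorem val_step_neg {T : ℕ} {φ : Word b C → K} (d : Fin b) {x : List (Fin b) × K}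
    (h : ¬ (x.1 = [] ∧ ∃ q : Word b C, q.1.length < 2 * T ∧ φ q = x.2)) :
    val_step T φ d x = (d :: x.1, x.2) := by
  unfold val_step
  rw [dif_neg h]

/-- Fact (1). -/
theorem val_short {T : ℕ} {φ : Word b C → K}
    (hcong : ∀ (d : Fin b) (q q' : Word b C), q.1.length < 2 * T → q'.1.length < 2 * T →
      φ q = φ q' → φ (pre [d] q) = φ (pre [d] q')) :
    ∀ (l : List (Fin b)) (s : Fin C), l.length ≤ 2 * T → val_fn T φ l s = ([], φ (l, s)) := by
  intro l s
  induction l with
  | nil => intro _; rfl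
  | cons d l ih =>
    intro hl
    have hl' : l.length < 2 * T := by
      rw [List.length_cons] at hl
      omega
    have h1 := ih hl'.le
    have h2 : (val_fn T φ l s).1 = [] ∧
        ∃ q : Word b C, q.1.length < 2 * T ∧ φ q = (val_fn T φ l s).2 := by
      rw [h1]
      exact ⟨rfl, (l, s), hl', rfl⟩
    obtain ⟨q, hq1, hq2, hq3⟩ := val_step_pos d h2
    change val_step T φ d (val_fn T φ l s) = _
    rw [hq3]
    rw [h1] at hq2
    rw [hcong d q (l, s) hq1 hl' hq2]
    rfl

/-- Adding leading digits respects the value function. -/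
theorem val_pre_congr {T : ℕ} {φ : Word b C → K} {s s' : Word b C}
    (h : val_fn T φ s.1 s.2 = val_fn T φ s'.1 s'.2) (p : List (Fin b)) :
    val_fn T φ (pre p s).1 (pre p s).2 = val_fn T φ (pre p s').1 (pre p s').2 := by
  induction p with
  | nil => exact h
  | cons d p ih =>
    change val_step T φ d (val_fn T φ (pre p s).1 (pre p s).2)
      = val_step T φ d (val_fn T φ (pre p s').1 (pre p s').2)
    rw [ih]

/-- Fact (2). -/
theorem val_conn {L : List Data} {T : ℕ} (hG : Good L b C T) {φ : Word b C → K}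
    (hcong : ∀ (d : Fin b) (q q' : Word b C), q.1.length < 2 * T → q'.1.length < 2 * T →
      φ q = φ q' → φ (pre [d] q) = φ (pre [d] q'))
    (hφ : ∀ u v : Word b C, u.1.length ≤ 2 * T → v.1.length ≤ 2 * T → StepW L u v → φ u = φ v)
    {u v : Word b C} (h : ConnW L u v) : val_fn T φ u.1 u.2 = val_fn T φ v.1 v.2 := by
  induction h with
  | refl => rfl
  | tail _ hs ih =>
    rw [ih]
    obtain ⟨p, s, s', rfl, rfl, h1, h2, h3⟩ := WIN_dec hG hs
    refine val_pre_congr ?_ p
    rw [val_short hcong _ _ h1, val_short hcong _ _ h2]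
    have h4 : φ (s.1, s.2) = φ (s'.1, s'.2) := hφ s s' h1 h2 h3
    rw [h4]

end valdef

theorem val_conn_pre {L : List Data} {u v : Word b C} (p : List (Fin b)) (h : ConnW L u v) :
    ConnW L (pre p u) (pre p v) := by
  induction h with
  | refl => exact Relation.ReflTransGen.refl
  | tail _ hs ih => exact ih.tail (WIN_pre p hs)

theorem val_conn_symm {L : List Data} {T : ℕ} (hG : Good L b C T) {u v : Word b C}
    (h : ConnW L u v) : ConnW L v u := by
  induction h with
  | refl => exact Relation.ReflTransGen.refl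
  | tail _ hs ih => exact Relation.ReflTransGen.head (WIN_symm hG hs) ih

/-- The class of a word. -/
def val_cl (L : List Data) (w : Word b C) : Set (Word b C) := {v | ConnW L w v}

theorem val_cl_conn {L : List Data} {u v : Word b C} (h : val_cl L u = val_cl L v) :
    ConnW L u v := by
  have h1 : v ∈ val_cl L v := Relation.ReflTransGen.refl
  rw [← h] at h1
  exact h1

theorem val_cl_eq {L : List Data} {T : ℕ} (hG : Good L b C T) {u v : Word b C}
    (h : ConnW L u v) : val_cl L u = val_cl L v := by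
  ext w
  exact ⟨fun h1 => (val_conn_symm hG h).trans h1, fun h1 => h.trans h1⟩

theorem val_cl_cong {L : List Data} {T : ℕ} (hG : Good L b C T) (d : Fin b) (q q' : Word b C)
    (h : val_cl L q = val_cl L q') : val_cl L (pre [d] q) = val_cl L (pre [d] q') :=
  val_cl_eq hG (val_conn_pre [d] (val_cl_conn h))

/-- Fact (3). -/
theorem val_rep {L : List Data} (T : ℕ) :
    ∀ (l : List (Fin b)) (s : Fin C), ∃ q : Word b C, q.1.length ≤ 2 * T ∧
      val_cl L q = (val_fn T (val_cl L) l s).2 ∧
      ConnW L (l, s) (pre (val_fn T (val_cl L) l s).1 q) := by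
  intro l s
  induction l with
  | nil => exact ⟨([], s), Nat.zero_le _, rfl, Relation.ReflTransGen.refl⟩
  | cons d l ih =>
    obtain ⟨q', hq1, hq2, hq3⟩ := ih
    by_cases hc : (val_fn T (val_cl L) l s).1 = [] ∧
        ∃ q : Word b C, q.1.length < 2 * T ∧ val_cl L q = (val_fn T (val_cl L) l s).2
    · obtain ⟨q0, h1, h2, h3⟩ := val_step_pos d hc
      refine ⟨pre [d] q0, by rw [val_pre_len]; omega, ?_, ?_⟩
      · change _ = (val_step T (val_cl L) d (val_fn T (val_cl L) l s)).2
        rw [h3]
      · change ConnW L (d :: l, s)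
          (pre (val_step T (val_cl L) d (val_fn T (val_cl L) l s)).1 (pre [d] q0))
        rw [h3]
        change ConnW L (pre [d] (l, s)) (pre [d] q0)
        refine val_conn_pre [d] ?_
        rw [hc.1] at hq3
        exact hq3.trans (val_cl_conn (hq2.trans h2.symm))
    · refine ⟨q', hq1, ?_, ?_⟩
      · change _ = (val_step T (val_cl L) d (val_fn T (val_cl L) l s)).2
        rw [val_step_neg d hc]
        exact hq2
      · change ConnW L (d :: l, s)
          (pre (val_step T (val_cl L) d (val_fn T (val_cl L) l s)).1 q')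
        rw [val_step_neg d hc]
        change ConnW L (pre [d] (l, s)) (pre [d] (pre (val_fn T (val_cl L) l s).1 q'))
        exact val_conn_pre [d] hq3

theorem val_cl_val {L : List Data} {T : ℕ} (hG : Good L b C T) {u v : Word b C}
    (h : ConnW L u v) :
    val_fn T (val_cl L) u.1 u.2 = val_fn T (val_cl L) v.1 v.2 :=
  val_conn hG (fun d q q' _ _ h => val_cl_cong hG d q q' h)
    (fun _ _ _ _ h => val_cl_eq hG (Relation.ReflTransGen.single h)) h

theorem val_cl_short {L : List Data} {T : ℕ} (hG : Good L b C T) (u : Word b C)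
    (hu : u.1.length ≤ 2 * T) : val_fn T (val_cl L) u.1 u.2 = ([], val_cl L u) :=
  val_short (fun d q q' _ _ h => val_cl_cong hG d q q' h) u.1 u.2 hu

/-- Closure lemma. -/
theorem VAL_closure {L : List Data} {T : ℕ} (hG : Good L b C T)
    (E : Word b C → Word b C → Prop)
    (hrefl : ∀ u : Word b C, u.1.length ≤ 2 * T → E u u)
    (hsymm : ∀ u v : Word b C, u.1.length ≤ 2 * T → v.1.length ≤ 2 * T → E u v → E v u)
    (htrans : ∀ u v w : Word b C, u.1.length ≤ 2 * T → v.1.length ≤ 2 * T →
      w.1.length ≤ 2 * T → E u v → E v w → E u w)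
    (hstep : ∀ u v : Word b C, u.1.length ≤ 2 * T → v.1.length ≤ 2 * T → StepW L u v → E u v)
    (hcons : ∀ (d : Fin b) (u v : Word b C), u.1.length < 2 * T → v.1.length < 2 * T →
      E u v → E (pre [d] u) (pre [d] v))
    (u v : Word b C) (hu : u.1.length ≤ 2 * T) (hv : v.1.length ≤ 2 * T)
    (h : ConnW L u v) : E u v := by
  set φ : Word b C → Set (Word b C) := fun w => {v | v.1.length ≤ 2 * T ∧ E w v} with hφ
  have hE : ∀ w w' : Word b C, w.1.length ≤ 2 * T → w'.1.length ≤ 2 * T → φ w = φ w' →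
      E w w' := by
    intro w w' hw hw' h1
    have h2 : w' ∈ φ w' := ⟨hw', hrefl w' hw'⟩
    rw [← h1] at h2
    exact h2.2
  have hE' : ∀ w w' : Word b C, w.1.length ≤ 2 * T → w'.1.length ≤ 2 * T → E w w' →
      φ w = φ w' := by
    intro w w' hw hw' h1
    ext x
    constructor
    · rintro ⟨hx, h2⟩
      exact ⟨hx, htrans w' w x hw' hw hx (hsymm w w' hw hw' h1) h2⟩
    · rintro ⟨hx, h2⟩
      exact ⟨hx, htrans w w' x hw hw' hx h1 h2⟩
  have hcong : ∀ (d : Fin b) (q q' : Word b C), q.1.length < 2 * T → q'.1.length < 2 * T →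
      φ q = φ q' → φ (pre [d] q) = φ (pre [d] q') := by
    intro d q q' hq hq' h1
    refine hE' _ _ (by rw [val_pre_len]; omega) (by rw [val_pre_len]; omega) ?_
    exact hcons d q q' hq hq' (hE q q' hq.le hq'.le h1)
  have h1 := val_conn (T := T) (φ := φ) hG hcong
    (fun u v hu hv hs => hE' u v hu hv (hstep u v hu hv hs)) h
  rw [val_short hcong _ _ hu, val_short hcong _ _ hv] at h1
  exact hE u v hu hv (congrArg Prod.snd h1)

/-- Suffix lemma. -/
theorem VAL_suffix {L : List Data} {T : ℕ} (hG : Good L b C T) (d : Fin b)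
    (w u : Word b C) (hu : u.1.length ≤ 2 * T) (h : ConnW L (pre [d] w) u) :
    ∃ u' : Word b C, u'.1.length ≤ 2 * T ∧ ConnW L w u' := by
  have h1 := val_cl_val hG h
  rw [val_cl_short hG u hu, val_fn_pre] at h1
  obtain ⟨q, hq1, _, hq3⟩ := val_rep (L := L) T w.1 w.2
  refine ⟨q, hq1, ?_⟩
  by_cases hc : (val_fn T (val_cl L) w.1 w.2).1 = [] ∧
      ∃ q : Word b C, q.1.length < 2 * T ∧ val_cl L q = (val_fn T (val_cl L) w.1 w.2).2
  · rw [hc.1] at hq3
    exact hq3
  · rw [val_step_neg d hc] at h1
    exact absurd (congrArg Prod.fst h1) (List.cons_ne_nil _ _)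

/-- Values of words with zeros in front. -/
theorem val_zeros {L : List Data} {T : ℕ} (hG : Good L b C T) (z : Fin b)
    (F : Word b C → Word b C → Prop)
    (htrans : ∀ u v w : Word b C, u.1.length ≤ 2 * T → v.1.length ≤ 2 * T →
      w.1.length ≤ 2 * T → F u v → F v w → F u w)
    (hconn : ∀ u v : Word b C, u.1.length ≤ 2 * T → v.1.length ≤ 2 * T → ConnW L u v → F u v)
    (hzero : ∀ u : Word b C, u.1.length < 2 * T → F u (pre [z] u))
    (u : Word b C) (hu : u.1.length ≤ 2 * T) (i : ℕ) :
    ∃ (j : ℕ) (c : Set (Word b C)),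
      val_fn T (val_cl L) (pre (List.replicate i z) u).1 (pre (List.replicate i z) u).2
        = (List.replicate j z, c) ∧
      ∀ q : Word b C, q.1.length ≤ 2 * T → val_cl L q = c → F u q := by
  induction i with
  | zero =>
    refine ⟨0, val_cl L u, val_cl_short hG u hu, fun q hq h => ?_⟩
    exact hconn u q hu hq (val_cl_conn h.symm)
  | succ i ih =>
    obtain ⟨j, c, h1, h2⟩ := ih
    have e : pre (List.replicate (i + 1) z) u = pre [z] (pre (List.replicate i z) u) := rfl
    rw [e, val_fn_pre, h1]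
    by_cases hc : ((List.replicate j z, c) : List (Fin b) × Set (Word b C)).1 = [] ∧
        ∃ q : Word b C, q.1.length < 2 * T ∧
          val_cl L q = ((List.replicate j z, c) : List (Fin b) × Set (Word b C)).2
    · obtain ⟨q0, hq1, hq2, hq3⟩ := val_step_pos z hc
      refine ⟨0, val_cl L (pre [z] q0), hq3, fun q hq h => ?_⟩
      have hl : (pre [z] q0).1.length ≤ 2 * T := by rw [val_pre_len]; omega
      exact htrans u q0 q hu hq1.le hq (h2 q0 hq1.le hq2)
        (htrans q0 (pre [z] q0) q hq1.le hl hq (hzero q0 hq1)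
          (hconn (pre [z] q0) q hl hq (val_cl_conn h.symm)))
    · exact ⟨j + 1, c, val_step_neg z hc, h2⟩

/-- Zero lemma. -/
theorem VAL_zero {L : List Data} {T : ℕ} (hG : Good L b C T) (z : Fin b)
    (F : Word b C → Word b C → Prop)
    (hsymm : ∀ u v : Word b C, u.1.length ≤ 2 * T → v.1.length ≤ 2 * T → F u v → F v u)
    (htrans : ∀ u v w : Word b C, u.1.length ≤ 2 * T → v.1.length ≤ 2 * T →
      w.1.length ≤ 2 * T → F u v → F v w → F u w)
    (hconn : ∀ u v : Word b C, u.1.length ≤ 2 * T → v.1.length ≤ 2 * T → ConnW L u v → F u v)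
    (hzero : ∀ u : Word b C, u.1.length < 2 * T → F u (pre [z] u))
    (u v : Word b C) (hu : u.1.length ≤ 2 * T) (hv : v.1.length ≤ 2 * T) (i j : ℕ)
    (h : ConnW L (pre (List.replicate i z) u) (pre (List.replicate j z) v)) : F u v := by
  obtain ⟨j1, c1, h1, h2⟩ := val_zeros hG z F htrans hconn hzero u hu i
  obtain ⟨j2, c2, h3, h4⟩ := val_zeros hG z F htrans hconn hzero v hv j
  obtain ⟨q, hq1, hq2, _⟩ := val_rep (L := L) T (pre (List.replicate i z) u).1
    (pre (List.replicate i z) u).2
  have h5 := val_cl_val hG h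
  rw [h1] at hq2
  rw [h1, h3] at h5
  have h6 : c1 = c2 := congrArg Prod.snd h5
  have h7 : val_cl L q = c2 := hq2.trans h6
  exact htrans u q v hu hq1 hv (h2 q hq1 hq2) (hsymm v q hv hq1 (h4 q hq1 h7))

end CTD
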