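import Pool.Agent.CTD.Defs
import Pool.Agent.CTD.P_NUM
import Pool.Agent.CTD.P_WIN
import Pool.Agent.CTD.P_VAL

set_option autoImplicit false

/-!
Project CTD (MP_8d342a_al), job PUM: pumping.
-/

namespace CTD

variable {b C : ℕ}

theorem PUM_symm {L : List Data} {T : ℕ} (hG : Good L b C T) {u v : Word b C}
    (h : ConnW L u v) : ConnW L v u := by
  induction h with
  | refl => exact Relation.ReflTransGen.refl
  | tail _ h2 ih => exact Relation.ReflTransGen.head (WIN_symm hG h2) ih

theorem PUM_pre {L : List Data} {u v : Word b C} (p : List (Fin b)) (h : ConnW L u v) :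
    ConnW L (pre p u) (pre p v) := by
  induction h with
  | refl => exact Relation.ReflTransGen.refl
  | tail _ h2 ih => exact ih.tail (WIN_pre p h2)

/-- All suffixes of `w` are connected to short words. -/
theorem pum_suffix {L : List Data} {T : ℕ} (hG : Good L b C T)
    (u w : Word b C) (hu : u.1.length ≤ 2 * T) (h : ConnW L u w) :
    ∀ j ≤ w.1.length, ∃ q : Word b C, q.1.length ≤ 2 * T ∧ ConnW L (w.1.drop j, w.2) q := by
  intro j
  induction j with
  | zero =>
    intro _
    exact ⟨u, hu, by simpa using PUM_symm hG h⟩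
  | succ j ih =>
    intro hj
    obtain ⟨q, hq, hc⟩ := ih (by omega)
    have hd : w.1.drop j = w.1[j] :: w.1.drop (j + 1) := List.drop_eq_getElem_cons (by omega)
    have e : ((w.1.drop j, w.2) : Word b C) = pre [w.1[j]] (w.1.drop (j + 1), w.2) := by
      unfold pre
      rw [hd]
      rfl
    rw [e] at hc
    exact VAL_suffix hG _ _ q hq hc

theorem PUM_pump {L : List Data} {T : ℕ} (hG : Good L b C T)
    (hno : ∀ (q : Word b C) (z : List (Fin b)), z ≠ [] → ¬ ConnW L q (pre z q))
    (u w : Word b C) (hu : u.1.length ≤ 2 * T) (h : ConnW L u w) :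
    w.1.length ≤ NP b C T := by
  by_contra hlt
  have hs : ∀ j : ℕ, ∃ q : Word b C, j ≤ w.1.length →
      q.1.length ≤ 2 * T ∧ ConnW L (w.1.drop j, w.2) q := by
    intro j
    by_cases hj : j ≤ w.1.length
    · obtain ⟨q, hq⟩ := pum_suffix hG u w hu h j hj
      exact ⟨q, fun _ => hq⟩
    · exact ⟨u, fun h1 => absurd h1 hj⟩
  choose f hf using hs
  have hf1 : ∀ j, j ≤ w.1.length → (f j).1.length ≤ 2 * T := fun j hj => (hf j hj).1
  have hf2 : ∀ j, j ≤ w.1.length → ConnW L (w.1.drop j, w.2) (f j) := fun j hj => (hf j hj).2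
  obtain ⟨hfin, hcard⟩ := NUM_card (b := b) (C := C) hG.hb T
  have hmaps : ∀ j ∈ Finset.range (w.1.length + 1), f j ∈ hfin.toFinset := by
    intro j hj
    rw [Set.Finite.mem_toFinset]
    exact hf1 j (by rw [Finset.mem_range] at hj; omega)
  have hc : hfin.toFinset.card < (Finset.range (w.1.length + 1)).card := by
    rw [Finset.card_range, ← Set.ncard_eq_toFinset_card _ hfin]
    omega
  obtain ⟨i, hi, j, hj, hij, hfe⟩ := Finset.exists_ne_map_eq_of_card_lt_of_maps_to hc hmaps
  rw [Finset.mem_range] at hi hj
  -- the key argument for `i < j`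
  have key : ∀ i j : ℕ, i < j → j ≤ w.1.length → f i = f j → False := by
    intro i j hij hj hfe
    have e1 : ((w.1.drop i, w.2) : Word b C) =
        pre ((w.1.drop i).take (j - i)) (w.1.drop j, w.2) := by
      unfold pre
      have : (w.1.drop i).drop (j - i) = w.1.drop j := by
        rw [List.drop_drop]
        congr 1
        omega
      rw [← this]
      exact Prod.ext (List.take_append_drop (j - i) (w.1.drop i)).symm rfl
    have hz : (w.1.drop i).take (j - i) ≠ [] := by
      intro h0
      have h1 := congrArg List.length h0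
      rw [List.length_take, List.length_drop, List.length_nil] at h1
      omega
    refine hno (f j) _ hz ?_
    have h1 : ConnW L (f j) (w.1.drop i, w.2) := by
      rw [← hfe]
      exact PUM_symm hG (hf2 i (by omega))
    rw [e1] at h1
    exact h1.trans (PUM_pre _ (hf2 j hj))
  rcases lt_or_gt_of_ne hij with h1 | h1
  · exact key i j h1 (by omega) hfe
  · exact key j i h1 (by omega) hfe.symm

end CTD
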