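import Pool.Agent.CTD.Defs
import Pool.Agent.CTD.P_NUM
import Pool.Agent.CTD.P_WIN
import Pool.Agent.CTD.P_VAL

set_option autoImplicit false

/-!
Project CTD (MP_8d342a_al), job STB: stabilisation of an increasing chain of sets, and the
explicit bound for the lengths of the words which are needed.
-/

namespace CTD


variable {b C : ℕ}

/-- General stabilisation lemma. -/
theorem STB_general {α : Type*} (S : ℕ → Set α) (U : Set α) (hU : U.Finite)
    (hS : ∀ n, S n ⊆ U) (hmono : ∀ n, S n ⊆ S (n + 1)) :
    ∃ n ≤ U.ncard, S n = S (n + 1) := by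
  by_contra hcon
  push Not at hcon
  have key : ∀ n, n ≤ U.ncard + 1 → n ≤ (S n).ncard := by
    intro n
    induction n with
    | zero => intro _; exact Nat.zero_le _
    | succ n ih =>
      intro hn
      have h1 := ih (by omega)
      have h2 : S n ⊂ S (n + 1) := (hmono n).ssubset_of_ne (hcon n (by omega))
      have h3 := Set.ncard_lt_ncard h2 (hU.subset (hS (n + 1)))
      omega
  have h4 := key (U.ncard + 1) le_rfl
  have h5 := Set.ncard_le_ncard (hS (U.ncard + 1)) hU
  omega

/-- Larger length bounds give more connections. -/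
theorem stb_mono {L : List Data} {h h' : ℕ} (hh : h ≤ h') {u v : Word b C}
    (huv : ConnH L h u v) : ConnH L h' u v := by
  unfold ConnH at huv ⊢
  induction huv with
  | refl => exact Relation.ReflTransGen.refl
  | tail _ hbc ih =>
    exact Relation.ReflTransGen.tail ih ⟨hbc.1.trans hh, hbc.2.1.trans hh, hbc.2.2⟩

/-- Connections with bounded lengths are symmetric. -/
theorem stb_symm {L : List Data} {T h : ℕ} (hG : Good L b C T) {u v : Word b C}
    (huv : ConnH L h u v) : ConnH L h v u := by
  unfold ConnH at huv ⊢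
  induction huv with
  | refl => exact Relation.ReflTransGen.refl
  | tail _ hbc ih =>
    exact Relation.ReflTransGen.head ⟨hbc.2.1, hbc.1, WIN_symm hG hbc.2.2⟩ ih

/-- One more digit in front. -/
theorem stb_cons {L : List Data} {h : ℕ} (d : Fin b) {u v : Word b C}
    (huv : ConnH L h u v) : ConnH L (h + 1) (pre [d] u) (pre [d] v) := by
  unfold ConnH at huv ⊢
  induction huv with
  | refl => exact Relation.ReflTransGen.refl
  | tail _ hbc ih =>
    refine Relation.ReflTransGen.tail ih ⟨?_, ?_, WIN_pre [d] hbc.2.2⟩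
    · have := hbc.1
      simp only [pre, List.cons_append, List.nil_append, List.length_cons]
      omega
    · have := hbc.2.1
      simp only [pre, List.cons_append, List.nil_append, List.length_cons]
      omega

/-- `E_h = {(u,v) : |u|, |v| ≤ 2T, ConnH L h u v}`, `h ≥ 2T`, lies in a set with at most
`NP^2` elements, so `E_h = E_(h+1)` for some `2T ≤ h ≤ HH`.  This `E_h` satisfies the
hypotheses of VAL_closure (`E_h u v → E_(h+1) (d u) (d v)` by WIN_pre). -/
theorem STB_bound {L : List Data} {T : ℕ} (hG : Good L b C T) (u v : Word b C)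
    (hu : u.1.length ≤ 2 * T) (hv : v.1.length ≤ 2 * T) (h : ConnW L u v) :
    ConnH L (HH b C T) u v := by
  obtain ⟨hfin, hcard⟩ := NUM_card (b := b) (C := C) hG.hb T
  set W : Set (Word b C) := {w : Word b C | w.1.length ≤ 2 * T} with hW
  obtain ⟨n, hn, hSn⟩ := STB_general
    (fun n : ℕ => {p : Word b C × Word b C |
      p.1.1.length ≤ 2 * T ∧ p.2.1.length ≤ 2 * T ∧ ConnH L (2 * T + n) p.1 p.2})
    (W ×ˢ W) (hfin.prod hfin) (fun n p hp => ⟨hp.1, hp.2.1⟩)
    (fun n p hp => ⟨hp.1, hp.2.1, stb_mono (by omega) hp.2.2⟩)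
  have hn2 : n ≤ NP b C T ^ 2 := by
    rw [Set.ncard_prod] at hn
    calc n ≤ W.ncard * W.ncard := hn
      _ ≤ NP b C T * NP b C T := Nat.mul_le_mul hcard hcard
      _ = NP b C T ^ 2 := (sq _).symm
  refine stb_mono (h := 2 * T + n) (by unfold HH; omega) ?_
  refine VAL_closure hG (fun u v => ConnH L (2 * T + n) u v)
    (fun u _ => Relation.ReflTransGen.refl) (fun u v _ _ huv => stb_symm hG huv)
    (fun u v w _ _ _ huv hvw => Relation.ReflTransGen.trans huv hvw)
    (fun u v hu hv huv => Relation.ReflTransGen.single ⟨by omega, by omega, huv⟩)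
    ?_ u v hu hv h
  intro d u v hu hv huv
  have hmem : ((pre [d] u, pre [d] v) : Word b C × Word b C) ∈
      {p : Word b C × Word b C |
        p.1.1.length ≤ 2 * T ∧ p.2.1.length ≤ 2 * T ∧ ConnH L (2 * T + (n + 1)) p.1 p.2} := by
    refine ⟨?_, ?_, stb_mono (by omega) (stb_cons d huv)⟩
    · simp only [pre, List.cons_append, List.nil_append, List.length_cons]
      omega
    · simp only [pre, List.cons_append, List.nil_append, List.length_cons]
      omega
  have hmem2 := (Set.ext_iff.mp hSn (pre [d] u, pre [d] v)).mpr hmem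
  exact hmem2.2.2

end CTD
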