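import Pool.Agent.CTD.P_BAS
import Pool.Agent.CTD.P_ORB
import Pool.Agent.CTD.P_NUM
import Pool.Agent.CTD.P_WIN
import Pool.Agent.CTD.P_VAL
import Pool.Agent.CTD.P_PUM
import Pool.Agent.CTD.P_STB
import Pool.Agent.CTD.P_COD
import Pool.Agent.CTD.P_INT

set_option autoImplicit false

/-!
Project CTD (problem MP_8d342a_al), job TWO: the second criterion.
-/

namespace CTD

variable {b C : ℕ}

/-- All moduli divide `C b^T`. -/
theorem two_dvd {L : List Data} {T : ℕ} (hG : Good L b C T) {t : Data} (ht : t ∈ L) :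
    t.1.2 ∣ C * b ^ T ∧ t.2.2 ∣ C * b ^ T := by
  rcases hG.hsl t ht with ⟨e, he, h1, h2⟩ | ⟨e, he, h1, h2⟩
  · refine ⟨Dvd.dvd.mul_right h2 _, ?_⟩
    rw [h1]
    exact Nat.mul_dvd_mul h2 (pow_dvd_pow b he)
  · refine ⟨?_, Dvd.dvd.mul_right h2 _⟩
    rw [h1]
    exact Nat.mul_dvd_mul h2 (pow_dvd_pow b he)

/-- The support is periodic with period `C b^T`. -/
theorem two_supp_mod {L : List Data} {T : ℕ} (hG : Good L b C T) {x y : ℕ}
    (h : x % (C * b ^ T) = y % (C * b ^ T)) (hx : suppN L x) : suppN L y := by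
  obtain ⟨t, ht, h'⟩ := hx
  obtain ⟨h1, h2⟩ := two_dvd hG ht
  refine ⟨t, ht, ?_⟩
  have e1 : x % t.1.2 = y % t.1.2 := by
    rw [← Nat.mod_mod_of_dvd x h1, h, Nat.mod_mod_of_dvd y h1]
  have e2 : x % t.2.2 = y % t.2.2 := by
    rw [← Nat.mod_mod_of_dvd x h2, h, Nat.mod_mod_of_dvd y h2]
  rw [e1, e2] at h'
  exact h'

/-- Steps of natural numbers are steps of integers. -/
theorem two_connN {L : List Data} {T : ℕ} (hG : Good L b C T) {lo hi x y : ℕ}
    (h : ConnN L lo hi x y) : Conn L (x : ℤ) (y : ℤ) := by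
  induction h with
  | refl => exact Relation.ReflTransGen.refl
  | tail _ h2 ih =>
    obtain ⟨_, _, _, _, t, ht, he⟩ := h2
    refine ih.tail ⟨t, ht, ?_⟩
    rw [BAS_nat (hG.hct t ht), he]

/-- Connections in intervals are symmetric. -/
theorem two_connN_symm {L : List Data} {T : ℕ} (hG : Good L b C T) {lo hi x y : ℕ}
    (h : ConnN L lo hi x y) : ConnN L lo hi y x := by
  induction h with
  | refl => exact Relation.ReflTransGen.refl
  | @tail y z _ h2 ih =>
    refine Relation.ReflTransGen.head ?_ ih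
    obtain ⟨a1, a2, a3, a4, t, ht, he⟩ := h2
    refine ⟨a3, a4, a1, a2, t, ht, ?_⟩
    have h3 := BAS_invol (hG.hct t ht) (y : ℤ)
    rw [BAS_nat (hG.hct t ht), ← he, BAS_nat (hG.hct t ht)] at h3
    exact_mod_cast h3.symm

theorem two_connH {L : List Data} {h : ℕ} {u v : Word b C} (huv : ConnH L h u v) :
    ConnW L u v := by
  induction huv with
  | refl => exact Relation.ReflTransGen.refl
  | tail _ h2 ih => exact ih.tail h2.2.2

theorem two_base {L : List Data} {T : ℕ} (hG : Good L b C T) (j : ℕ) : 0 < C * b ^ j :=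
  Nat.mul_pos hG.hC (pow_pos (by have := hG.hb; omega) j)

/-- The word of a number of the form `C b^j + Y`. -/
theorem two_word {L : List Data} {T : ℕ} (hG : Good L b C T) (j Y : ℕ) (hY : Y < C * b ^ j) :
    ∃ w : Word b C, w.1.length = j ∧ num 0 w = Y ∧ ((C * b ^ j + Y : ℕ) : ℤ) = num 1 w := by
  obtain ⟨w, h1, h2⟩ := NUM_exists (C := C) hG.hb hG.hC j (Y : ℤ) (by positivity)
    (by exact_mod_cast hY)
  refine ⟨w, h1, h2, ?_⟩
  rw [NUM_split 1 w, h2, h1]
  push_cast
  ring

theorem two_reduce {L : List Data} {T : ℕ} (hG : Good L b C T)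
    (h : ∀ X < C * b ^ T, suppN L X → ∃ j < T, ∃ Y < C * b ^ j,
      ConnN L C (hi2 b C T) (C * b ^ T + X) (C * b ^ j + Y)) (x : ℕ) (hx : suppN L x) :
    ∃ x' < C * b ^ T, suppN L x' ∧ Conn L (x : ℤ) (x' : ℤ) := by
  induction x using Nat.strong_induction_on with
  | _ x ih =>
    have hB := two_base hG T
    obtain ⟨B, hBe⟩ : ∃ B, B = C * b ^ T := ⟨_, rfl⟩
    rw [← hBe] at hB
    rcases Nat.lt_or_ge x B with hlt | hge
    · exact ⟨x, hBe ▸ hlt, hx, Relation.ReflTransGen.refl⟩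
    have hXlt : x % B < B := Nat.mod_lt _ hB
    have hXs : suppN L (x % B) := by
      refine two_supp_mod hG ?_ hx
      rw [← hBe, Nat.mod_mod]
    obtain ⟨j, hj, Y, hY, hc⟩ := h (x % B) (hBe ▸ hXlt) hXs
    obtain ⟨w, hw1, hw2, hw3⟩ := two_word hG T (x % B) (hBe ▸ hXlt)
    obtain ⟨v, hv1, hv2⟩ := COD_conn hG (HH b C T) _ _ hc w hw3 (by
      rw [hw1]; unfold HH; omega)
    obtain ⟨w', hw1', hw2', hw3'⟩ := two_word hG j Y hY
    have hvw : v = w' := NUM_inj hG.hb (hv1.symm.trans hw3')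
    subst hvw
    obtain ⟨k, hk⟩ : ∃ k, k = x / B := ⟨_, rfl⟩
    have hk1 : 1 ≤ k := by
      rw [hk]
      exact Nat.div_pos hge hB
    have hxk : x % B + B * k = x := by
      rw [hk]
      exact Nat.mod_add_div x B
    have hconn := INT_conn (two_connH hv2) (k : ℤ)
    have e1 : num (k : ℤ) w = (x : ℤ) := by
      rw [NUM_split (k : ℤ) w, hw2, hw1]
      have : ((x % B + B * k : ℕ) : ℤ) = (x : ℤ) := by rw [hxk]
      rw [← this, hBe]
      push_cast
      ring
    have e2 : num (k : ℤ) v = ((Y + C * b ^ j * k : ℕ) : ℤ) := by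
      rw [NUM_split (k : ℤ) v, hw2', hw1']
      push_cast
      ring
    rw [e1, e2] at hconn
    have hlt : Y + C * b ^ j * k < x := by
      have hb := hG.hb
      have h1 : C * b ^ j ≤ C * b ^ (T - 1) :=
        Nat.mul_le_mul_left _ (Nat.pow_le_pow_right (by omega) (by omega))
      have h2 : B = C * b ^ (T - 1) * b := by
        rw [hBe, mul_assoc, ← pow_succ]
        congr 2
        have := hG.hT
        omega
      have h3 : C * b ^ (T - 1) * 2 ≤ B := by
        rw [h2]
        exact Nat.mul_le_mul_left _ hb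
      obtain ⟨D, hD⟩ : ∃ D, D = C * b ^ j := ⟨_, rfl⟩
      rw [← hD] at hY h1 ⊢
      have h4 : D * 2 ≤ B := le_trans (Nat.mul_le_mul_right _ h1) h3
      have h5 : D * 2 * k ≤ B * k := Nat.mul_le_mul_right _ h4
      have h6 : D * 1 ≤ D * k := Nat.mul_le_mul_left _ hk1
      have h7 : B * k ≤ x :=
        calc B * k ≤ x % B + B * k := Nat.le_add_left _ _
          _ = x := hxk
      have h8 : D * 2 * k = D * k + D * k := by ring
      omega
    have hs : suppN L (Y + C * b ^ j * k) := by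
      rw [← ORB_suppN hG.hct]
      exact ORB_supp_conn hG.hct hconn ((ORB_suppN hG.hct x).2 hx)
    obtain ⟨x', h1, h2, h3⟩ := ih _ hlt hs
    exact ⟨x', h1, h2, hconn.trans h3⟩

theorem TWO_suff {L : List Data} {T : ℕ} (hG : Good L b C T) (h : crit2 L b C T) :
    Trans L := by
  rw [ORB_trans hG.hct]
  intro x y hx hy
  obtain ⟨x', a1, a2, a3⟩ := two_reduce hG h.1 x hx
  obtain ⟨y', b1, b2, b3⟩ := two_reduce hG h.1 y hy
  exact (a3.trans (two_connN hG (h.2 x' a1 y' b1 a2 b2))).trans (ORB_symm hG.hct b3)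

theorem TWO_a {L : List Data} {T : ℕ} (hG : Good L b C T) (h : Trans L) :
    ∀ X < C * b ^ T, suppN L X → ∃ j < T, ∃ Y < C * b ^ j,
      ConnN L C (hi2 b C T) (C * b ^ T + X) (C * b ^ j + Y) := by
  intro X hX hs
  obtain ⟨w, hw1, hw2, hw3⟩ := two_word hG T X hX
  by_cases hq : ∃ q : Word b C, q.1.length < T ∧ ConnW L w q
  · obtain ⟨q, hq1, hq2⟩ := hq
    have h0 : 0 ≤ num 0 q := NUM_nonneg q
    have h1 : num 0 q < C * (b : ℤ) ^ q.1.length := NUM_lt q
    obtain ⟨Y, hY⟩ := Int.eq_ofNat_of_zero_le h0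
    have hY' : Y < C * b ^ q.1.length := by
      rw [hY] at h1
      exact_mod_cast h1
    refine ⟨q.1.length, hq1, Y, hY', ?_⟩
    have hH := STB_bound hG w q (by omega) (by omega) hq2
    refine COD_one hG (HH b C T) w q hH _ _ hw3 ?_
    rw [NUM_split 1 q, hY]
    push_cast
    ring
  · exfalso
    have key : ∀ y : ℤ, Conn L (num 1 w) y →
        ∃ v : Word b C, y = num 1 v ∧ ConnW L w v ∧ T ≤ v.1.length := by
      intro y hy
      induction hy with
      | refl => exact ⟨w, rfl, Relation.ReflTransGen.refl, hw1.ge⟩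
      | tail _ h2 ih =>
        obtain ⟨v, hv1, hv2, hv3⟩ := ih
        obtain ⟨t, ht, he⟩ := h2
        obtain ⟨p, s, s', _, _, _, _, h5⟩ := WIN_long hG ht v hv3
        have hc : ConnW L w (pre p s') := hv2.tail ⟨t, ht, h5⟩
        refine ⟨pre p s', ?_, hc, ?_⟩
        · rw [he, hv1, h5]
        · by_contra hlt
          exact hq ⟨pre p s', by omega, hc⟩
    have hs' : suppN L (C * b ^ T + X) := by
      refine two_supp_mod hG ?_ hs
      rw [Nat.add_mod_left]
    have hc := (ORB_trans hG.hct).1 h _ _ hs' hs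
    rw [hw3] at hc
    obtain ⟨v, hv1, _, hv3⟩ := key _ hc
    rw [NUM_split 1 v] at hv1
    have h0 : 0 ≤ num 0 v := NUM_nonneg v
    have h1 : ((C * b ^ T : ℕ) : ℤ) ≤ ((C * b ^ v.1.length : ℕ) : ℤ) := by
      exact_mod_cast Nat.mul_le_mul_left _
        (Nat.pow_le_pow_right (by have := hG.hb; omega) hv3)
    have h2 : (X : ℤ) < ((C * b ^ T : ℕ) : ℤ) := by exact_mod_cast hX
    push_cast at h1 h2
    linarith

theorem two_dig_zero (hb : 0 < b) (i : ℕ) :
    dig 0 (List.replicate i (⟨0, hb⟩ : Fin b)) = 0 := by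
  induction i with
  | zero => rfl
  | succ i ih =>
    rw [List.replicate_succ]
    unfold dig at *
    simpa using ih

theorem two_pad (hb : 0 < b) (i : ℕ) (w : Word b C) :
    num 0 (pre (List.replicate i (⟨0, hb⟩ : Fin b)) w) = num 0 w := by
  rw [NUM_pre, two_dig_zero hb]

/-- A word with value `x`, longer than `T` digits, is the short word with zeros in front. -/
theorem two_zeros {T : ℕ} (hb : 2 ≤ b) (hb0 : 0 < b) {U w : Word b C} (hw : w.1.length = T)
    (hU : T ≤ U.1.length) (h : num 0 U = num 0 w) :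
    U = pre (List.replicate (U.1.length - T) (⟨0, hb0⟩ : Fin b)) w := by
  refine NUM_inj_len hb (k := 0) ?_ ?_
  · unfold pre
    rw [List.length_append, List.length_replicate, hw]
    omega
  · rw [two_pad hb0, h]

theorem TWO_b {L : List Data} {T : ℕ} (hG : Good L b C T) (x y : ℕ)
    (hx : x < C * b ^ T) (hy : y < C * b ^ T) (h : Conn L x y) :
    ConnN L 0 (hi2 b C T) x y := by
  have hb := hG.hb
  have hb0 : 0 < b := by omega
  obtain ⟨wx, hx1, hx2, -⟩ := two_word hG T x hx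
  obtain ⟨wy, hy1, hy2, -⟩ := two_word hG T y hy
  obtain ⟨k, u, v, hu, hv, huv⟩ := INT_lift hG h
  have hk : 0 ≤ k := by
    by_contra hk
    have h1 := NUM_lt u
    have h2 := NUM_split k u
    have h3 : (0 : ℤ) < C * (b : ℤ) ^ u.1.length := by
      have := two_base hG u.1.length
      exact_mod_cast this
    have h4 : (0 : ℤ) ≤ num k u := by
      rw [← hu]
      positivity
    nlinarith
  obtain ⟨i, hi⟩ : ∃ i : ℕ, k < (b : ℤ) ^ i := by
    obtain ⟨n, rfl⟩ := Int.eq_ofNat_of_zero_le hk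
    exact ⟨n, by exact_mod_cast Nat.lt_pow_self (by omega : 1 < b)⟩
  obtain ⟨z, _, hz2⟩ := NUM_prefix hb k i
  rw [Int.ediv_eq_zero_of_lt hk hi] at hz2
  have hval : ∀ w : Word b C,
      num 0 (pre (List.replicate T (⟨0, hb0⟩ : Fin b)) (pre z w)) = num k w := by
    intro w
    rw [two_pad hb0, NUM_pre, hz2]
  have hlen : ∀ w : Word b C,
      T ≤ (pre (List.replicate T (⟨0, hb0⟩ : Fin b)) (pre z w)).1.length := by
    intro w
    unfold pre
    rw [List.length_append, List.length_replicate]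
    omega
  have hU := two_zeros hb hb0 hx1 (hlen u) (by rw [hval, ← hu, hx2])
  have hV := two_zeros hb hb0 hy1 (hlen v) (by rw [hval, ← hv, hy2])
  have hc := PUM_pre (List.replicate T (⟨0, hb0⟩ : Fin b)) (PUM_pre z huv)
  rw [hU, hV] at hc
  have hfin := VAL_zero hG (⟨0, hb0⟩ : Fin b)
    (fun u v => ConnN L 0 (hi2 b C T) (num 0 u).toNat (num 0 v).toNat)
    (fun u v _ _ h => two_connN_symm hG h)
    (fun u v w _ _ _ h1 h2 => h1.trans h2)
    (fun u v hu hv h => COD_zero hG (HH b C T) u v (STB_bound hG u v hu hv h) _ _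
      (Int.toNat_of_nonneg (NUM_nonneg u)) (Int.toNat_of_nonneg (NUM_nonneg v)))
    (fun u _ => by
      have := two_pad hb0 1 u
      rw [List.replicate_one] at this
      simp only [this]
      exact Relation.ReflTransGen.refl)
    wx wy (by omega) (by omega) _ _ hc
  simp only [hx2, hy2, Int.toNat_natCast] at hfin
  exact hfin

end CTD
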