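import Pool.Agent.CTD.P_ONE
import Pool.Agent.CTD.P_TWO
import Pool.Agent.CTD.P_FAM
import Pool.Agent.CTD.P_PRC

set_option autoImplicit false

/-!
Assembly: the power slope family.
-/

namespace CTD

theorem fin_fam : PrimrecPred (fun L : List Data => InFam L) := by
  have h : PrimrecPred (fun L : List Data => ∃ b < bnd L, FamB L b) :=
    prc_ex PRI_bnd PRI_fam
  exact h.of_eq fun L => (FAM_iff L).symm

theorem fin_one : PrimrecPred (fun L : List Data => InFam L ∧ FinOrb L) := by
  obtain ⟨P, hP, hPc⟩ := PRC_one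
  have h : PrimrecPred (fun L : List Data => ∃ b < bnd L, FamB L b ∧
      P (L, b, mulC L, bnd L)) := by
    refine prc_ex PRI_bnd (PRI_fam.and ?_)
    exact hP.comp (Primrec.fst.pair (Primrec.snd.pair
      ((PRI_mulC.comp Primrec.fst).pair (PRI_bnd.comp Primrec.fst))))
  refine h.of_eq fun L => ?_
  constructor
  · rintro ⟨b, hb, hF, hp⟩
    have hG := FAM_good L b hF
    refine ⟨(FAM_iff L).mpr ⟨b, hb, hF⟩, ?_⟩
    rw [ONE hG]
    exact (hPc L b _ _ hG.hb hG.hC hG.hT).mp hp
  · rintro ⟨hin, hfin⟩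
    obtain ⟨b, hb, hF⟩ := (FAM_iff L).mp hin
    have hG := FAM_good L b hF
    exact ⟨b, hb, hF, (hPc L b _ _ hG.hb hG.hC hG.hT).mpr ((ONE hG).mp hfin)⟩

theorem fin_two : PrimrecPred (fun L : List Data => InFam L ∧ Trans L) := by
  obtain ⟨P, hP, hPc⟩ := PRC_two
  have h : PrimrecPred (fun L : List Data => ∃ b < bnd L, FamB L b ∧
      P (L, b, mulC L, bnd L)) := by
    refine prc_ex PRI_bnd (PRI_fam.and ?_)
    exact hP.comp (Primrec.fst.pair (Primrec.snd.pair
      ((PRI_mulC.comp Primrec.fst).pair (PRI_bnd.comp Primrec.fst))))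
  refine h.of_eq fun L => ?_
  constructor
  · rintro ⟨b, hb, hF, hp⟩
    have hG := FAM_good L b hF
    refine ⟨(FAM_iff L).mpr ⟨b, hb, hF⟩, ?_⟩
    exact TWO_suff hG ((hPc L b _ _ hG.hb hG.hC hG.hT).mp hp)
  · rintro ⟨hin, htr⟩
    obtain ⟨b, hb, hF⟩ := (FAM_iff L).mp hin
    have hG := FAM_good L b hF
    refine ⟨b, hb, hF, (hPc L b _ _ hG.hb hG.hC hG.hT).mpr ⟨TWO_a hG htr, ?_⟩⟩
    intro x hx y hy sx sy
    exact TWO_b hG x y hx hy ((ORB_trans hG.hct).mp htr x y sx sy)

/-- From two primitive recursive predicates to one algorithm with three answers. -/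
theorem option_alg {F Q : List Data → Prop} (hF : PrimrecPred F)
    (hQ : PrimrecPred (fun L => F L ∧ Q L)) :
    ∃ f : List Data → Option Bool, Computable f ∧ ∀ L : List Data,
      (F L ∧ Q L ∧ f L = some true) ∨ (F L ∧ ¬ Q L ∧ f L = some false) ∨
        (¬ F L ∧ f L = none) := by
  classical
  refine ⟨fun L => if F L ∧ Q L then some true else if F L then some false else none, ?_, ?_⟩
  · exact (Primrec.ite hQ (Primrec.const _)
      (Primrec.ite hF (Primrec.const _) (Primrec.const _))).to_comp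
  · intro L
    by_cases h1 : F L
    · by_cases h2 : Q L
      · left; exact ⟨h1, h2, by simp [h1, h2]⟩
      · right; left; exact ⟨h1, h2, by simp [h1, h2]⟩
    · right; right; exact ⟨h1, by simp [h1]⟩

end CTD
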