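import Pool.Agent.CTD.TwoI
import Pool.Agent.CTD.FinB

set_option autoImplicit false

/-!
Assembly: two class transpositions.
-/

namespace CTD

theorem two_perm {t₁ t₂ : Data} (h1 : IsCT t₁) (h2 : IsCT t₂) {g₁ g₂ : Equiv.Perm ℤ}
    (i1 : Is t₁ g₁) (i2 : Is t₂ g₂) :
    ¬ FinOrb [t₁, t₂] ↔ (Expands ((g₁ * g₂) ^ 2) ∨ Expands (((g₁ * g₂) ^ 2)⁻¹)) := by
  have e1 := (BAS_is h1 g₁).mp i1
  have e2 := (BAS_is h2 g₂).mp i2
  have j1 : g₁⁻¹ = g₁ := by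
    apply inv_eq_of_mul_eq_one_right
    ext z; rw [Equiv.Perm.mul_apply, e1, e1, tau_tau h1]; rfl
  have j2 : g₂⁻¹ = g₂ := by
    apply inv_eq_of_mul_eq_one_right
    ext z; rw [Equiv.Perm.mul_apply, e2, e2, tau_tau h2]; rfl
  have k1 : ∀ x, ((g₁ * g₂) ^ 2) x = four t₂ t₁ x := by
    intro x
    rw [pow_two]
    simp only [Equiv.Perm.mul_apply, e1, e2]
    rfl
  have k2 : ∀ x, (((g₁ * g₂) ^ 2)⁻¹) x = four t₁ t₂ x := by
    intro x
    rw [pow_two, mul_inv_rev, mul_inv_rev, j1, j2]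
    simp only [Equiv.Perm.mul_apply, e1, e2]
    rfl
  have E : ∀ (g : Equiv.Perm ℤ) (F : ℤ → ℤ), (∀ x, g x = F x) → (Expands g ↔ ExpZ F) := by
    intro g F hgF
    unfold Expands ExpZ
    simp only [hgF]
  rw [two_iff' h1 h2, E _ _ k1, E _ _ k2]
  exact or_comm

end CTD
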