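import Pool.Agent.CTD.FinA

set_option autoImplicit false

/-!
The structure of infinite orbits in the power slope family.
-/

namespace CTD

variable {b C : ℕ}

/-- A connection of words is realised by one element of the group, for all prefixes. -/
theorem conn_elem {L : List Data} (hL : ∀ t ∈ L, IsCT t) {u v : Word b C}
    (h : ConnW L u v) : ∃ g ∈ grp L, ∀ k : ℤ, g (num k u) = num k v := by
  induction h with
  | refl => exact ⟨1, Subgroup.one_mem _, fun k => rfl⟩
  | tail _ hs ih =>
    obtain ⟨g, hg, hgk⟩ := ih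
    obtain ⟨t, ht, htk⟩ := hs
    obtain ⟨g', hg'⟩ := BAS_exists (hL t ht)
    refine ⟨g' * g, Subgroup.mul_mem _ (Subgroup.subset_closure ⟨t, ht, hg'⟩) hg, fun k => ?_⟩
    rw [Equiv.Perm.mul_apply, hgk, (BAS_is (hL t ht) g').mp hg', htk]

/-- The group has an infinite orbit iff one of its elements expands a residue class. -/
theorem fam_expand {L : List Data} (h : InFam L) :
    ¬ FinOrb L ↔ ∃ g ∈ grp L, Expands g := by
  obtain ⟨b, _, hF⟩ := (FAM_iff L).mp h
  have hG := FAM_good L b hF
  have hL := hG.hct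
  have hbZ : (2 : ℤ) ≤ b := by exact_mod_cast hG.hb
  constructor
  · intro hnf
    by_contra hcon
    apply hnf
    rw [ORB_fin hL]
    refine INT_fin hG (NP b (mulC L) (bnd L)) (PUM_pump hG ?_)
    intro q z hz hq
    apply hcon
    obtain ⟨g, hg, hgk⟩ := conn_elem hL hq
    refine ⟨g, hg, num 0 q, num 0 (pre z q), (mulC L : ℤ) * (b : ℤ) ^ q.1.length,
      (b : ℤ) ^ z.length, ?_, ?_, ?_, ?_⟩
    · have : (0 : ℤ) < mulC L := by exact_mod_cast hG.hC
      positivity
    · have hlen : 1 ≤ z.length := List.length_pos_iff.mpr hz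
      calc (2 : ℤ) ≤ b := hbZ
        _ = (b : ℤ) ^ 1 := (pow_one _).symm
        _ ≤ (b : ℤ) ^ z.length := pow_le_pow_right₀ (by linarith) hlen
    · refine ⟨dig 0 z, ?_⟩
      rw [NUM_pre, NUM_split (dig 0 z) q]
      ring
    · intro k
      have e1 : num 0 q + k * ((mulC L : ℤ) * (b : ℤ) ^ q.1.length) = num k q := by
        rw [NUM_split k q]; ring
      have e2 : (pre z q).1.length = z.length + q.1.length := by simp [pre]
      rw [e1, hgk, NUM_split k (pre z q), e2, pow_add]
      ring
  · rintro ⟨g, hg, hexp⟩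
    rw [ORB_fin hL]
    have hF' : ∀ x, Conn L x (g x) := by
      intro x
      rw [← ORB_orbit hL]
      exact ⟨⟨g, hg⟩, rfl⟩
    obtain ⟨x, hx⟩ := exp_infinite hF' (F := fun x => g x) hexp
    exact fun hall => hx (hall x)

end CTD
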