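import Pool.Agent.CTD.Defs

set_option autoImplicit false

/-!
Project CTD, job ITE: the closure computation.
-/

namespace CTD

theorem ite_mem_grow (L : List Data) (lo hi : ℕ) (F : List ℕ) (z : ℕ) :
    z ∈ grow L lo hi F ↔
      z ∈ F ∨ ∃ u ∈ F, ∃ t ∈ L, z = tauN t u ∧ lo ≤ z ∧ z < hi := by
  unfold grow
  simp only [List.mem_append, List.mem_flatMap, List.mem_map]
  constructor
  · rintro (h | ⟨u, hu, t, ht, rfl⟩)
    · exact Or.inl h
    · split_ifs with hc
      · exact Or.inr ⟨u, hu, t, ht, rfl, hc.1, hc.2⟩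
      · exact Or.inl hu
  · rintro (h | ⟨u, hu, t, ht, rfl, h1, h2⟩)
    · exact Or.inl h
    · exact Or.inr ⟨u, hu, t, ht, if_pos ⟨h1, h2⟩⟩

theorem ite_sound (L : List Data) (lo hi x : ℕ) (h1 : lo ≤ x) (h2 : x < hi) (n : ℕ) :
    ∀ y ∈ (grow L lo hi)^[n] [x], lo ≤ y ∧ y < hi ∧ ConnN L lo hi x y := by
  induction n with
  | zero =>
    intro y hy
    have e : y = x := by simpa using hy
    subst e
    exact ⟨h1, h2, Relation.ReflTransGen.refl⟩
  | succ n ih =>
    intro y hy
    rw [Function.iterate_succ_apply', ite_mem_grow] at hy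
    rcases hy with hy | ⟨u, hu, t, ht, e, h3, h4⟩
    · exact ih y hy
    · obtain ⟨a, b, c⟩ := ih u hu
      exact ⟨h3, h4, c.tail ⟨a, b, h3, h4, t, ht, e⟩⟩

theorem ite_succ (L : List Data) (lo hi x : ℕ) (n : ℕ) :
    ∀ y ∈ (grow L lo hi)^[n] [x], y ∈ (grow L lo hi)^[n + 1] [x] := by
  intro y hy
  rw [Function.iterate_succ_apply', ite_mem_grow]
  exact Or.inl hy

theorem ite_mono (L : List Data) (lo hi x : ℕ) (m n : ℕ) (h : m ≤ n) :
    ∀ y ∈ (grow L lo hi)^[m] [x], y ∈ (grow L lo hi)^[n] [x] := by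
  induction n, h using Nat.le_induction with
  | base => exact fun y hy => hy
  | succ n _ ih => exact fun y hy => ite_succ L lo hi x n y (ih y hy)

theorem ite_card (L : List Data) (lo hi x : ℕ) (n : ℕ) :
    (∃ m ≤ n, ∀ z ∈ (grow L lo hi)^[m + 1] [x], z ∈ (grow L lo hi)^[m] [x]) ∨
      n + 1 ≤ ((grow L lo hi)^[n] [x]).toFinset.card := by
  induction n with
  | zero =>
    right
    simp
  | succ n ih =>
    rcases ih with ⟨m, hm, h⟩ | h
    · exact Or.inl ⟨m, by omega, h⟩
    · by_cases hs : ∀ z ∈ (grow L lo hi)^[n + 1] [x], z ∈ (grow L lo hi)^[n] [x]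
      · exact Or.inl ⟨n, by omega, hs⟩
      · right
        push Not at hs
        obtain ⟨z, hz, hz'⟩ := hs
        have hlt : ((grow L lo hi)^[n] [x]).toFinset ⊂ ((grow L lo hi)^[n + 1] [x]).toFinset := by
          rw [Finset.ssubset_iff_of_subset]
          · exact ⟨z, by simpa using hz, by simpa using hz'⟩
          · intro y hy
            rw [List.mem_toFinset] at hy ⊢
            exact ite_succ L lo hi x n y hy
        have := Finset.card_lt_card hlt
        omega

/-- `(grow L lo hi)^[n] [x]` is the set of all `y` reachable from `x` in at most `n` steps;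
in a set of `hi` elements `hi` rounds suffice (stabilisation). -/
theorem ITE (L : List Data) (lo hi x y : ℕ) (h1 : lo ≤ x) (h2 : x < hi) :
    ConnN L lo hi x y ↔ y ∈ (grow L lo hi)^[hi] [x] := by
  constructor
  · intro h
    have hle : ((grow L lo hi)^[hi] [x]).toFinset.card ≤ hi := by
      have hsub : ((grow L lo hi)^[hi] [x]).toFinset ⊆ Finset.range hi := by
        intro z hz
        rw [List.mem_toFinset] at hz
        rw [Finset.mem_range]
        exact (ite_sound L lo hi x h1 h2 hi z hz).2.1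
      simpa using Finset.card_le_card hsub
    rcases ite_card L lo hi x hi with ⟨m, hm, hst⟩ | hc
    · have hx : x ∈ (grow L lo hi)^[m] [x] :=
        ite_mono L lo hi x 0 m (Nat.zero_le m) x (by simp)
      have hall : y ∈ (grow L lo hi)^[m] [x] := by
        induction h with
        | refl => exact hx
        | tail _ hbc ih =>
          obtain ⟨_, _, h3, h4, t, ht, e⟩ := hbc
          apply hst
          rw [Function.iterate_succ_apply', ite_mem_grow]
          exact Or.inr ⟨_, ih, t, ht, e, h3, h4⟩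
      exact ite_mono L lo hi x m hi hm y hall
    · omega
  · intro h
    exact (ite_sound L lo hi x h1 h2 hi y h).2.2

end CTD
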