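import Pool.Agent.CTD.Defs
import Pool.Agent.CTD.P_ORB
import Pool.Agent.CTD.P_NUM
import Pool.Agent.CTD.P_WIN
import Pool.Agent.CTD.P_PUM
import Pool.Agent.CTD.P_COD
import Pool.Agent.CTD.P_INT

set_option autoImplicit false

/-!
Job ONE of project CTD: all orbits are finite iff the bounded criterion `crit1` holds.
-/

namespace CTD

variable {b C : ℕ}

/-- A word of length `j` exceeds `num 1` bounds. -/
theorem one_bounds (w : Word b C) :
    (C : ℤ) * (b : ℤ) ^ w.1.length ≤ num 1 w ∧
      num 1 w < 2 * C * (b : ℤ) ^ w.1.length := by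
  have h1 := NUM_split 1 w
  have h2 := NUM_nonneg w
  have h3 := NUM_lt w
  constructor
  · rw [h1]; linarith
  · rw [h1]; linarith

/-- At the first moment when the length exceeds `NP` it is at most `NP + 2 T`. -/
theorem one_first {L : List Data} {T : ℕ} (hG : Good L b C T) (N : ℕ) (hN : 2 * T ≤ N)
    (u : Word b C) (hu : u.1.length ≤ 2 * T) {w : Word b C} (h : ConnW L u w) :
    (ConnH L (N + 2 * T) u w ∧ w.1.length ≤ N) ∨
      ∃ v : Word b C, ConnH L (N + 2 * T) u v ∧ N < v.1.length ∧
        v.1.length ≤ N + 2 * T := by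
  induction h with
  | refl => exact Or.inl ⟨Relation.ReflTransGen.refl, le_trans hu hN⟩
  | @tail v w hv hs ih =>
    rcases ih with ⟨h1, h2⟩ | h1
    · have h3 : w.1.length ≤ v.1.length + 2 * T := WIN_len hG hs
      have h4 : w.1.length ≤ N + 2 * T := by omega
      have h5 : ConnH L (N + 2 * T) u w :=
        Relation.ReflTransGen.tail h1 ⟨by omega, h4, hs⟩
      by_cases h6 : w.1.length ≤ N
      · exact Or.inl ⟨h5, h6⟩
      · exact Or.inr ⟨w, h5, by omega, h4⟩
    · exact Or.inr h1

/-- Bounded connections are connections. -/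
theorem one_connH {L : List Data} {h : ℕ} {u v : Word b C} (huv : ConnH L h u v) :
    ConnW L u v := by
  induction huv with
  | refl => exact Relation.ReflTransGen.refl
  | tail _ hs ih => exact Relation.ReflTransGen.tail ih hs.2.2

theorem one_NP {L : List Data} {T : ℕ} (hG : Good L b C T) : 2 * T ≤ NP b C T := by
  have h1 : 2 * T < 2 ^ (2 * T) := Nat.lt_two_pow_self
  have h2 : 2 ^ (2 * T) ≤ b ^ (2 * T) := Nat.pow_le_pow_left hG.hb _
  have h3 : 1 ≤ 2 * C := by have := hG.hC; omega
  unfold NP
  calc 2 * T ≤ b ^ (2 * T) := by omega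
    _ = 1 * b ^ (2 * T) := (one_mul _).symm
    _ ≤ 2 * C * b ^ (2 * T) := Nat.mul_le_mul_right _ h3

/-- `¬ FinOrb` iff some `u`, `|u| ≤ 2T`, is connected to a word of length `> NP`
(PUM_pump, INT_pump, INT_fin); at the first moment when the length exceeds `NP` it is at most
`NP + 2T` (WIN_len); COD_conn and COD_one with `h = NP + 2T`. -/
theorem ONE {L : List Data} {T : ℕ} (hG : Good L b C T) : FinOrb L ↔ crit1 L b C T := by
  have hb := hG.hb
  have hC := hG.hC
  constructor
  · intro hF j hj X hX y hy hy2 hconn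
    have hfin := (ORB_fin hG.hct).1 hF
    obtain ⟨u, hu, hu0⟩ := NUM_exists (b := b) (C := C) hb hC j (X : ℤ) (by positivity)
      (by exact_mod_cast hX)
    have hx1 : ((C * b ^ j + X : ℕ) : ℤ) = num 1 u := by
      rw [NUM_split 1 u, hu0, hu]; push_cast; ring
    have hconn' : ConnN L C (2 * C * b ^ (NP b C T + 2 * T)) (C * b ^ j + X) y := hconn
    obtain ⟨v, hv1, hv2⟩ := COD_conn hG (NP b C T + 2 * T) _ y hconn' u hx1 (by omega)
    have hlen : v.1.length ≤ NP b C T := by
      refine PUM_pump hG ?_ u v (by omega) (one_connH hv2)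
      intro q z hz hq
      exact INT_pump hG q z hz hq hfin
    have h1 := (one_bounds v).2
    rw [← hv1] at h1
    have h2 : y < 2 * C * b ^ v.1.length := by exact_mod_cast h1
    have h3 : C * b ^ (v.1.length + 1) ≤ C * b ^ (NP b C T + 1) :=
      Nat.mul_le_mul_left _ (Nat.pow_le_pow_right (by omega) (by omega))
    have h4 : 2 * C * b ^ v.1.length ≤ C * b ^ (v.1.length + 1) := by
      rw [pow_succ]
      calc 2 * C * b ^ v.1.length = C * (b ^ v.1.length * 2) := by ring
        _ ≤ C * (b ^ v.1.length * b) :=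
          Nat.mul_le_mul_left _ (Nat.mul_le_mul_left _ hb)
    -- the shortest admissible length gives a contradiction
    have h5 : C * b ^ (NP b C T + 1) ≤ y := hy2
    omega
  · intro hc
    rw [ORB_fin hG.hct]
    refine INT_fin hG (NP b C T) ?_
    intro u w hu huw
    by_contra hcon
    rcases one_first hG (NP b C T) (one_NP hG) u hu huw with ⟨_, h2⟩ | ⟨v, hv, hv1, hv2⟩
    · exact hcon h2
    · have hx0 := NUM_nonneg u
      have hx1 := NUM_lt u
      obtain ⟨X, hX⟩ := Int.eq_ofNat_of_zero_le hx0
      have hX2 : X < C * b ^ u.1.length := by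
        rw [hX] at hx1; exact_mod_cast hx1
      have hy0 := one_bounds v
      have hy1 : (0 : ℤ) ≤ num 1 v := le_trans (by positivity) hy0.1
      obtain ⟨y, hy⟩ := Int.eq_ofNat_of_zero_le hy1
      rw [hy] at hy0
      have hy2 : C * b ^ v.1.length ≤ y := by exact_mod_cast hy0.1
      have hy3 : y < 2 * C * b ^ v.1.length := by exact_mod_cast hy0.2
      have hconn : ConnN L C (2 * C * b ^ (NP b C T + 2 * T)) (C * b ^ u.1.length + X) y := by
        refine COD_one hG (NP b C T + 2 * T) u v hv _ y ?_ hy.symm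
        rw [NUM_split 1 u, hX]; push_cast; ring
      refine hc u.1.length (by omega) X hX2 y ?_ ?_ hconn
      · unfold hi1
        refine lt_of_lt_of_le hy3 ?_
        exact Nat.mul_le_mul_left _ (Nat.pow_le_pow_right (by omega) hv2)
      · refine le_trans ?_ hy2
        exact Nat.mul_le_mul_left _ (Nat.pow_le_pow_right (by omega) (by omega))

end CTD
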