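import Pool.Agent.CTD.Defs

set_option autoImplicit false

/-!
Targets of project CTD (MP_8d342a_al), decidability of the finiteness of orbits and of
transitivity for groups generated by class transpositions all of whose slopes are powers of
one integer.  Every job: copy the theorems of one section into a new file
`Pool/Agent/CTD/P_<NAME>.lean` (namespace `CTD`, `import Pool.Agent.CTD.Defs`, and the other
P files only if the job says so) and prove them.
-/

namespace CTD.Targets

open CTD

variable {b C : ℕ}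

/-! ## Job BAS: class transpositions as functions -/

/-- `x % m = r` with `0 ≤ r < m` iff `x = r + k m`; two cases, `Int.emod_emod_of_dvd`-free:
`(r + k m) % m = r` and `(r + k m) / m = k`. -/
theorem BAS_cls {t : Data} (h : IsCT t) (x : ℤ) :
    (x ∈ cls t.1 ↔ x % t.1.2 = t.1.1) ∧ (x ∈ cls t.2 ↔ x % t.2.2 = t.2.1) := by
  sorry

theorem BAS_invol {t : Data} (h : IsCT t) (x : ℤ) : tau t (tau t x) = x := by
  sorry

theorem BAS_nonneg {t : Data} (h : IsCT t) {x : ℤ} (hx : 0 ≤ x) : 0 ≤ tau t x := by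
  sorry

theorem BAS_nat {t : Data} (h : IsCT t) (x : ℕ) : tau t (x : ℤ) = (tauN t x : ℕ) := by
  sorry

theorem BAS_move {t : Data} (h : IsCT t) (x : ℤ) :
    tau t x ≠ x ↔ (x ∈ cls t.1 ∨ x ∈ cls t.2) := by
  sorry

theorem BAS_is {t : Data} (h : IsCT t) (g : Equiv.Perm ℤ) : Is t g ↔ ∀ x, g x = tau t x := by
  sorry

theorem BAS_exists {t : Data} (h : IsCT t) : ∃ g : Equiv.Perm ℤ, Is t g := by
  sorry

/-! ## Job ORB (may import P_BAS): orbits -/

/-- `⊇`: each step is the action of a generator. `⊆`: closure induction; all generators are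
involutions. -/
theorem ORB_orbit {L : List Data} (hL : ∀ t ∈ L, IsCT t) (x y : ℤ) :
    y ∈ MulAction.orbit (grp L) x ↔ Conn L x y := by
  sorry

theorem ORB_symm {L : List Data} (hL : ∀ t ∈ L, IsCT t) {x y : ℤ} (h : Conn L x y) :
    Conn L y x := by
  sorry

theorem ORB_supp {L : List Data} (hL : ∀ t ∈ L, IsCT t) (x : ℤ) :
    x ∈ supp L ↔ ∃ t ∈ L, x ∈ cls t.1 ∨ x ∈ cls t.2 := by
  sorry

theorem ORB_suppN {L : List Data} (hL : ∀ t ∈ L, IsCT t) (x : ℕ) :
    (x : ℤ) ∈ supp L ↔ suppN L x := by
  sorry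

/-- If `x` is in the support and `y` is connected with `x`, then `y` is in the support:
otherwise all steps fix `y`, so `x = y`. -/
theorem ORB_supp_conn {L : List Data} (hL : ∀ t ∈ L, IsCT t) {x y : ℤ} (h : Conn L x y)
    (hx : x ∈ supp L) : y ∈ supp L := by
  sorry

theorem ORB_nonneg {L : List Data} (hL : ∀ t ∈ L, IsCT t) {x y : ℤ} (h : Conn L x y)
    (hx : 0 ≤ x) : 0 ≤ y := by
  sorry

theorem ORB_fin {L : List Data} (hL : ∀ t ∈ L, IsCT t) :
    FinOrb L ↔ ∀ x : ℤ, {y | Conn L x y}.Finite := by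
  sorry

theorem ORB_trans {L : List Data} (hL : ∀ t ∈ L, IsCT t) :
    Trans L ↔ ∀ x y : ℕ, suppN L x → suppN L y → Conn L x y := by
  sorry

/-! ## Job NUM: words as integers -/

theorem NUM_dig (k : ℤ) (l : List (Fin b)) : dig k l = dig 0 l + k * (b : ℤ) ^ l.length := by
  sorry

theorem NUM_dig_append (k : ℤ) (l l' : List (Fin b)) : dig k (l ++ l') = dig (dig k l) l' := by
  sorry

theorem NUM_pre (k : ℤ) (p : List (Fin b)) (w : Word b C) : num k (pre p w) = num (dig k p) w := by
  sorry

theorem NUM_split (k : ℤ) (w : Word b C) :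
    num k w = num 0 w + C * (b : ℤ) ^ w.1.length * k := by
  sorry

theorem NUM_nonneg (w : Word b C) : 0 ≤ num 0 w := by
  sorry

theorem NUM_lt (w : Word b C) : num 0 w < C * (b : ℤ) ^ w.1.length := by
  sorry

/-- Division with remainder: `X = ρ + C Y`, `Y < b ^ j`, induction on `j`. -/
theorem NUM_exists (hb : 2 ≤ b) (hC : 0 < C) (j : ℕ) (X : ℤ) (h0 : 0 ≤ X)
    (h1 : X < C * (b : ℤ) ^ j) : ∃ w : Word b C, w.1.length = j ∧ num 0 w = X := by
  sorry

theorem NUM_inj_len (hb : 2 ≤ b) {k : ℤ} {u v : Word b C} (hl : u.1.length = v.1.length)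
    (h : num k u = num k v) : u = v := by
  sorry

/-- `C b^|u| ≤ num 1 u < 2 C b^|u|` gives equal lengths. -/
theorem NUM_inj (hb : 2 ≤ b) {u v : Word b C} (h : num 1 u = num 1 v) : u = v := by
  sorry

theorem NUM_prefix (hb : 2 ≤ b) (k : ℤ) (i : ℕ) :
    ∃ z : List (Fin b), z.length = i ∧ dig (k / (b : ℤ) ^ i) z = k := by
  sorry

theorem NUM_card (hb : 2 ≤ b) (T : ℕ) :
    {w : Word b C | w.1.length ≤ 2 * T}.Finite ∧
      {w : Word b C | w.1.length ≤ 2 * T}.ncard ≤ NP b C T := by
  sorry

/-! ## Job WIN (may import P_BAS, P_NUM): the window lemma and the decomposition of steps -/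

/-- Let `X = num 0 u ∈ [0, C b^T)`.  If `X` is in neither class of `t`, then neither is
`num k u = X + C b^T k` (all moduli divide `C b^T`): take `v = u`.  If `t.2.2 = t.1.2 b^e`
and `X ≡ r₁ mod m₁`: `tau t (X + C b^T k) = r₂ + b^e (X - r₁) + C b^(T+e) k`, and
`0 ≤ r₂ + b^e (X - r₁) < C b^(T+e)` since `X ≤ r₁ + m₁ (C b^T / m₁ - 1)`.  If
`X ≡ r₂ mod m₂`: `tau t (X + C b^T k) = r₁ + (X - r₂)/b^e + C b^(T-e) k`.  The other
orientation is the same.  `v` is the word of length `T ± e` with this value. -/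
theorem WIN {L : List Data} {T : ℕ} (hG : Good L b C T) {t : Data} (ht : t ∈ L)
    (u : Word b C) (hu : u.1.length = T) :
    ∃ v : Word b C, v.1.length ≤ 2 * T ∧ ∀ k : ℤ, tau t (num k u) = num k v := by
  sorry

theorem WIN_symm {L : List Data} {T : ℕ} (hG : Good L b C T) {u v : Word b C}
    (h : StepW L u v) : StepW L v u := by
  sorry

theorem WIN_pre {L : List Data} {u v : Word b C} (p : List (Fin b)) (h : StepW L u v) :
    StepW L (pre p u) (pre p v) := by
  sorry

/-- For `|u| ≥ T` write `u = p s` with `|s| = T` and use WIN. -/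
theorem WIN_long {L : List Data} {T : ℕ} (hG : Good L b C T) {t : Data} (ht : t ∈ L)
    (u : Word b C) (hu : T ≤ u.1.length) :
    ∃ (p : List (Fin b)) (s s' : Word b C), u = pre p s ∧ s.1.length = T ∧
      s'.1.length ≤ 2 * T ∧ (∀ k : ℤ, tau t (num k s) = num k s') ∧
      ∀ k : ℤ, tau t (num k u) = num k (pre p s') := by
  sorry

/-- If `|u| ≥ T`: `u = p s`, `v = p s'` by WIN_long and NUM_inj.  If `|u| < T` take `p = []`;
`|v| ≤ 2 T`, for otherwise WIN_long for `v` (and symmetry) gives `u = p s'` with `|p| > T`. -/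
theorem WIN_dec {L : List Data} {T : ℕ} (hG : Good L b C T) {u v : Word b C}
    (h : StepW L u v) :
    ∃ (p : List (Fin b)) (s s' : Word b C), u = pre p s ∧ v = pre p s' ∧
      s.1.length ≤ 2 * T ∧ s'.1.length ≤ 2 * T ∧ StepW L s s' := by
  sorry

/-- The lengths differ by at most `2 T`. -/
theorem WIN_len {L : List Data} {T : ℕ} (hG : Good L b C T) {u v : Word b C}
    (h : StepW L u v) : v.1.length ≤ u.1.length + 2 * T := by
  sorry

/-! ## Job VAL (may import P_BAS, P_NUM, P_WIN): congruence closure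

Let `φ : Word b C → K` be such that `φ q = φ q' → φ (pre [d] q) = φ (pre [d] q')` for words
`q, q'` of length `< 2 T`.  Define `val : List (Fin b) → Fin C → List (Fin b) × K` by
`val [] s = ([], φ ([], s))` and `val (d :: l) s = step d (val l s)` where
`step d (p, c) = ([], φ (pre [d] q))` if `p = []` and there is `q` with `|q| < 2 T`,
`φ q = c` (choose one) and `step d (p, c) = (d :: p, c)` otherwise.  Facts:
(1) `|w| ≤ 2T → val w = ([], φ w)`; (2) if `φ u = φ v` for every step `StepW L u v` between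
words of length `≤ 2T`, then `ConnW L u v → val u = val v` (WIN_dec, and `step` is a
function); (3) for `φ = ` class of `ConnW L`: `val w = (p, c)` implies that there is `q`,
`|q| ≤ 2T`, `φ q = c` and `ConnW L w (pre p q)`. -/

/-- Closure lemma: take `φ w = {v | |v| ≤ 2T ∧ E w v}` (for `|w| ≤ 2T`). -/
theorem VAL_closure {L : List Data} {T : ℕ} (hG : Good L b C T)
    (E : Word b C → Word b C → Prop)
    (hrefl : ∀ u : Word b C, u.1.length ≤ 2 * T → E u u)
    (hsymm : ∀ u v : Word b C, u.1.length ≤ 2 * T → v.1.length ≤ 2 * T → E u v → E v u)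
    (htrans : ∀ u v w : Word b C, u.1.length ≤ 2 * T → v.1.length ≤ 2 * T →
      w.1.length ≤ 2 * T → E u v → E v w → E u w)
    (hstep : ∀ u v : Word b C, u.1.length ≤ 2 * T → v.1.length ≤ 2 * T → StepW L u v → E u v)
    (hcons : ∀ (d : Fin b) (u v : Word b C), u.1.length < 2 * T → v.1.length < 2 * T →
      E u v → E (pre [d] u) (pre [d] v))
    (u v : Word b C) (hu : u.1.length ≤ 2 * T) (hv : v.1.length ≤ 2 * T)
    (h : ConnW L u v) : E u v := by
  sorry

/-- Suffix lemma: `φ` = class of `ConnW L`; `val (pre [d] w) = val u = ([], φ u)` forces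
`val w = ([], c)`, use (3). -/
theorem VAL_suffix {L : List Data} {T : ℕ} (hG : Good L b C T) (d : Fin b)
    (w u : Word b C) (hu : u.1.length ≤ 2 * T) (h : ConnW L (pre [d] w) u) :
    ∃ u' : Word b C, u'.1.length ≤ 2 * T ∧ ConnW L w u' := by
  sorry

/-- Zero lemma: `φ` = class of `ConnW L`.  By induction on `i`: `val (0^i u) = (0^j, c)` for
some `j`, and every `q` with `|q| ≤ 2T`, `φ q = c` satisfies `F u q`. -/
theorem VAL_zero {L : List Data} {T : ℕ} (hG : Good L b C T) (z : Fin b)
    (F : Word b C → Word b C → Prop)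
    (hsymm : ∀ u v : Word b C, u.1.length ≤ 2 * T → v.1.length ≤ 2 * T → F u v → F v u)
    (htrans : ∀ u v w : Word b C, u.1.length ≤ 2 * T → v.1.length ≤ 2 * T →
      w.1.length ≤ 2 * T → F u v → F v w → F u w)
    (hconn : ∀ u v : Word b C, u.1.length ≤ 2 * T → v.1.length ≤ 2 * T → ConnW L u v → F u v)
    (hzero : ∀ u : Word b C, u.1.length < 2 * T → F u (pre [z] u))
    (u v : Word b C) (hu : u.1.length ≤ 2 * T) (hv : v.1.length ≤ 2 * T) (i j : ℕ)
    (h : ConnW L (pre (List.replicate i z) u) (pre (List.replicate j z) v)) : F u v := by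
  sorry

/-! ## Job PUM (may import P_NUM, P_WIN, P_VAL): pumping -/

theorem PUM_symm {L : List Data} {T : ℕ} (hG : Good L b C T) {u v : Word b C}
    (h : ConnW L u v) : ConnW L v u := by
  sorry

theorem PUM_pre {L : List Data} {u v : Word b C} (p : List (Fin b)) (h : ConnW L u v) :
    ConnW L (pre p u) (pre p v) := by
  sorry

/-- Every suffix `w_i` of `w` (`i` digits) is connected to a word `q_i` of length `≤ 2T`
(VAL_suffix).  If `|w| ≥ NP` there are `|w| + 1 > NP` suffixes, so `q_i = q_j` for some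
`i < j`, `w_j = z w_i`, and `q_i ~ w_i`, `w_i ~ w_j = z w_i ~ z q_i`. -/
theorem PUM_pump {L : List Data} {T : ℕ} (hG : Good L b C T)
    (hno : ∀ (q : Word b C) (z : List (Fin b)), z ≠ [] → ¬ ConnW L q (pre z q))
    (u w : Word b C) (hu : u.1.length ≤ 2 * T) (h : ConnW L u w) :
    w.1.length ≤ NP b C T := by
  sorry

/-! ## Job STB (may import P_NUM, P_WIN, P_VAL): explicit bound for the lengths -/

/-- General stabilisation lemma. -/
theorem STB_general {α : Type*} (S : ℕ → Set α) (U : Set α) (hU : U.Finite)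
    (hS : ∀ n, S n ⊆ U) (hmono : ∀ n, S n ⊆ S (n + 1)) :
    ∃ n ≤ U.ncard, S n = S (n + 1) := by
  sorry

/-- `E_h = {(u,v) : |u|, |v| ≤ 2T, ConnH L h u v}`, `h ≥ 2T`, lies in a set with at most
`NP^2` elements, so `E_h = E_(h+1)` for some `2T ≤ h ≤ HH`.  This `E_h` satisfies the
hypotheses of VAL_closure (`E_h u v → E_(h+1) (d u) (d v)` by WIN_pre). -/
theorem STB_bound {L : List Data} {T : ℕ} (hG : Good L b C T) (u v : Word b C)
    (hu : u.1.length ≤ 2 * T) (hv : v.1.length ≤ 2 * T) (h : ConnW L u v) :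
    ConnH L (HH b C T) u v := by
  sorry

/-! ## Job COD (may import P_BAS, P_NUM, P_WIN): words and intervals of natural numbers -/

/-- Let `Y = num 0 v`, `h = |v|`, `y = C b^h + Y`.  If `y` is in no class of `t`, `tau t y = y`.
If `y` is in the class with the smaller modulus `m`, `m ∣ C`, then `Y` is in it and
`tau t (num k v) = num k v'` for all `k`, `|v'| = h + e`.  If `y` is in the class with the
larger modulus `m b^e` and `e ≤ h`, the same with `|v'| = h - e`; if `e > h` then
`y < 2 C b^h ≤ C b^e` and `tau t y < C`. -/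
theorem COD_step {L : List Data} {T : ℕ} (hG : Good L b C T) {t : Data} (ht : t ∈ L)
    (v : Word b C) (h : (C : ℤ) ≤ tau t (num 1 v)) :
    tau t (num 1 v) = num 1 v ∨
      ∃ v' : Word b C, tau t (num 1 v) = num 1 v' ∧ StepW L v v' := by
  sorry

theorem COD_conn {L : List Data} {T : ℕ} (hG : Good L b C T) (h : ℕ) (x y : ℕ)
    (hxy : ConnN L C (2 * C * b ^ h) x y) (u : Word b C) (hx : (x : ℤ) = num 1 u)
    (hu : u.1.length ≤ h) :
    ∃ v : Word b C, (y : ℤ) = num 1 v ∧ ConnH L h u v := by
  sorry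

theorem COD_one {L : List Data} {T : ℕ} (hG : Good L b C T) (h : ℕ) (u v : Word b C)
    (huv : ConnH L h u v) (x y : ℕ) (hx : (x : ℤ) = num 1 u) (hy : (y : ℤ) = num 1 v) :
    ConnN L C (2 * C * b ^ h) x y := by
  sorry

theorem COD_zero {L : List Data} {T : ℕ} (hG : Good L b C T) (h : ℕ) (u v : Word b C)
    (huv : ConnH L h u v) (x y : ℕ) (hx : (x : ℤ) = num 0 u) (hy : (y : ℤ) = num 0 v) :
    ConnN L 0 (2 * C * b ^ h) x y := by
  sorry

/-! ## Job INT (may import P_BAS, P_ORB, P_NUM, P_WIN): words and orbits on the integers -/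

theorem INT_conn {L : List Data} {u v : Word b C} (h : ConnW L u v) (k : ℤ) :
    Conn L (num k u) (num k v) := by
  sorry

/-- Pumping gives an infinite orbit: `num 1 (z^i q)`, `i = 0, 1, ..`. -/
theorem INT_pump {L : List Data} {T : ℕ} (hG : Good L b C T) (q : Word b C)
    (z : List (Fin b)) (hz : z ≠ []) (h : ConnW L q (pre z q)) :
    ¬ ∀ x : ℤ, {y | Conn L x y}.Finite := by
  sorry

/-- If all words connected to words of length `≤ 2T` have length `≤ N`, all orbits are finite:
`Inv n = {num k w : k = n / b^i for some i, w connected to a word of length ≤ 2T}` is finite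
and closed under steps (if `|w| ≥ T` use WIN_long, otherwise first write
`num k w = num (k / b^T) (pre z w)`, `|z| = T`, `|pre z w| < 2T`). -/
theorem INT_fin {L : List Data} {T : ℕ} (hG : Good L b C T) (N : ℕ)
    (hN : ∀ u w : Word b C, u.1.length ≤ 2 * T → ConnW L u w → w.1.length ≤ N) :
    ∀ x : ℤ, {y | Conn L x y}.Finite := by
  sorry

/-- Every connection of integers comes from words (extend by `T` digits when the word gets
shorter than `T`). -/
theorem INT_lift {L : List Data} {T : ℕ} (hG : Good L b C T) {x y : ℤ} (h : Conn L x y) :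
    ∃ (k : ℤ) (u v : Word b C), x = num k u ∧ y = num k v ∧ ConnW L u v := by
  sorry

/-! ## Job ONE (may import all P files above): the first criterion -/

/-- `¬ FinOrb` iff some `u`, `|u| ≤ 2T`, is connected to a word of length `> NP`
(PUM_pump, INT_pump, INT_fin); at the first moment when the length exceeds `NP` it is at most
`NP + 2T` (WIN_len); COD_conn and COD_one with `h = NP + 2T`. -/
theorem ONE {L : List Data} {T : ℕ} (hG : Good L b C T) : FinOrb L ↔ crit1 L b C T := by
  sorry

/-! ## Job TWO (may import all P files above): the second criterion -/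

/-- (a) and (b) imply transitivity: strong induction, every `x` in the support is connected to
some `x' < C b^T` in the support: for `x ≥ C b^T` write `x = num k w`, `|w| = T`, `k ≥ 1`; by
(a) (COD_conn) `w ~ q` with `|q| < T` and `num k q < C b^|q| (k+1) ≤ C b^(T-1) 2 k ≤ x`. -/
theorem TWO_suff {L : List Data} {T : ℕ} (hG : Good L b C T) (h : crit2 L b C T) :
    Trans L := by
  sorry

/-- Necessity of (a): let `|w| = T`, `num 0 w` in the support, no `q` with `|q| < T`, `w ~ q`.
Then every integer connected with `num 1 w` is `num 1 v` with `v ~ w`, `|v| ≥ T`, so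
`≥ C b^T > num 0 w`, and `num 0 w`, `num 1 w` are not connected.  The connecting words in (a)
have length `≤ HH` by STB_bound. -/
theorem TWO_a {L : List Data} {T : ℕ} (hG : Good L b C T) (h : Trans L) :
    ∀ X < C * b ^ T, suppN L X → ∃ j < T, ∃ Y < C * b ^ j,
      ConnN L C (hi2 b C T) (C * b ^ T + X) (C * b ^ j + Y) := by
  sorry

/-- Necessity of (b): `x = num 0 wx`, `y = num 0 wy`, `|wx| = |wy| = T`.  By INT_lift
`x = num k u`, `y = num k v`, `u ~ v`, `k ≥ 0`; write `k = dig 0 z`; add zeros until both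
words have length `≥ T`: they are `0^i wx` and `0^j wy`.  VAL_zero with
`F u v = ConnN L 0 (hi2 b C T) (num 0 u).toNat (num 0 v).toNat` (STB_bound, COD_zero). -/
theorem TWO_b {L : List Data} {T : ℕ} (hG : Good L b C T) (x y : ℕ)
    (hx : x < C * b ^ T) (hy : y < C * b ^ T) (h : Conn L x y) :
    ConnN L 0 (hi2 b C T) x y := by
  sorry

/-! ## Job ITE: the closure computation -/

/-- `(grow L lo hi)^[n] [x]` is the set of all `y` reachable from `x` in at most `n` steps;
in a set of `hi` elements `hi` rounds suffice (stabilisation). -/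
theorem ITE (L : List Data) (lo hi x y : ℕ) (h1 : lo ≤ x) (h2 : x < hi) :
    ConnN L lo hi x y ↔ y ∈ (grow L lo hi)^[hi] [x] := by
  sorry

/-! ## Job FAM: the bounded form of the family -/

theorem FAM_iff (L : List Data) : InFam L ↔ ∃ b < bnd L, FamB L b := by
  sorry

theorem FAM_good (L : List Data) (b : ℕ) (h : FamB L b) : Good L b (mulC L) (bnd L) := by
  sorry

/-! ## Job PRI: primitive recursion -/

theorem PRI_isCT : PrimrecPred (fun t : Data => IsCT t) := by
  sorry

theorem PRI_bnd : Primrec bnd := by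
  sorry

theorem PRI_mulC : Primrec mulC := by
  sorry

theorem PRI_fam : PrimrecPred (fun p : List Data × ℕ => FamB p.1 p.2) := by
  sorry

theorem PRI_supp : PrimrecPred (fun p : List Data × ℕ => suppN p.1 p.2) := by
  sorry

/-- Primitive recursive membership in the iterated closure; `p = (L, (lo, hi), (x, y))`. -/
theorem PRI_grow : PrimrecPred (fun p : List Data × (ℕ × ℕ) × (ℕ × ℕ) =>
    p.2.2.2 ∈ (grow p.1 p.2.1.1 p.2.1.2)^[p.2.1.2] [p.2.2.1]) := by
  sorry

/-! ## Job PRC (may import P_ITE, P_PRI): the criteria are primitive recursive -/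

/-- For `0 < C` and `2 ≤ b` one has `x = C b^j + X ∈ [C, hi1)` for `j ≤ 2T`, `X < C b^j`, so
ConnN can be replaced by membership in the iterated closure (ITE). -/
theorem PRC_one : ∃ P : List Data × ℕ × ℕ × ℕ → Prop, PrimrecPred P ∧
    ∀ (L : List Data) (b C T : ℕ), 2 ≤ b → 0 < C → 1 ≤ T →
      (P (L, b, C, T) ↔ crit1 L b C T) := by
  sorry

theorem PRC_two : ∃ P : List Data × ℕ × ℕ × ℕ → Prop, PrimrecPred P ∧
    ∀ (L : List Data) (b C T : ℕ), 2 ≤ b → 0 < C → 1 ≤ T →
      (P (L, b, C, T) ↔ crit2 L b C T) := by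
  sorry

/-! ## Job FIN: assembly (by helper37) -/

theorem FIN_main :
    ComputablePred (fun L : List Data => InFam L) ∧
    ComputablePred (fun L : List Data => InFam L ∧ FinOrb L) ∧
    ComputablePred (fun L : List Data => InFam L ∧ Trans L) := by
  sorry

end CTD.Targets
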