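import Pool.Agent.CTD.Defs

set_option autoImplicit false

/-!
Two class transpositions, part A: composition of affine branches and the boolean lemma.
-/

namespace CTD

/-- The affine branch `c.1 + k c.2 ↦ c'.1 + k c'.2`. -/
def Gr (c c' : ℕ × ℕ) (x y : ℤ) : Prop := ∃ k : ℤ, x = c.1 + k * c.2 ∧ y = c'.1 + k * c'.2

theorem gr_comp (c c' s s' : ℕ × ℕ) (hc : c.1 < c.2) (hc' : c'.1 < c'.2) (hs : s.1 < s.2)
    (hs' : s'.1 < s'.2) (hne : ∃ x y z, Gr c c' x y ∧ Gr s s' y z) :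
    ∃ u u' : ℕ × ℕ, u.1 < u.2 ∧ u'.1 < u'.2 ∧ u.2 ≤ c.2 * s.2 ∧ u'.2 ≤ c'.2 * s'.2 ∧
      ∀ x z, (Gr u u' x z ↔ ∃ y, Gr c c' x y ∧ Gr s s' y z) := by
  obtain ⟨x0, y0, z0, ⟨k0, hx0, hy0⟩, ⟨l0, hy0', hz0⟩⟩ := hne
  obtain ⟨c1, c2⟩ := c
  obtain ⟨e, N⟩ := c'
  obtain ⟨s1, n⟩ := s
  obtain ⟨t1, t2⟩ := s'
  simp only at hc hc' hs hs' hx0 hy0 hy0' hz0 ⊢
  have hN : 0 < N := by omega
  have hn : 0 < n := by omega
  obtain ⟨g, N1, n1, hg, hcop, hN1, hn1⟩ :
      ∃ g N1 n1 : ℕ, 0 < g ∧ Nat.Coprime N1 n1 ∧ N = N1 * g ∧ n = n1 * g := by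
    obtain ⟨g, N1, n1, h1, h2, h3, h4⟩ := Nat.exists_coprime' (m := N) (n := n)
      (Nat.gcd_pos_of_pos_left n hN)
    exact ⟨g, N1, n1, h1, h2, h3, h4⟩
  have hN1p : 0 < N1 := by
    rcases Nat.eq_zero_or_pos N1 with h | h
    · subst h; omega
    · exact h
  have hn1p : 0 < n1 := by
    rcases Nat.eq_zero_or_pos n1 with h | h
    · subst h; omega
    · exact h
  -- normalised solution
  obtain ⟨κ, l, j, hκ0, hκ1, hkj, hlj⟩ : ∃ κ l j : ℤ, 0 ≤ κ ∧ κ < n1 ∧ k0 = κ + n1 * j ∧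
      l0 = l + N1 * j := by
    refine ⟨k0 % n1, l0 - N1 * (k0 / n1), k0 / n1, Int.emod_nonneg _ (by positivity),
      Int.emod_lt_of_pos _ (by exact_mod_cast hn1p), ?_, by ring⟩
    rw [Int.emod_add_mul_ediv]
  have heq0 : (e : ℤ) + k0 * N = s1 + l0 * n := by rw [← hy0, hy0']
  have heq : (e : ℤ) + κ * N = s1 + l * n := by
    rw [hkj, hlj] at heq0
    have h1 : (N : ℤ) = N1 * g := by exact_mod_cast hN1
    have h2 : (n : ℤ) = n1 * g := by exact_mod_cast hn1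
    rw [h1, h2] at heq0 ⊢
    linarith
  have hl0 : 0 ≤ l := by
    by_contra hcon
    push Not at hcon
    have h1 : l * n ≤ -n := by nlinarith [(by exact_mod_cast hn : (0 : ℤ) < n)]
    have h2 : 0 ≤ κ * N := by positivity
    have h3 : (s1 : ℤ) < n := by exact_mod_cast hs
    have h4 : (0 : ℤ) ≤ e := by positivity
    linarith
  have hl1 : l < N1 := by
    by_contra hcon
    push Not at hcon
    have h1 : (N1 : ℤ) * n ≤ l * n := by nlinarith [(by exact_mod_cast hn : (0 : ℤ) < n)]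
    have h2 : κ * N ≤ (n1 - 1) * N := by
      have : κ ≤ n1 - 1 := by omega
      exact mul_le_mul_of_nonneg_right this (by positivity)
    have h3 : (e : ℤ) < N := by exact_mod_cast hc'
    have h4 : (0 : ℤ) ≤ s1 := by positivity
    have h5 : (n1 : ℤ) * N = N1 * n := by
      have h1 : (N : ℤ) = N1 * g := by exact_mod_cast hN1
      have h2 : (n : ℤ) = n1 * g := by exact_mod_cast hn1
      rw [h1, h2]; ring
    nlinarith
  obtain ⟨κ', rfl⟩ := Int.eq_ofNat_of_zero_le hκ0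
  obtain ⟨l', rfl⟩ := Int.eq_ofNat_of_zero_le hl0
  have hκ2 : κ' < n1 := by exact_mod_cast hκ1
  have hl2 : l' < N1 := by exact_mod_cast hl1
  refine ⟨(c1 + κ' * c2, n1 * c2), (t1 + l' * t2, N1 * t2), ?_, ?_, ?_, ?_, ?_⟩
  · show c1 + κ' * c2 < n1 * c2
    calc c1 + κ' * c2 < c2 + κ' * c2 := by omega
      _ = (κ' + 1) * c2 := by ring
      _ ≤ n1 * c2 := Nat.mul_le_mul_right _ hκ2
  · show t1 + l' * t2 < N1 * t2
    calc t1 + l' * t2 < t2 + l' * t2 := by omega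
      _ = (l' + 1) * t2 := by ring
      _ ≤ N1 * t2 := Nat.mul_le_mul_right _ hl2
  · show n1 * c2 ≤ c2 * n
    rw [hn1, mul_comm c2]
    exact Nat.mul_le_mul_right _ (Nat.le_mul_of_pos_right _ hg)
  · show N1 * t2 ≤ N * t2
    rw [hN1]
    exact Nat.mul_le_mul_right _ (Nat.le_mul_of_pos_right _ hg)
  · intro x z
    have h1 : (N : ℤ) = N1 * g := by exact_mod_cast hN1
    have h2 : (n : ℤ) = n1 * g := by exact_mod_cast hn1
    constructor
    · rintro ⟨i, hx, hz⟩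
      simp only at hx hz
      refine ⟨(e : ℤ) + (κ' + n1 * i) * N, ⟨κ' + n1 * i, ?_, rfl⟩, ⟨l' + N1 * i, ?_, ?_⟩⟩
      · rw [hx]; push_cast; ring
      · show (e : ℤ) + (κ' + n1 * i) * N = s1 + (l' + N1 * i) * n
        have : (n1 : ℤ) * N = N1 * n := by rw [h1, h2]; ring
        linear_combination heq + i * this
      · rw [hz]; push_cast; ring
    · rintro ⟨y, ⟨k, hx, hy⟩, ⟨m, hy', hz⟩⟩
      simp only at hx hy hy' hz
      have h3 : (e : ℤ) + k * N = s1 + m * n := by rw [← hy, hy']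
      have h4 : (k - κ') * N = (m - l') * n := by linear_combination h3 - heq
      have h5 : (k - κ') * N1 = (m - l') * n1 := by
        have hg' : (g : ℤ) ≠ 0 := by exact_mod_cast hg.ne'
        apply mul_right_cancel₀ hg'
        rw [h1, h2] at h4
        linarith
      have h6 : (n1 : ℤ) ∣ k - κ' := by
        have : IsCoprime (n1 : ℤ) (N1 : ℤ) := by
          exact_mod_cast (Nat.isCoprime_iff_coprime.mpr hcop.symm)
        apply this.dvd_of_dvd_mul_right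
        exact ⟨m - l', by rw [h5]; ring⟩
      obtain ⟨i, hi⟩ := h6
      have h7 : m - l' = N1 * i := by
        have hn' : (n1 : ℤ) ≠ 0 := by exact_mod_cast hn1p.ne'
        apply mul_right_cancel₀ hn'
        rw [← h5, hi]; ring
      refine ⟨i, ?_, ?_⟩
      · show x = ((c1 + κ' * c2 : ℕ) : ℤ) + i * ((n1 * c2 : ℕ) : ℤ)
        rw [hx]; push_cast
        have : k = κ' + n1 * i := by linarith
        rw [this]; ring
      · show z = ((t1 + l' * t2 : ℕ) : ℤ) + i * ((N1 * t2 : ℕ) : ℤ)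
        rw [hz]; push_cast
        have : m = l' + N1 * i := by linarith
        rw [this]; ring

end CTD
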