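import Pool.Agent.CTD.Defs

set_option autoImplicit false

/-!
Two class transpositions, part B: the boolean lemma.
-/

namespace CTD

/-- value of `b` at the end of the step `n → n + 1` where `a = false` -/
def bA (a b : ℕ → Bool) (n : ℕ) : Bool := if a n = false then b n else b (n + 1)

/-- value of `b` at the end of the step `n → n + 1` where `a = true` -/
def bB (a b : ℕ → Bool) (n : ℕ) : Bool := if a n = false then b (n + 1) else b n

theorem bool_G (a b : ℕ → Bool) (ha : ∀ n, Even n → a (n + 1) = !a n)
    (hb : ∀ n, ¬ Even n → b (n + 1) = !b n)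
    (hG : ∀ n m, Even n → Even m → bA a b n = bA a b m) :
    ∃ N, ∀ n, N ≤ n → a (n + 2) = a n ∧ b (n + 2) = b n := by
  obtain ⟨σ, hσ⟩ : ∃ σ, ∀ n, Even n → bA a b n = σ := ⟨bA a b 0, fun n hn => hG n 0 hn (by simp)⟩
  -- points with a = false have b = σ
  have key : ∀ n, a n = false → b n = σ ∨ n = 0 := by
    intro n hn
    rcases Nat.even_or_odd n with he | ho
    · left
      have := hσ n he
      simpa [bA, hn] using this
    · left
      obtain ⟨m, rfl⟩ : ∃ m, n = m + 1 := ⟨n - 1, by rcases ho with ⟨k, hk⟩; omega⟩
      have hm : Even m := by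
        rcases ho with ⟨k, hk⟩
        exact ⟨k, by omega⟩
      have h1 := ha m hm
      rw [hn] at h1
      have h2 : a m = true := by
        revert h1
        cases a m <;> simp
      have := hσ m hm
      simpa [bA, h2] using this
  have key' : ∀ n, 1 ≤ n → a n = false → b n = σ := by
    intro n hn h
    rcases key n h with h1 | h1
    · exact h1
    · omega
  by_cases hex : ∃ n, 1 ≤ n ∧ ¬ Even n ∧ b n = σ
  · obtain ⟨n, hn1, hne, hbn⟩ := hex
    -- from n + 1 on: even m: (true, !σ), odd m: (false, σ)
    have main : ∀ j, (a (n + 1 + 2 * j) = true ∧ b (n + 1 + 2 * j) = !σ) := by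
      intro j
      induction j with
      | zero =>
        have h1 := hb n hne
        rw [hbn] at h1
        refine ⟨?_, by simpa using h1⟩
        cases h : a (n + 1 + 2 * 0) with
        | true => rfl
        | false =>
          have := key' (n + 1) (by omega) (by simpa using h)
          rw [h1] at this
          cases σ <;> simp at this
      | succ j ih =>
        obtain ⟨ih1, ih2⟩ := ih
        have hev : Even (n + 1 + 2 * j) := by
          have : ¬ Even n := hne
          rw [Nat.not_even_iff_odd] at this
          obtain ⟨k, hk⟩ := this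
          exact ⟨k + 1 + j, by omega⟩
        have h1 := ha _ hev
        rw [ih1] at h1
        have h2 := key' _ (by omega) h1
        have hod : ¬ Even (n + 1 + 2 * j + 1) := by
          rw [Nat.even_add_one]; simpa using hev
        have h3 := hb _ hod
        rw [h2] at h3
        have h4 : n + 1 + 2 * (j + 1) = n + 1 + 2 * j + 1 + 1 := by ring
        rw [h4]
        refine ⟨?_, h3⟩
        cases h : a (n + 1 + 2 * j + 1 + 1) with
        | true => rfl
        | false =>
          have := key' _ (by omega) h
          rw [h3] at this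
          cases σ <;> simp at this
    have main2 : ∀ j, (a (n + 2 + 2 * j) = false ∧ b (n + 2 + 2 * j) = σ) := by
      intro j
      have hev : Even (n + 1 + 2 * j) := by
        have : ¬ Even n := hne
        rw [Nat.not_even_iff_odd] at this
        obtain ⟨k, hk⟩ := this
        exact ⟨k + 1 + j, by omega⟩
      have h1 := ha _ hev
      rw [(main j).1] at h1
      have h4 : n + 2 + 2 * j = n + 1 + 2 * j + 1 := by ring
      rw [h4]
      exact ⟨h1, key' _ (by omega) h1⟩
    refine ⟨n + 1, fun m hm => ?_⟩
    obtain ⟨d, rfl⟩ := Nat.exists_eq_add_of_le hm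
    rcases Nat.even_or_odd' d with ⟨j, rfl | rfl⟩
    · have e1 := main j
      have e2 := main (j + 1)
      have h4 : n + 1 + 2 * j + 2 = n + 1 + 2 * (j + 1) := by ring
      rw [h4, e1.1, e1.2, e2.1, e2.2]
      exact ⟨rfl, rfl⟩
    · have e1 := main2 j
      have e2 := main2 (j + 1)
      have h4 : n + 1 + (2 * j + 1) + 2 = n + 2 + 2 * (j + 1) := by ring
      have h5 : n + 1 + (2 * j + 1) = n + 2 + 2 * j := by ring
      rw [h4, h5, e1.1, e1.2, e2.1, e2.2]
      exact ⟨rfl, rfl⟩
  · push Not at hex
    -- odd n: (true, !σ); even n ≥ 2: (false, σ)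
    have ho : ∀ n, ¬ Even n → a n = true ∧ b n = !σ := by
      intro n hn
      have h1 : 1 ≤ n := by
        rcases Nat.eq_zero_or_pos n with h | h
        · subst h; simp at hn
        · exact h
      have h2 := hex n h1 hn
      have h3 : b n = !σ := by
        revert h2
        cases b n <;> cases σ <;> simp
      refine ⟨?_, h3⟩
      cases h : a n with
      | true => rfl
      | false =>
        exact absurd (key' n h1 h) h2
    have he : ∀ n, Even n → a n = false := by
      intro n hn
      have h1 : ¬ Even (n + 1) := by rw [Nat.even_add_one]; simpa using hn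
      have h2 := (ho _ h1).1
      rw [ha n hn] at h2
      revert h2
      cases a n <;> simp
    refine ⟨1, fun n hn => ?_⟩
    rcases Nat.even_or_odd n with h | h
    · have h2 : Even (n + 2) := by
        obtain ⟨k, hk⟩ := h; exact ⟨k + 1, by omega⟩
      rw [he n h, he _ h2]
      refine ⟨rfl, ?_⟩
      rw [key' n hn (he n h), key' (n + 2) (by omega) (he _ h2)]
    · have h2 : ¬ Even (n + 2) := by
        rw [Nat.not_even_iff_odd]
        obtain ⟨k, hk⟩ := h; exact ⟨k + 1, by omega⟩
      have h3 : ¬ Even n := by rwa [Nat.not_even_iff_odd]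
      rw [(ho n h3).1, (ho n h3).2, (ho _ h2).1, (ho _ h2).2]
      exact ⟨rfl, rfl⟩

theorem bool_L (a b : ℕ → Bool) (ha : ∀ n, Even n → a (n + 1) = !a n)
    (hb : ∀ n, ¬ Even n → b (n + 1) = !b n)
    (hL : ∀ n m, Even n → Even m → bB a b n = bB a b m) :
    ∃ N, ∀ n, N ≤ n → a (n + 2) = a n ∧ b (n + 2) = b n := by
  have hA : ∀ n, Even n → bA (fun n => !a n) b n = bB a b n := by
    intro n hn
    simp only [bA, bB]
    by_cases h : a n = false
    · simp [h]
    · have h' : a n = true := by simpa using h
      simp [h']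
  obtain ⟨N, hN⟩ := bool_G (fun n => !a n) b (fun n hn => by simp [ha n hn]) hb
    (fun n m hn hm => by rw [hA n hn, hA m hm]; exact hL n m hn hm)
  refine ⟨N, fun n hn => ?_⟩
  obtain ⟨h1, h2⟩ := hN n hn
  refine ⟨?_, h2⟩
  simpa using h1

theorem bool_E (a b : ℕ → Bool)
    (hE : ∀ n m, Even n → Even m → (bA a b n = bA a b m ↔ bB a b n = bB a b m)) :
    ∃ c, ∀ n, Even n → b (n + 1) = xor (b n) c := by
  refine ⟨xor (bA a b 0) (bB a b 0), fun n hn => ?_⟩
  have h := hE n 0 hn (by simp)
  revert h
  unfold bA bB
  cases a n <;> cases a 0 <;> cases b n <;> cases b (n + 1) <;> cases b 0 <;>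
    cases b (0 + 1) <;> simp

/-- Eventually the sides are periodic with period 4. -/
theorem bool_main (a b : ℕ → Bool) (ha : ∀ n, Even n → a (n + 1) = !a n)
    (hb : ∀ n, ¬ Even n → b (n + 1) = !b n)
    (h1 : (∀ n m, Even n → Even m → (bA a b n = bA a b m ↔ bB a b n = bB a b m)) ∨
      (∀ n m, Even n → Even m → bA a b n = bA a b m) ∨
      (∀ n m, Even n → Even m → bB a b n = bB a b m))
    (h2 : (∀ n m, ¬ Even n → ¬ Even m → (bA b a n = bA b a m ↔ bB b a n = bB b a m)) ∨
      (∀ n m, ¬ Even n → ¬ Even m → bA b a n = bA b a m) ∨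
      (∀ n m, ¬ Even n → ¬ Even m → bB b a n = bB b a m)) :
    ∃ N, ∀ n, N ≤ n → a (n + 4) = a n ∧ b (n + 4) = b n := by
  have two : ∀ (a b : ℕ → Bool), (∃ N, ∀ n, N ≤ n → a (n + 2) = a n ∧ b (n + 2) = b n) →
      ∃ N, ∀ n, N ≤ n → a (n + 4) = a n ∧ b (n + 4) = b n := by
    rintro a b ⟨N, hN⟩
    refine ⟨N, fun n hn => ?_⟩
    have e1 := hN n hn
    have e2 := hN (n + 2) (by omega)
    exact ⟨e2.1.trans e1.1, e2.2.trans e1.2⟩
  rcases h1 with hE | hG | hL
  · rcases h2 with hE' | hG' | hL'
    · obtain ⟨c, hc⟩ := bool_E a b hE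
      have hE2 : ∀ n m, Even n → Even m →
          (bA (fun n => b (n + 1)) (fun n => a (n + 1)) n =
            bA (fun n => b (n + 1)) (fun n => a (n + 1)) m ↔
          bB (fun n => b (n + 1)) (fun n => a (n + 1)) n =
            bB (fun n => b (n + 1)) (fun n => a (n + 1)) m) := by
        intro n m hn hm
        exact hE' (n + 1) (m + 1) (by rw [Nat.even_add_one]; simpa using hn)
          (by rw [Nat.even_add_one]; simpa using hm)
      obtain ⟨c', hc'⟩ := bool_E _ _ hE2
      have hc'' : ∀ n, ¬ Even n → a (n + 1) = xor (a n) c' := by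
        intro n hn
        obtain ⟨m, rfl⟩ : ∃ m, n = m + 1 := by
          rw [Nat.not_even_iff_odd] at hn
          obtain ⟨k, hk⟩ := hn
          exact ⟨2 * k, hk⟩
        have hm : Even m := by
          rw [Nat.even_add_one] at hn
          simpa using hn
        exact hc' m hm
      refine ⟨0, fun n _ => ?_⟩
      rcases Nat.even_or_odd n with h | h
      · have n1 : ¬ Even (n + 1) := by rw [Nat.even_add_one]; simpa using h
        have n2 : Even (n + 1 + 1) := by rw [Nat.even_add_one]; exact n1
        have n3 : ¬ Even (n + 1 + 1 + 1) := by rw [Nat.even_add_one]; simpa using n2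
        have e1 := ha n h
        have e2 := hc'' _ n1
        have e3 := ha _ n2
        have e4 := hc'' _ n3
        have f1 := hc n h
        have f2 := hb _ n1
        have f3 := hc _ n2
        have f4 := hb _ n3
        constructor
        · show a (n + 1 + 1 + 1 + 1) = a n
          rw [e4, e3, e2, e1]
          cases a n <;> cases c' <;> rfl
        · show b (n + 1 + 1 + 1 + 1) = b n
          rw [f4, f3, f2, f1]
          cases b n <;> cases c <;> rfl
      · have n0 : ¬ Even n := by rwa [Nat.not_even_iff_odd]
        have n1 : Even (n + 1) := by rw [Nat.even_add_one]; exact n0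
        have n2 : ¬ Even (n + 1 + 1) := by rw [Nat.even_add_one]; simpa using n1
        have n3 : Even (n + 1 + 1 + 1) := by rw [Nat.even_add_one]; exact n2
        have e1 := hc'' n n0
        have e2 := ha _ n1
        have e3 := hc'' _ n2
        have e4 := ha _ n3
        have f1 := hb n n0
        have f2 := hc _ n1
        have f3 := hb _ n2
        have f4 := hc _ n3
        constructor
        · show a (n + 1 + 1 + 1 + 1) = a n
          rw [e4, e3, e2, e1]
          cases a n <;> cases c' <;> rfl
        · show b (n + 1 + 1 + 1 + 1) = b n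
          rw [f4, f3, f2, f1]
          cases b n <;> cases c <;> rfl
    · have := bool_G (fun n => b (n + 1)) (fun n => a (n + 1))
        (fun n hn => hb (n + 1) (by rw [Nat.even_add_one]; simpa using hn))
        (fun n hn => ha (n + 1) (by rw [Nat.even_add_one]; exact hn))
        (fun n m hn hm => hG' (n + 1) (m + 1) (by rw [Nat.even_add_one]; simpa using hn)
          (by rw [Nat.even_add_one]; simpa using hm))
      obtain ⟨N, hN⟩ := two (fun n => b (n + 1)) (fun n => a (n + 1)) this
      refine ⟨N + 1, fun n hn => ?_⟩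
      obtain ⟨m, rfl⟩ : ∃ m, n = m + 1 := ⟨n - 1, by omega⟩
      have := hN m (by omega)
      exact ⟨this.2, this.1⟩
    · have := bool_L (fun n => b (n + 1)) (fun n => a (n + 1))
        (fun n hn => hb (n + 1) (by rw [Nat.even_add_one]; simpa using hn))
        (fun n hn => ha (n + 1) (by rw [Nat.even_add_one]; exact hn))
        (fun n m hn hm => hL' (n + 1) (m + 1) (by rw [Nat.even_add_one]; simpa using hn)
          (by rw [Nat.even_add_one]; simpa using hm))
      obtain ⟨N, hN⟩ := two (fun n => b (n + 1)) (fun n => a (n + 1)) this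
      refine ⟨N + 1, fun n hn => ?_⟩
      obtain ⟨m, rfl⟩ : ∃ m, n = m + 1 := ⟨n - 1, by omega⟩
      have := hN m (by omega)
      exact ⟨this.2, this.1⟩
  · exact two _ _ (bool_G a b ha hb hG)
  · exact two _ _ (bool_L a b ha hb hL)

end CTD
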