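import Pool.Agent.CTD.Defs

set_option autoImplicit false

/-!
Two class transpositions, part C: prime separation.
-/

namespace CTD

/-- The side of `x`: `true` iff `x` lies in the second class. -/
def sd (t : Data) (x : ℤ) : Bool := decide (x % t.2.2 = t.2.1)

/-- `x` lies in one of the two classes. -/
def Mv (t : Data) (x : ℤ) : Prop := x ∈ cls t.1 ∨ x ∈ cls t.2

theorem mem_cls_iff (c : ℕ × ℕ) (h : c.1 < c.2) (x : ℤ) : x ∈ cls c ↔ x % c.2 = c.1 := by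
  constructor
  · rintro ⟨k, rfl⟩
    rw [Int.add_mul_emod_self_right]
    exact Int.emod_eq_of_lt (by positivity) (by exact_mod_cast h)
  · intro hx
    refine ⟨x / c.2, ?_⟩
    have := Int.emod_add_mul_ediv x c.2
    rw [hx] at this
    linarith [mul_comm (x / (c.2 : ℤ)) (c.2 : ℤ)]

theorem sd_true {t : Data} (h : IsCT t) (x : ℤ) : sd t x = true ↔ x ∈ cls t.2 := by
  rw [mem_cls_iff _ h.2.1]; simp [sd]

theorem sd_false {t : Data} (h : IsCT t) {x : ℤ} (hx : Mv t x) :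
    sd t x = false ↔ x ∈ cls t.1 := by
  constructor
  · intro h1
    rcases hx with h2 | h2
    · exact h2
    · rw [← sd_true h] at h2
      rw [h1] at h2
      simp at h2
  · intro h1
    by_contra h2
    have h3 : sd t x = true := by simpa using h2
    rw [sd_true h] at h3
    exact Set.disjoint_left.mp h.2.2 h1 h3

theorem tau_fst {t : Data} (h : IsCT t) (k : ℤ) :
    tau t (t.1.1 + k * t.1.2) = t.2.1 + k * t.2.2 := by
  have hm : (0 : ℤ) < t.1.2 := by exact_mod_cast (Nat.zero_le _).trans_lt h.1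
  unfold tau
  have h1 : ((t.1.1 : ℤ) + k * t.1.2) % t.1.2 = t.1.1 := by
    rw [Int.add_mul_emod_self_right]
    exact Int.emod_eq_of_lt (by positivity) (by exact_mod_cast h.1)
  have h2 : ((t.1.1 : ℤ) + k * t.1.2) / t.1.2 = k := by
    rw [Int.add_mul_ediv_right _ _ hm.ne']
    rw [Int.ediv_eq_zero_of_lt (by positivity) (by exact_mod_cast h.1)]
    ring
  rw [if_pos h1, h2]

theorem tau_snd {t : Data} (h : IsCT t) (k : ℤ) :
    tau t (t.2.1 + k * t.2.2) = t.1.1 + k * t.1.2 := by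
  have hm : (0 : ℤ) < t.2.2 := by exact_mod_cast (Nat.zero_le _).trans_lt h.2.1
  have h0 : ¬ ((t.2.1 : ℤ) + k * t.2.2) % t.1.2 = t.1.1 := by
    intro h1
    rw [← mem_cls_iff _ h.1] at h1
    exact Set.disjoint_left.mp h.2.2 h1 ⟨k, rfl⟩
  unfold tau
  have h1 : ((t.2.1 : ℤ) + k * t.2.2) % t.2.2 = t.2.1 := by
    rw [Int.add_mul_emod_self_right]
    exact Int.emod_eq_of_lt (by positivity) (by exact_mod_cast h.2.1)
  have h2 : ((t.2.1 : ℤ) + k * t.2.2) / t.2.2 = k := by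
    rw [Int.add_mul_ediv_right _ _ hm.ne']
    rw [Int.ediv_eq_zero_of_lt (by positivity) (by exact_mod_cast h.2.1)]
    ring
  rw [if_neg h0, if_pos h1, h2]

theorem tau_fix {t : Data} (h : IsCT t) {x : ℤ} (hx : ¬ Mv t x) : tau t x = x := by
  unfold tau
  rw [if_neg, if_neg]
  · intro h1
    exact hx (Or.inr ((mem_cls_iff _ h.2.1 x).mpr h1))
  · intro h1
    exact hx (Or.inl ((mem_cls_iff _ h.1 x).mpr h1))

theorem mv_tau {t : Data} (h : IsCT t) {x : ℤ} (hx : Mv t x) :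
    Mv t (tau t x) ∧ sd t (tau t x) = !sd t x := by
  rcases hx with ⟨k, hk⟩ | ⟨k, hk⟩
  · have h1 : tau t x = t.2.1 + k * t.2.2 := by rw [hk, tau_fst h]
    have h2 : tau t x ∈ cls t.2 := ⟨k, h1⟩
    refine ⟨Or.inr h2, ?_⟩
    rw [(sd_true h _).mpr h2, (sd_false h (Or.inl ⟨k, hk⟩)).mpr ⟨k, hk⟩]
    rfl
  · have h1 : tau t x = t.1.1 + k * t.1.2 := by rw [hk, tau_snd h]
    have h2 : tau t x ∈ cls t.1 := ⟨k, h1⟩
    refine ⟨Or.inl h2, ?_⟩
    rw [(sd_false h (Or.inl h2)).mpr h2, (sd_true h x).mpr ⟨k, hk⟩]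
    rfl

theorem mv_iff {t : Data} (h : IsCT t) (x : ℤ) : Mv t x ↔ tau t x ≠ x := by
  constructor
  · intro hx he
    have := (mv_tau h hx).2
    rw [he] at this
    cases h2 : sd t x <;> rw [h2] at this <;> simp at this
  · intro hx
    by_contra hn
    exact hx (tau_fix h hn)

theorem tau_tau {t : Data} (h : IsCT t) (x : ℤ) : tau t (tau t x) = x := by
  by_cases hx : Mv t x
  · rcases hx with ⟨k, hk⟩ | ⟨k, hk⟩
    · rw [hk, tau_fst h, tau_snd h]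
    · rw [hk, tau_snd h, tau_fst h]
  · rw [tau_fix h hx, tau_fix h hx]

/-- A prime power which separates the two classes. -/
theorem sep_prime {t : Data} (h : IsCT t) : ∃ q e : ℕ, q.Prime ∧ q ^ (e + 1) ∣ t.1.2 ∧
    q ^ (e + 1) ∣ t.2.2 ∧ ((q ^ e : ℕ) : ℤ) ∣ (t.1.1 : ℤ) - t.2.1 ∧
    ¬ ((q ^ (e + 1) : ℕ) : ℤ) ∣ (t.1.1 : ℤ) - t.2.1 := by
  have hg : ¬ (Nat.gcd t.1.2 t.2.2) ∣ ((t.1.1 : ℤ) - t.2.1).natAbs := by
    intro hd
    rw [← Int.natCast_dvd] at hd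
    obtain ⟨j, hj⟩ := hd
    have hb := Nat.gcd_eq_gcd_ab t.1.2 t.2.2
    rw [hb] at hj
    have h1 : (t.1.1 : ℤ) + (-(Nat.gcdA t.1.2 t.2.2 * j)) * t.1.2 ∈ cls t.1 := ⟨_, rfl⟩
    have h2 : (t.1.1 : ℤ) + (-(Nat.gcdA t.1.2 t.2.2 * j)) * t.1.2 ∈ cls t.2 := by
      refine ⟨Nat.gcdB t.1.2 t.2.2 * j, ?_⟩
      linear_combination hj
    exact Set.disjoint_left.mp h.2.2 h1 h2
  rw [Nat.dvd_iff_prime_pow_dvd_dvd] at hg
  push Not at hg
  obtain ⟨q, k, hq, hk, hnk⟩ := hg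
  classical
  have hex : ∃ k, ¬ q ^ k ∣ ((t.1.1 : ℤ) - t.2.1).natAbs := ⟨k, hnk⟩
  have hmin := Nat.find_spec hex
  have hle : Nat.find hex ≤ k := Nat.find_min' hex hnk
  obtain ⟨e, he⟩ : ∃ e, Nat.find hex = e + 1 := by
    rcases Nat.eq_zero_or_pos (Nat.find hex) with h0 | h0
    · rw [h0] at hmin; simp at hmin
    · exact ⟨Nat.find hex - 1, by omega⟩
  rw [he] at hmin hle
  have hlt : e < Nat.find hex := by omega
  have hdv := Nat.find_min hex hlt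
  push Not at hdv
  have hpow : q ^ (e + 1) ∣ Nat.gcd t.1.2 t.2.2 := (pow_dvd_pow q hle).trans hk
  refine ⟨q, e, hq, hpow.trans (Nat.gcd_dvd_left _ _), hpow.trans (Nat.gcd_dvd_right _ _), ?_, ?_⟩
  · rw [Int.natCast_dvd]; exact hdv
  · rw [Int.natCast_dvd]; exact hmin

theorem sep_side {t : Data} (h : IsCT t) {q e : ℕ} (h1 : q ^ (e + 1) ∣ t.1.2)
    (h2 : q ^ (e + 1) ∣ t.2.2) (h3 : ((q ^ e : ℕ) : ℤ) ∣ (t.1.1 : ℤ) - t.2.1)
    (h4 : ¬ ((q ^ (e + 1) : ℕ) : ℤ) ∣ (t.1.1 : ℤ) - t.2.1) {x y : ℤ} (hx : Mv t x)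
    (hy : Mv t y) : ((q ^ e : ℕ) : ℤ) ∣ x - y ∧
      (sd t x = sd t y ↔ ((q ^ (e + 1) : ℕ) : ℤ) ∣ x - y) := by
  have hle : ((q ^ e : ℕ) : ℤ) ∣ ((q ^ (e + 1) : ℕ) : ℤ) := by
    exact_mod_cast pow_dvd_pow q (Nat.le_succ e)
  have e1 : ((q ^ (e + 1) : ℕ) : ℤ) ∣ (t.1.2 : ℤ) := by exact_mod_cast h1
  have e2 : ((q ^ (e + 1) : ℕ) : ℤ) ∣ (t.2.2 : ℤ) := by exact_mod_cast h2
  rcases hx with ⟨k, hk⟩ | ⟨k, hk⟩ <;> rcases hy with ⟨l, hl⟩ | ⟨l, hl⟩
  · have s1 : sd t x = false := (sd_false h (Or.inl ⟨k, hk⟩)).mpr ⟨k, hk⟩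
    have s2 : sd t y = false := (sd_false h (Or.inl ⟨l, hl⟩)).mpr ⟨l, hl⟩
    have h5 : ((q ^ (e + 1) : ℕ) : ℤ) ∣ x - y := by
      have : x - y = (k - l) * t.1.2 := by rw [hk, hl]; ring
      rw [this]; exact e1.mul_left _
    exact ⟨hle.trans h5, by rw [s1, s2]; exact iff_of_true rfl h5⟩
  · have s1 : sd t x = false := (sd_false h (Or.inl ⟨k, hk⟩)).mpr ⟨k, hk⟩
    have s2 : sd t y = true := (sd_true h y).mpr ⟨l, hl⟩
    have h5 : ((q ^ (e + 1) : ℕ) : ℤ) ∣ (x - y) - ((t.1.1 : ℤ) - t.2.1) := by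
      have : (x - y) - ((t.1.1 : ℤ) - t.2.1) = k * t.1.2 - l * t.2.2 := by rw [hk, hl]; ring
      rw [this]; exact dvd_sub (e1.mul_left _) (e2.mul_left _)
    refine ⟨?_, ?_⟩
    · have := dvd_add (hle.trans h5) h3
      simpa using this
    · rw [s1, s2]
      constructor
      · intro hh; simp at hh
      · intro hh
        exfalso
        apply h4
        have := dvd_sub hh h5
        simpa using this
  · have s1 : sd t x = true := (sd_true h x).mpr ⟨k, hk⟩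
    have s2 : sd t y = false := (sd_false h (Or.inl ⟨l, hl⟩)).mpr ⟨l, hl⟩
    have h5 : ((q ^ (e + 1) : ℕ) : ℤ) ∣ (x - y) + ((t.1.1 : ℤ) - t.2.1) := by
      have : (x - y) + ((t.1.1 : ℤ) - t.2.1) = k * t.2.2 - l * t.1.2 := by rw [hk, hl]; ring
      rw [this]; exact dvd_sub (e2.mul_left _) (e1.mul_left _)
    refine ⟨?_, ?_⟩
    · have := dvd_sub (hle.trans h5) h3
      simpa using this
    · rw [s1, s2]
      constructor
      · intro hh; simp at hh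
      · intro hh
        exfalso
        apply h4
        have := dvd_sub h5 hh
        simpa using this
  · have s1 : sd t x = true := (sd_true h x).mpr ⟨k, hk⟩
    have s2 : sd t y = true := (sd_true h y).mpr ⟨l, hl⟩
    have h5 : ((q ^ (e + 1) : ℕ) : ℤ) ∣ x - y := by
      have : x - y = (k - l) * t.2.2 := by rw [hk, hl]; ring
      rw [this]; exact e2.mul_left _
    exact ⟨hle.trans h5, by rw [s1, s2]; exact iff_of_true rfl h5⟩

/-- The key separation lemma. -/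
theorem sep_main {t₁ t₂ : Data} (h1 : IsCT t₁) (h2 : IsCT t₂) :
    (∀ x y, x ∈ cls t₁.1 → y ∈ cls t₁.1 → Mv t₂ x → Mv t₂ y → Mv t₂ (tau t₁ x) →
      Mv t₂ (tau t₁ y) → (sd t₂ x = sd t₂ y ↔ sd t₂ (tau t₁ x) = sd t₂ (tau t₁ y))) ∨
    (∀ x y, x ∈ cls t₁.1 → y ∈ cls t₁.1 → Mv t₂ x → Mv t₂ y → Mv t₂ (tau t₁ x) →
      Mv t₂ (tau t₁ y) → sd t₂ x = sd t₂ y) ∨
    (∀ x y, x ∈ cls t₁.1 → y ∈ cls t₁.1 → Mv t₂ x → Mv t₂ y → Mv t₂ (tau t₁ x) →
      Mv t₂ (tau t₁ y) → sd t₂ (tau t₁ x) = sd t₂ (tau t₁ y)) := by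
  obtain ⟨q, e, hq, d1, d2, d3, d4⟩ := sep_prime h2
  have hm : t₁.1.2 ≠ 0 := by have := h1.1; omega
  have hm' : t₁.2.2 ≠ 0 := by have := h1.2.1; omega
  obtain ⟨v, c, hc, hmc⟩ := Nat.exists_eq_pow_mul_and_not_dvd hm q hq.ne_one
  obtain ⟨v', c', hc', hmc'⟩ := Nat.exists_eq_pow_mul_and_not_dvd hm' q hq.ne_one
  have rel : ∀ x y, x ∈ cls t₁.1 → y ∈ cls t₁.1 →
      (t₁.1.2 : ℤ) * (tau t₁ x - tau t₁ y) = (t₁.2.2 : ℤ) * (x - y) := by
    rintro x y ⟨k, hk⟩ ⟨l, hl⟩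
    rw [hk, hl, tau_fst h1, tau_fst h1]; ring
  have hqp : (0 : ℤ) < q := by exact_mod_cast hq.pos
  have cop : ∀ {c : ℕ}, ¬ q ∣ c → ∀ z : ℤ, ((q ^ (e + 1) : ℕ) : ℤ) ∣ c * z →
      ((q ^ (e + 1) : ℕ) : ℤ) ∣ z := by
    intro c hc z hz
    have : IsCoprime ((q ^ (e + 1) : ℕ) : ℤ) (c : ℤ) := by
      rw [Nat.isCoprime_iff_coprime]
      exact Nat.Coprime.pow_left _ ((Nat.Prime.coprime_iff_not_dvd hq).mpr hc)
    exact this.dvd_of_dvd_mul_left hz
  rcases lt_trichotomy v v' with hv | hv | hv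
  · right; right
    intro x y hx hy mx my mx' my'
    have hr := rel x y hx hy
    obtain ⟨w, rfl⟩ : ∃ w, v' = v + (w + 1) := ⟨v' - v - 1, by omega⟩
    have h3 : (c : ℤ) * (tau t₁ x - tau t₁ y) = q ^ (w + 1) * c' * (x - y) := by
      have hpos : ((q : ℤ) ^ v) ≠ 0 := by positivity
      apply mul_left_cancel₀ hpos
      rw [hmc, hmc'] at hr
      push_cast at hr
      rw [pow_add] at hr
      linear_combination hr
    rw [(sep_side h2 d1 d2 d3 d4 mx' my').2]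
    apply cop hc
    rw [h3]
    have h5 := (sep_side h2 d1 d2 d3 d4 mx my).1
    obtain ⟨z, hz⟩ := h5
    refine ⟨q ^ w * c' * z, ?_⟩
    rw [hz]; push_cast; ring
  · left
    intro x y hx hy mx my mx' my'
    have hr := rel x y hx hy
    subst hv
    have h3 : (c : ℤ) * (tau t₁ x - tau t₁ y) = c' * (x - y) := by
      have hpos : ((q : ℤ) ^ v) ≠ 0 := by positivity
      apply mul_left_cancel₀ hpos
      rw [hmc, hmc'] at hr
      push_cast at hr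
      linear_combination hr
    rw [(sep_side h2 d1 d2 d3 d4 mx' my').2, (sep_side h2 d1 d2 d3 d4 mx my).2]
    constructor
    · intro hh
      apply cop hc
      rw [h3]; exact hh.mul_left _
    · intro hh
      apply cop hc'
      rw [← h3]; exact hh.mul_left _
  · right; left
    intro x y hx hy mx my mx' my'
    have hr := rel x y hx hy
    obtain ⟨w, rfl⟩ : ∃ w, v = v' + (w + 1) := ⟨v - v' - 1, by omega⟩
    have h3 : (c' : ℤ) * (x - y) = q ^ (w + 1) * c * (tau t₁ x - tau t₁ y) := by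
      have hpos : ((q : ℤ) ^ v') ≠ 0 := by positivity
      apply mul_left_cancel₀ hpos
      rw [hmc, hmc'] at hr
      push_cast at hr
      rw [pow_add] at hr
      linear_combination -hr
    rw [(sep_side h2 d1 d2 d3 d4 mx my).2]
    apply cop hc'
    rw [h3]
    have h5 := (sep_side h2 d1 d2 d3 d4 mx' my').1
    obtain ⟨z, hz⟩ := h5
    refine ⟨q ^ w * c * z, ?_⟩
    rw [hz]; push_cast; ring

end CTD
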