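import Pool.Agent.CTD.TwoA
import Pool.Agent.CTD.TwoB
import Pool.Agent.CTD.TwoC

set_option autoImplicit false

/-!
Two class transpositions, part D: alternating paths.
-/

namespace CTD

/-- The generator used in step `n`. -/
def gen (f g : ℤ → ℤ) (n : ℕ) : ℤ → ℤ := if Even n then f else g

/-- The alternating path. -/
def path (f g : ℤ → ℤ) (x : ℤ) : ℕ → ℤ
  | 0 => x
  | n + 1 => gen f g n (path f g x n)

theorem gen_invol {f g : ℤ → ℤ} (hf : ∀ x, f (f x) = x) (hg : ∀ x, g (g x) = x) (n : ℕ)
    (x : ℤ) : gen f g n (gen f g n x) = x := by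
  unfold gen
  split_ifs
  · exact hf x
  · exact hg x

theorem gen_parity (f g : ℤ → ℤ) {n m : ℕ} (h : Even (n + m)) : gen f g n = gen f g m := by
  unfold gen
  rw [Nat.even_add] at h
  by_cases hn : Even n
  · rw [if_pos hn, if_pos (h.mp hn)]
  · rw [if_neg hn, if_neg (fun h' => hn (h.mpr h'))]

theorem path_back {f g : ℤ → ℤ} (hf : ∀ x, f (f x) = x) (hg : ∀ x, g (g x) = x) (x : ℤ)
    (n : ℕ) : gen f g n (path f g x (n + 1)) = path f g x n := by
  show gen f g n (gen f g n (path f g x n)) = path f g x n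
  exact gen_invol hf hg n _

theorem path_noninj {f g : ℤ → ℤ} (hf : ∀ x, f (f x) = x) (hg : ∀ x, g (g x) = x) (x : ℤ)
    (h : ¬ Function.Injective (path f g x)) :
    (∃ p, 0 < p ∧ Even p ∧ path f g x p = x) ∨ ∃ n, path f g x (n + 1) = path f g x n := by
  unfold Function.Injective at h
  push Not at h
  obtain ⟨i, j, hij, hne⟩ := h
  obtain ⟨i, j, hlt, hij⟩ : ∃ i j, i < j ∧ path f g x i = path f g x j := by
    rcases lt_or_gt_of_ne hne with h | h
    · exact ⟨i, j, h, hij⟩
    · exact ⟨j, i, h, hij.symm⟩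
  rcases Nat.even_or_odd (j - i) with he | ho
  · left
    obtain ⟨p, hp⟩ : ∃ p, j = i + p := ⟨j - i, by omega⟩
    have hpe : Even p := by rw [hp] at he; simpa using he
    have key : ∀ i, path f g x i = path f g x (i + p) → path f g x 0 = path f g x (0 + p) := by
      intro i
      induction i with
      | zero => exact id
      | succ i ih =>
        intro h
        apply ih
        rw [← path_back hf hg x i, h]
        have e1 : i + 1 + p = (i + p) + 1 := by ring
        rw [e1]
        have e2 : gen f g i = gen f g (i + p) := gen_parity f g (by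
          have : i + (i + p) = 2 * i + p := by ring
          rw [this]
          exact (even_two_mul i).add hpe)
        rw [e2, path_back hf hg]
    refine ⟨p, by omega, hpe, ?_⟩
    have := key i (by rw [hij, hp])
    simpa [path] using this.symm
  · right
    obtain ⟨s, hs⟩ := ho
    have key : ∀ s i, path f g x i = path f g x (i + (2 * s + 1)) →
        ∃ n, path f g x (n + 1) = path f g x n := by
      intro s
      induction s with
      | zero => intro i h; exact ⟨i, h.symm⟩
      | succ s ih =>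
        intro i h
        apply ih (i + 1)
        have e1 : i + (2 * (s + 1) + 1) = (i + 1 + (2 * s + 1)) + 1 := by ring
        rw [e1] at h
        have e2 : gen f g i = gen f g (i + 1 + (2 * s + 1)) := gen_parity f g (by
          have : i + (i + 1 + (2 * s + 1)) = 2 * (i + s + 1) := by ring
          rw [this]
          exact even_two_mul _)
        show gen f g i (path f g x i) = _
        rw [h, e2, path_back hf hg]
    exact key s i (by rw [hij]; congr 1; omega)

/-- If both alternating paths are not injective, the connected component is finite. -/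
theorem comp_finite {f g : ℤ → ℤ} (hf : ∀ x, f (f x) = x) (hg : ∀ x, g (g x) = x) (x : ℤ)
    (h1 : ¬ Function.Injective (path f g x)) (h2 : ¬ Function.Injective (path g f x)) :
    ∃ S : Set ℤ, S.Finite ∧ x ∈ S ∧ (∀ y ∈ S, f y ∈ S) ∧ (∀ y ∈ S, g y ∈ S) := by
  have per : ∀ f g : ℤ → ℤ, (∀ x, f (f x) = x) → (∀ x, g (g x) = x) →
      (∃ p, 0 < p ∧ Even p ∧ path f g x p = x) →
      ∃ S : Set ℤ, S.Finite ∧ x ∈ S ∧ (∀ y ∈ S, f y ∈ S) ∧ (∀ y ∈ S, g y ∈ S) := by
    rintro f g hf hg ⟨p, hp, hpe, hx⟩
    have fwd : ∀ i, i < p → path f g x (i + 1) ∈ path f g x '' Set.Iio p := by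
      intro i hi
      rcases Nat.lt_or_ge (i + 1) p with h | h
      · exact ⟨i + 1, h, rfl⟩
      · have : i + 1 = p := by omega
        refine ⟨0, hp, ?_⟩
        rw [this, hx]; rfl
    have bwd : ∀ i, i < p → ∃ j, j < p ∧ path f g x i = gen f g j (path f g x j) ∧
        Even (i + j + 1) := by
      intro i hi
      rcases Nat.eq_zero_or_pos i with h | h
      · subst h
        obtain ⟨r, rfl⟩ : ∃ r, p = r + 1 := ⟨p - 1, by omega⟩
        refine ⟨r, by omega, ?_, by simpa using hpe⟩
        show x = path f g x (r + 1)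
        exact hx.symm
      · obtain ⟨r, rfl⟩ : ∃ r, i = r + 1 := ⟨i - 1, by omega⟩
        exact ⟨r, by omega, rfl, ⟨r + 1, by ring⟩⟩
    have clo : ∀ i, i < p → ∀ n, gen f g n (path f g x i) ∈ path f g x '' Set.Iio p := by
      intro i hi n
      rcases Nat.even_or_odd (n + i) with h | h
      · rw [gen_parity f g h]
        exact fwd i hi
      · obtain ⟨j, hj, hj2, hj3⟩ := bwd i hi
        have h4 : gen f g n = gen f g j := gen_parity f g (by
          rw [Nat.even_add] at *
          rw [← Nat.not_even_iff_odd, Nat.even_add] at h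
          rw [Nat.even_add] at hj3
          simp only [Nat.not_even_one, iff_false] at hj3
          tauto)
        rw [h4, hj2, gen_invol hf hg]
        exact ⟨j, hj, rfl⟩
    refine ⟨path f g x '' Set.Iio p, (Set.finite_Iio p).image _, ⟨0, hp, rfl⟩, ?_, ?_⟩
    · rintro y ⟨i, hi, rfl⟩
      have := clo i hi 0
      simpa [gen] using this
    · rintro y ⟨i, hi, rfl⟩
      have := clo i hi 1
      simpa [gen] using this
  rcases path_noninj hf hg x h1 with hp | ⟨n, hn⟩
  · exact per f g hf hg hp
  rcases path_noninj hg hf x h2 with hp | ⟨m, hm⟩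
  · obtain ⟨S, a1, a2, a3, a4⟩ := per g f hg hf hp
    exact ⟨S, a1, a2, a4, a3⟩
  -- both reflect
  have clo : ∀ (f g : ℤ → ℤ), (∀ x, f (f x) = x) → (∀ x, g (g x) = x) → ∀ n,
      path f g x (n + 1) = path f g x n → ∀ i, i ≤ n → ∀ r, (i ≠ 0 ∨ Even r) →
      gen f g r (path f g x i) ∈ path f g x '' Set.Iic n := by
    intro f g hf hg n hn i hi r hr
    rcases Nat.even_or_odd (r + i) with h | h
    · rw [gen_parity f g h]
      rcases Nat.lt_or_ge i n with h' | h'
      · exact ⟨i + 1, h', rfl⟩
      · have : i = n := by omega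
        subst this
        exact ⟨i, show i ≤ i from le_refl _, hn.symm⟩
    · have hi0 : i ≠ 0 := by
        rcases hr with h1 | h1
        · exact h1
        · rintro rfl
          rw [← Nat.not_even_iff_odd] at h
          exact h (by simpa using h1)
      obtain ⟨j, rfl⟩ : ∃ j, i = j + 1 := ⟨i - 1, by omega⟩
      have h4 : gen f g r = gen f g j := gen_parity f g (by
        rw [← Nat.not_even_iff_odd] at h
        rw [← add_assoc, Nat.even_add_one] at h
        simpa using h)
      rw [h4, path_back hf hg]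
      exact ⟨j, show j ≤ n by omega, rfl⟩
  refine ⟨path f g x '' Set.Iic n ∪ path g f x '' Set.Iic m,
    ((Set.finite_Iic n).image _).union ((Set.finite_Iic m).image _),
    Or.inl ⟨0, Nat.zero_le _, rfl⟩, ?_, ?_⟩
  · rintro y (⟨i, hi, rfl⟩ | ⟨i, hi, rfl⟩)
    · left
      have := clo f g hf hg n hn i hi 0 (Or.inr (by simp))
      simpa [gen] using this
    · rcases Nat.eq_zero_or_pos i with h | h
      · subst h
        left
        have := clo f g hf hg n hn 0 (Nat.zero_le _) 0 (Or.inr (by simp))
        simpa [gen, path] using this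
      · right
        have := clo g f hg hf m hm i hi 1 (Or.inl (by omega))
        simpa [gen] using this
  · rintro y (⟨i, hi, rfl⟩ | ⟨i, hi, rfl⟩)
    · rcases Nat.eq_zero_or_pos i with h | h
      · subst h
        right
        have := clo g f hg hf m hm 0 (Nat.zero_le _) 0 (Or.inr (by simp))
        simpa [gen, path] using this
      · left
        have := clo f g hf hg n hn i hi 1 (Or.inl (by omega))
        simpa [gen] using this
    · right
      have := clo g f hg hf m hm i hi 0 (Or.inr (by simp))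
      simpa [gen] using this

/-- The source class of the branch with side `s`. -/
def src (t : Data) (s : Bool) : ℕ × ℕ := if s then t.2 else t.1

theorem src_lt {t : Data} (h : IsCT t) (s : Bool) : (src t s).1 < (src t s).2 := by
  unfold src
  cases s
  · simpa using h.1
  · simpa using h.2.1

theorem gr_tau {t : Data} (h : IsCT t) {x : ℤ} (hx : Mv t x) :
    Gr (src t (sd t x)) (src t (!sd t x)) x (tau t x) := by
  rcases hx with ⟨k, hk⟩ | ⟨k, hk⟩
  · have s1 : sd t x = false := (sd_false h (Or.inl ⟨k, hk⟩)).mpr ⟨k, hk⟩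
    rw [s1]
    exact ⟨k, by simpa [src] using hk, by rw [hk, tau_fst h]; simp [src]⟩
  · have s1 : sd t x = true := (sd_true h x).mpr ⟨k, hk⟩
    rw [s1]
    exact ⟨k, by simpa [src] using hk, by rw [hk, tau_snd h]; simp [src]⟩

theorem tau_gr {t : Data} (h : IsCT t) {s : Bool} {x y : ℤ}
    (hxy : Gr (src t s) (src t (!s)) x y) : y = tau t x := by
  obtain ⟨k, hx, hy⟩ := hxy
  cases s
  · simp only [src, Bool.false_eq_true, if_false, Bool.not_false, if_true] at hx hy
    rw [hx, tau_fst h, hy]
  · simp only [src, Bool.false_eq_true, if_false, Bool.not_true, if_true] at hx hy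
    rw [hx, tau_snd h, hy]

/-- An injective sequence of iterates of an affine branch forces an integer slope `≥ 2`. -/
theorem slope_main (u u' : ℕ × ℕ) (hu : u.1 < u.2) (hu' : u'.1 < u'.2) (w : ℕ → ℤ)
    (hw : Function.Injective w) (h : ∀ k, Gr u u' (w k) (w (k + 1))) :
    ∃ lam : ℕ, 2 ≤ lam ∧ u'.2 = lam * u.2 ∧ ((u.2 : ℕ) : ℤ) ∣ (u'.1 : ℤ) - u.1 := by
  obtain ⟨d, M⟩ := u
  obtain ⟨d', M'⟩ := u'
  simp only at hu hu' h ⊢
  have hM : 0 < M := by omega
  have hM' : 0 < M' := by omega
  have rel : ∀ k, (M : ℤ) * (w (k + 1 + 1) - w (k + 1)) = M' * (w (k + 1) - w k) := by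
    intro k
    obtain ⟨i, h1, h2⟩ := h k
    obtain ⟨j, h3, h4⟩ := h (k + 1)
    simp only at h1 h2 h3 h4
    have h5 : w (k + 1) - w k = (j - i) * M := by rw [h3, h1]; ring
    have h6 : w (k + 1 + 1) - w (k + 1) = (j - i) * M' := by rw [h4, h2]; ring
    rw [h5, h6]; ring
  obtain ⟨g, P, Q, hg, hcop, hP, hQ⟩ : ∃ g P Q : ℕ, 0 < g ∧ Nat.Coprime P Q ∧
      M' = P * g ∧ M = Q * g := by
    obtain ⟨g, m1, n1, h1, h2, h3, h4⟩ := Nat.exists_coprime' (m := M') (n := M)
      (Nat.gcd_pos_of_pos_left M hM')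
    exact ⟨g, m1, n1, h1, h2, h3, h4⟩
  have rel2 : ∀ k, (Q : ℤ) * (w (k + 1 + 1) - w (k + 1)) = P * (w (k + 1) - w k) := by
    intro k
    have h1 := rel k
    have hg' : (g : ℤ) ≠ 0 := by exact_mod_cast hg.ne'
    apply mul_left_cancel₀ hg'
    rw [hP, hQ] at h1
    push_cast at h1
    linear_combination h1
  have rel3 : ∀ k, (Q : ℤ) ^ k * (w (k + 1) - w k) = P ^ k * (w 1 - w 0) := by
    intro k
    induction k with
    | zero => simp
    | succ k ih =>
      have := rel2 k
      rw [pow_succ, pow_succ]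
      linear_combination (Q : ℤ) ^ k * this + P * ih
  have hne : w 1 - w 0 ≠ 0 := by
    intro h0
    have : w 1 = w 0 := by linarith
    exact absurd (hw this) (by norm_num)
  have hQ1 : Q = 1 := by
    by_contra hQ1
    have hQ0 : Q ≠ 0 := by
      rintro rfl; omega
    have hQ2 : 2 ≤ Q := by omega
    have hd : ∀ k, (Q ^ k : ℕ) ∣ (w 1 - w 0).natAbs := by
      intro k
      rw [← Int.natCast_dvd]
      have h1 : ((Q ^ k : ℕ) : ℤ) ∣ (P ^ k : ℕ) * (w 1 - w 0) := by
        refine ⟨w (k + 1) - w k, ?_⟩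
        push_cast
        exact (rel3 k).symm
      have h2 : IsCoprime ((Q ^ k : ℕ) : ℤ) ((P ^ k : ℕ) : ℤ) := by
        rw [Nat.isCoprime_iff_coprime]
        exact Nat.Coprime.pow _ _ hcop.symm
      exact h2.dvd_of_dvd_mul_left h1
    have h3 := Nat.le_of_dvd (Int.natAbs_pos.mpr hne) (hd (w 1 - w 0).natAbs)
    have h4 : (w 1 - w 0).natAbs < Q ^ (w 1 - w 0).natAbs := Nat.lt_pow_self (by omega)
    omega
  subst hQ1
  have hMg : M = g := by rw [hQ]; ring
  subst hMg
  have hd1 : ((M : ℕ) : ℤ) ∣ (d' : ℤ) - d := by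
    obtain ⟨i, h1, h2⟩ := h 0
    obtain ⟨j, h3, h4⟩ := h 1
    simp only [zero_add] at h1 h2 h3 h4
    refine ⟨j - i * P, ?_⟩
    rw [h2, hP] at h3
    push_cast at h3
    linear_combination h3
  refine ⟨P, ?_, hP, hd1⟩
  by_contra hP2
  have hP0 : P ≠ 0 := by rintro rfl; omega
  have hP1 : P = 1 := by omega
  subst hP1
  have hMM : M' = M := by rw [hP]; ring
  subst hMM
  have hdd : d' = d := by
    obtain ⟨j, hj⟩ := hd1
    have h1 : (d : ℤ) < M' := by exact_mod_cast hu
    have h2 : (d' : ℤ) < M' := by exact_mod_cast hu'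
    have h3 : (0 : ℤ) ≤ d := by positivity
    have h4 : (0 : ℤ) ≤ d' := by positivity
    have hMp : (0 : ℤ) < M' := by exact_mod_cast hM
    have h5 : j = 0 := by
      by_contra hj0
      rcases lt_or_gt_of_ne hj0 with h | h
      · have : (M' : ℤ) * j ≤ -M' := by nlinarith
        linarith
      · have : (M' : ℤ) ≤ M' * j := by nlinarith
        linarith
    subst h5
    have : (d' : ℤ) = d := by linarith
    exact_mod_cast this
  subst hdd
  obtain ⟨i, h1, h2⟩ := h 0
  simp only at h1 h2
  have : w (0 + 1) = w 0 := by rw [h1, h2]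
  exact absurd (hw this) (by norm_num)

end CTD
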