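import Pool.Agent.CTD.TwoD

set_option autoImplicit false

/-!
Two class transpositions, part E: an injective alternating path gives an expanding class.
-/

namespace CTD

/-- The sequence of an injective path from time 2 on: all points are moved by both. -/
theorem path_moved {t₁ t₂ : Data} (h1 : IsCT t₁) (h2 : IsCT t₂) (x : ℤ)
    (hinj : Function.Injective (path (tau t₁) (tau t₂) x)) (n : ℕ) (hn : 1 ≤ n) :
    Mv t₁ (path (tau t₁) (tau t₂) x n) ∧ Mv t₂ (path (tau t₁) (tau t₂) x n) := by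
  have hne : ∀ m, path (tau t₁) (tau t₂) x (m + 1) ≠ path (tau t₁) (tau t₂) x m := by
    intro m h
    have := hinj h
    omega
  have step : ∀ m, path (tau t₁) (tau t₂) x (m + 1) =
      gen (tau t₁) (tau t₂) m (path (tau t₁) (tau t₂) x m) := fun m => rfl
  obtain ⟨m, rfl⟩ : ∃ m, n = m + 1 := ⟨n - 1, by omega⟩
  rcases Nat.even_or_odd m with he | ho
  · have e1 : gen (tau t₁) (tau t₂) m = tau t₁ := by unfold gen; rw [if_pos he]
    have e2 : gen (tau t₁) (tau t₂) (m + 1) = tau t₂ := by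
      unfold gen; rw [if_neg]; rw [Nat.even_add_one]; simpa using he
    constructor
    · have h3 : Mv t₁ (path (tau t₁) (tau t₂) x m) := by
        rw [mv_iff h1]
        have := hne m
        rw [step m, e1] at this
        exact this
      have := (mv_tau h1 h3).1
      rw [step m, e1]; exact this
    · rw [mv_iff h2]
      have := hne (m + 1)
      rw [step (m + 1), e2] at this
      exact this
  · have hme : ¬ Even m := by rwa [Nat.not_even_iff_odd]
    have e1 : gen (tau t₁) (tau t₂) m = tau t₂ := by unfold gen; rw [if_neg hme]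
    have e2 : gen (tau t₁) (tau t₂) (m + 1) = tau t₁ := by
      unfold gen; rw [if_pos]; rw [Nat.even_add_one]; exact hme
    constructor
    · rw [mv_iff h1]
      have := hne (m + 1)
      rw [step (m + 1), e2] at this
      exact this
    · have h3 : Mv t₂ (path (tau t₁) (tau t₂) x m) := by
        rw [mv_iff h2]
        have := hne m
        rw [step m, e1] at this
        exact this
      have := (mv_tau h2 h3).1
      rw [step m, e1]; exact this

/-- The composition of four steps. -/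
def four (t₁ t₂ : Data) (x : ℤ) : ℤ := tau t₂ (tau t₁ (tau t₂ (tau t₁ x)))

/-- Expanding class, with natural parameters and bounds. -/
def ExpB (B : ℕ) (F : ℤ → ℤ) : Prop :=
  ∃ d d' M lam : ℕ, d < M ∧ M ≤ B ∧ d' < lam * M ∧ lam * M ≤ B ∧ 2 ≤ lam ∧
    (M : ℤ) ∣ (d' : ℤ) - d ∧ ∀ k : ℤ, F (d + k * M) = d' + k * (lam * M)

/-- The product of the moduli. -/
def mod4 (t₁ t₂ : Data) : ℕ := t₁.1.2 * t₁.2.2 * (t₂.1.2 * t₂.2.2)

theorem src_le {t₁ t₂ : Data} (h1 : IsCT t₁) (h2 : IsCT t₂) (s : Bool) :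
    (src t₁ s).2 ≤ mod4 t₁ t₂ ∧ (src t₂ s).2 ≤ mod4 t₁ t₂ := by
  have p1 : 0 < t₁.1.2 := by have := h1.1; omega
  have p2 : 0 < t₁.2.2 := by have := h1.2.1; omega
  have p3 : 0 < t₂.1.2 := by have := h2.1; omega
  have p4 : 0 < t₂.2.2 := by have := h2.2.1; omega
  have e : mod4 t₁ t₂ = t₁.1.2 * t₁.2.2 * (t₂.1.2 * t₂.2.2) := rfl
  have q1 : t₁.1.2 ≤ t₁.1.2 * t₁.2.2 := Nat.le_mul_of_pos_right _ p2
  have q2 : t₁.2.2 ≤ t₁.1.2 * t₁.2.2 := Nat.le_mul_of_pos_left _ p1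
  have q3 : t₂.1.2 ≤ t₂.1.2 * t₂.2.2 := Nat.le_mul_of_pos_right _ p4
  have q4 : t₂.2.2 ≤ t₂.1.2 * t₂.2.2 := Nat.le_mul_of_pos_left _ p3
  have r1 : t₁.1.2 * t₁.2.2 ≤ mod4 t₁ t₂ := by
    rw [e]; exact Nat.le_mul_of_pos_right _ (Nat.mul_pos p3 p4)
  have r2 : t₂.1.2 * t₂.2.2 ≤ mod4 t₁ t₂ := by
    rw [e]; exact Nat.le_mul_of_pos_left _ (Nat.mul_pos p1 p2)
  unfold src
  cases s
  · simp only [Bool.false_eq_true, if_false]
    exact ⟨q1.trans r1, q3.trans r2⟩
  · simp only [if_true]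
    exact ⟨q2.trans r1, q4.trans r2⟩

theorem path_expands {t₁ t₂ : Data} (h1 : IsCT t₁) (h2 : IsCT t₂) (x : ℤ)
    (hinj : Function.Injective (path (tau t₁) (tau t₂) x)) :
    ExpB (mod4 t₁ t₂ ^ 4) (four t₁ t₂) := by
  set z : ℕ → ℤ := fun n => path (tau t₁) (tau t₂) x (n + 2) with hz
  have hzinj : Function.Injective z := by
    intro n m h
    have := hinj h
    omega
  have hmv : ∀ n, Mv t₁ (z n) ∧ Mv t₂ (z n) := fun n =>
    path_moved h1 h2 x hinj (n + 2) (by omega)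
  have stepE : ∀ n, Even n → z (n + 1) = tau t₁ (z n) := by
    intro n hn
    show gen (tau t₁) (tau t₂) (n + 2) _ = _
    unfold gen
    rw [if_pos (by obtain ⟨k, hk⟩ := hn; exact ⟨k + 1, by omega⟩)]
  have stepO : ∀ n, ¬ Even n → z (n + 1) = tau t₂ (z n) := by
    intro n hn
    show gen (tau t₁) (tau t₂) (n + 2) _ = _
    unfold gen
    rw [if_neg (by
      rw [Nat.even_add_one, Nat.even_add_one]
      simpa using hn)]
  set a : ℕ → Bool := fun n => sd t₁ (z n) with ha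
  set b : ℕ → Bool := fun n => sd t₂ (z n) with hb
  have haE : ∀ n, Even n → a (n + 1) = !a n := by
    intro n hn
    show sd t₁ (z (n + 1)) = !sd t₁ (z n)
    rw [stepE n hn]
    exact (mv_tau h1 (hmv n).1).2
  have hbO : ∀ n, ¬ Even n → b (n + 1) = !b n := by
    intro n hn
    show sd t₂ (z (n + 1)) = !sd t₂ (z n)
    rw [stepO n hn]
    exact (mv_tau h2 (hmv n).2).2
  -- ends of the steps
  have endE : ∀ n, Even n → ∃ y, y ∈ cls t₁.1 ∧ Mv t₂ y ∧ Mv t₂ (tau t₁ y) ∧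
      bA a b n = sd t₂ y ∧ bB a b n = sd t₂ (tau t₁ y) := by
    intro n hn
    cases h : a n with
    | false =>
      refine ⟨z n, (sd_false h1 (hmv n).1).mp h, (hmv n).2, ?_, ?_, ?_⟩
      · rw [← stepE n hn]; exact (hmv (n + 1)).2
      · simp [bA, h, hb]
      · rw [← stepE n hn]; simp [bB, h, hb]
    | true =>
      have h3 : a (n + 1) = false := by rw [haE n hn, h]; rfl
      have h4 : tau t₁ (z (n + 1)) = z n := by rw [stepE n hn, tau_tau h1]
      refine ⟨z (n + 1), (sd_false h1 (hmv (n + 1)).1).mp h3, (hmv (n + 1)).2, ?_, ?_, ?_⟩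
      · rw [h4]; exact (hmv n).2
      · simp [bA, h, hb]
      · rw [h4]; simp [bB, h, hb]
  have endO : ∀ n, ¬ Even n → ∃ y, y ∈ cls t₂.1 ∧ Mv t₁ y ∧ Mv t₁ (tau t₂ y) ∧
      bA b a n = sd t₁ y ∧ bB b a n = sd t₁ (tau t₂ y) := by
    intro n hn
    cases h : b n with
    | false =>
      refine ⟨z n, (sd_false h2 (hmv n).2).mp h, (hmv n).1, ?_, ?_, ?_⟩
      · rw [← stepO n hn]; exact (hmv (n + 1)).1
      · simp [bA, h, ha]
      · rw [← stepO n hn]; simp [bB, h, ha]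
    | true =>
      have h3 : b (n + 1) = false := by rw [hbO n hn, h]; rfl
      have h4 : tau t₂ (z (n + 1)) = z n := by rw [stepO n hn, tau_tau h2]
      refine ⟨z (n + 1), (sd_false h2 (hmv (n + 1)).2).mp h3, (hmv (n + 1)).1, ?_, ?_, ?_⟩
      · rw [h4]; exact (hmv n).1
      · simp [bA, h, ha]
      · rw [h4]; simp [bB, h, ha]
  have c1 : (∀ n m, Even n → Even m → (bA a b n = bA a b m ↔ bB a b n = bB a b m)) ∨
      (∀ n m, Even n → Even m → bA a b n = bA a b m) ∨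
      (∀ n m, Even n → Even m → bB a b n = bB a b m) := by
    rcases sep_main h1 h2 with h | h | h
    · left
      intro n m hn hm
      obtain ⟨y, y1, y2, y3, y4, y5⟩ := endE n hn
      obtain ⟨y', y1', y2', y3', y4', y5'⟩ := endE m hm
      rw [y4, y4', y5, y5']
      exact h y y' y1 y1' y2 y2' y3 y3'
    · right; left
      intro n m hn hm
      obtain ⟨y, y1, y2, y3, y4, y5⟩ := endE n hn
      obtain ⟨y', y1', y2', y3', y4', y5'⟩ := endE m hm
      rw [y4, y4']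
      exact h y y' y1 y1' y2 y2' y3 y3'
    · right; right
      intro n m hn hm
      obtain ⟨y, y1, y2, y3, y4, y5⟩ := endE n hn
      obtain ⟨y', y1', y2', y3', y4', y5'⟩ := endE m hm
      rw [y5, y5']
      exact h y y' y1 y1' y2 y2' y3 y3'
  have c2 : (∀ n m, ¬ Even n → ¬ Even m → (bA b a n = bA b a m ↔ bB b a n = bB b a m)) ∨
      (∀ n m, ¬ Even n → ¬ Even m → bA b a n = bA b a m) ∨
      (∀ n m, ¬ Even n → ¬ Even m → bB b a n = bB b a m) := by
    rcases sep_main h2 h1 with h | h | h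
    · left
      intro n m hn hm
      obtain ⟨y, y1, y2, y3, y4, y5⟩ := endO n hn
      obtain ⟨y', y1', y2', y3', y4', y5'⟩ := endO m hm
      rw [y4, y4', y5, y5']
      exact h y y' y1 y1' y2 y2' y3 y3'
    · right; left
      intro n m hn hm
      obtain ⟨y, y1, y2, y3, y4, y5⟩ := endO n hn
      obtain ⟨y', y1', y2', y3', y4', y5'⟩ := endO m hm
      rw [y4, y4']
      exact h y y' y1 y1' y2 y2' y3 y3'
    · right; right
      intro n m hn hm
      obtain ⟨y, y1, y2, y3, y4, y5⟩ := endO n hn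
      obtain ⟨y', y1', y2', y3', y4', y5'⟩ := endO m hm
      rw [y5, y5']
      exact h y y' y1 y1' y2 y2' y3 y3'
  obtain ⟨N, hN⟩ := bool_main a b haE hbO c1 c2
  -- the sides of the four branches
  have hper : ∀ k i, a (2 * N + i + 4 * k) = a (2 * N + i) ∧
      b (2 * N + i + 4 * k) = b (2 * N + i) := by
    intro k i
    induction k with
    | zero => simp
    | succ k ih =>
      have e : 2 * N + i + 4 * (k + 1) = (2 * N + i + 4 * k) + 4 := by ring
      have h3 := hN (2 * N + i + 4 * k) (by omega)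
      rw [e, h3.1, h3.2]
      exact ih
  set s0 := a (2 * N)
  set s1 := b (2 * N + 1)
  set s2 := a (2 * N + 2)
  set s3 := b (2 * N + 3)
  have ev : ∀ k, Even (2 * N + 4 * k) := fun k => ⟨N + 2 * k, by ring⟩
  have g0 : ∀ k, Gr (src t₁ s0) (src t₁ (!s0)) (z (2 * N + 4 * k)) (z (2 * N + 4 * k + 1)) := by
    intro k
    have h3 := gr_tau h1 (hmv (2 * N + 4 * k)).1
    rw [← stepE _ (ev k)] at h3
    have h4 : sd t₁ (z (2 * N + 4 * k)) = s0 := by
      have := (hper k 0).1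
      simpa using this
    rw [h4] at h3
    exact h3
  have g1 : ∀ k, Gr (src t₂ s1) (src t₂ (!s1)) (z (2 * N + 4 * k + 1))
      (z (2 * N + 4 * k + 1 + 1)) := by
    intro k
    have h3 := gr_tau h2 (hmv (2 * N + 4 * k + 1)).2
    have hodd : ¬ Even (2 * N + 4 * k + 1) := by rw [Nat.even_add_one]; simpa using ev k
    rw [← stepO _ hodd] at h3
    have h4 : sd t₂ (z (2 * N + 4 * k + 1)) = s1 := by
      have := (hper k 1).2
      have e : 2 * N + 1 + 4 * k = 2 * N + 4 * k + 1 := by ring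
      rw [e] at this
      exact this
    rw [h4] at h3
    exact h3
  have g2 : ∀ k, Gr (src t₁ s2) (src t₁ (!s2)) (z (2 * N + 4 * k + 1 + 1))
      (z (2 * N + 4 * k + 1 + 1 + 1)) := by
    intro k
    have h3 := gr_tau h1 (hmv (2 * N + 4 * k + 1 + 1)).1
    have heven : Even (2 * N + 4 * k + 1 + 1) := ⟨N + 2 * k + 1, by ring⟩
    rw [← stepE _ heven] at h3
    have h4 : sd t₁ (z (2 * N + 4 * k + 1 + 1)) = s2 := by
      have := (hper k 2).1
      have e : 2 * N + 2 + 4 * k = 2 * N + 4 * k + 1 + 1 := by ring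
      rw [e] at this
      exact this
    rw [h4] at h3
    exact h3
  have g3 : ∀ k, Gr (src t₂ s3) (src t₂ (!s3)) (z (2 * N + 4 * k + 1 + 1 + 1))
      (z (2 * N + 4 * k + 1 + 1 + 1 + 1)) := by
    intro k
    have h3 := gr_tau h2 (hmv (2 * N + 4 * k + 1 + 1 + 1)).2
    have hodd : ¬ Even (2 * N + 4 * k + 1 + 1 + 1) := by
      rw [Nat.even_add_one]
      have : Even (2 * N + 4 * k + 1 + 1) := ⟨N + 2 * k + 1, by ring⟩
      simpa using this
    rw [← stepO _ hodd] at h3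
    have h4 : sd t₂ (z (2 * N + 4 * k + 1 + 1 + 1)) = s3 := by
      have := (hper k 3).2
      have e : 2 * N + 3 + 4 * k = 2 * N + 4 * k + 1 + 1 + 1 := by ring
      rw [e] at this
      exact this
    rw [h4] at h3
    exact h3
  -- compose
  obtain ⟨u1, v1, lu1, lv1, bu1, bv1, r1⟩ := gr_comp (src t₁ s0) (src t₁ (!s0)) (src t₂ s1)
    (src t₂ (!s1)) (src_lt h1 _) (src_lt h1 _) (src_lt h2 _) (src_lt h2 _)
    ⟨_, _, _, g0 0, g1 0⟩
  have k1 : ∀ k, Gr u1 v1 (z (2 * N + 4 * k)) (z (2 * N + 4 * k + 1 + 1)) := fun k =>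
    (r1 _ _).mpr ⟨_, g0 k, g1 k⟩
  obtain ⟨u2, v2, lu2, lv2, bu2, bv2, r2⟩ := gr_comp u1 v1 (src t₁ s2) (src t₁ (!s2))
    lu1 lv1 (src_lt h1 _) (src_lt h1 _) ⟨_, _, _, k1 0, g2 0⟩
  have k2 : ∀ k, Gr u2 v2 (z (2 * N + 4 * k)) (z (2 * N + 4 * k + 1 + 1 + 1)) := fun k =>
    (r2 _ _).mpr ⟨_, k1 k, g2 k⟩
  obtain ⟨u3, v3, lu3, lv3, bu3, bv3, r3⟩ := gr_comp u2 v2 (src t₂ s3) (src t₂ (!s3))
    lu2 lv2 (src_lt h2 _) (src_lt h2 _) ⟨_, _, _, k2 0, g3 0⟩
  have k3 : ∀ k, Gr u3 v3 (z (2 * N + 4 * k)) (z (2 * N + 4 * k + 1 + 1 + 1 + 1)) := fun k =>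
    (r3 _ _).mpr ⟨_, k2 k, g3 k⟩
  obtain ⟨lam, hl1, hl2, hl3⟩ := slope_main u3 v3 lu3 lv3 (fun k => z (2 * N + 4 * k))
    (by
      intro i j hij
      have := hzinj hij
      omega)
    (fun k => by
      have e : 2 * N + 4 * (k + 1) = 2 * N + 4 * k + 1 + 1 + 1 + 1 := by ring
      rw [e]
      exact k3 k)
  have hF : ∀ x y, Gr u3 v3 x y → y = four t₁ t₂ x := by
    intro x y hxy
    obtain ⟨y3, hy3, hy3'⟩ := (r3 x y).mp hxy
    obtain ⟨y2, hy2, hy2'⟩ := (r2 x y3).mp hy3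
    obtain ⟨y1, hy1, hy1'⟩ := (r1 x y2).mp hy2
    have e1 := tau_gr h1 hy1
    have e2 := tau_gr h2 hy1'
    have e3 := tau_gr h1 hy2'
    have e4 := tau_gr h2 hy3'
    rw [e4, e3, e2, e1]; rfl
  have B1 := fun s => (src_le h1 h2 s).1
  have B2 := fun s => (src_le h1 h2 s).2
  have pow4 : mod4 t₁ t₂ ^ 4 = mod4 t₁ t₂ * mod4 t₁ t₂ * mod4 t₁ t₂ * mod4 t₁ t₂ := by ring
  have bd1 : u3.2 ≤ mod4 t₁ t₂ ^ 4 := by
    rw [pow4]
    exact bu3.trans (Nat.mul_le_mul (bu2.trans (Nat.mul_le_mul (bu1.trans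
      (Nat.mul_le_mul (B1 _) (B2 _))) (B1 _))) (B2 _))
  have bd2 : v3.2 ≤ mod4 t₁ t₂ ^ 4 := by
    rw [pow4]
    exact bv3.trans (Nat.mul_le_mul (bv2.trans (Nat.mul_le_mul (bv1.trans
      (Nat.mul_le_mul (B1 _) (B2 _))) (B1 _))) (B2 _))
  refine ⟨u3.1, v3.1, u3.2, lam, lu3, bd1, by rw [← hl2]; exact lv3, by rw [← hl2]; exact bd2,
    hl1, hl3, ?_⟩
  intro k
  have := hF _ _ (⟨k, rfl, rfl⟩ : Gr u3 v3 (u3.1 + k * u3.2) (v3.1 + k * v3.2))
  rw [← this, hl2]
  push_cast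
  ring

end CTD
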