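import Pool.Agent.CTD.TwoE
import Pool.Agent.CTD.P_ORB

set_option autoImplicit false

/-!
Two class transpositions, part F: infinite orbits and expanding classes.
-/

namespace CTD



theorem pair_ct {t₁ t₂ : Data} (h1 : IsCT t₁) (h2 : IsCT t₂) : ∀ t ∈ [t₁, t₂], IsCT t := by
  intro t ht
  simp only [List.mem_cons, List.not_mem_nil, or_false] at ht
  rcases ht with rfl | rfl
  · exact h1
  · exact h2

theorem conn_sub {t₁ t₂ : Data} {x : ℤ} {S : Set ℤ} (hx : x ∈ S)
    (h1 : ∀ y ∈ S, tau t₁ y ∈ S) (h2 : ∀ y ∈ S, tau t₂ y ∈ S) :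
    {y | Conn [t₁, t₂] x y} ⊆ S := by
  intro y hy
  induction hy with
  | refl => exact hx
  | tail _ hs ih =>
    obtain ⟨t, ht, rfl⟩ := hs
    simp only [List.mem_cons, List.not_mem_nil, or_false] at ht
    rcases ht with rfl | rfl
    · exact h1 _ ih
    · exact h2 _ ih

theorem conn_step {L : List Data} {t : Data} (ht : t ∈ L) (x : ℤ) : Conn L x (tau t x) :=
  Relation.ReflTransGen.single ⟨t, ht, rfl⟩

theorem conn_four {t₁ t₂ : Data} {L : List Data} (h1 : t₁ ∈ L) (h2 : t₂ ∈ L) (x : ℤ) :
    Conn L x (four t₁ t₂ x) :=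
  (((conn_step h1 x).trans (conn_step h2 _)).trans (conn_step h1 _)).trans (conn_step h2 _)

/-- `F` maps a residue class into itself with integer slope at least 2. -/
def ExpZ (F : ℤ → ℤ) : Prop :=
  ∃ d d' M lam : ℤ, 0 < M ∧ 2 ≤ lam ∧ M ∣ d' - d ∧ ∀ k : ℤ, F (d + k * M) = d' + k * (lam * M)

theorem expZ_of_expB {B : ℕ} {F : ℤ → ℤ} (h : ExpB B F) : ExpZ F := by
  obtain ⟨d, d', M, lam, h1, h2, h3, h4, h5, h6, h7⟩ := h
  exact ⟨d, d', M, lam, by exact_mod_cast (Nat.zero_le _).trans_lt h1, by exact_mod_cast h5,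
    h6, h7⟩

/-- An expanding class gives an infinite component. -/
theorem exp_infinite {L : List Data} {F : ℤ → ℤ} (hF : ∀ x, Conn L x (F x)) (h : ExpZ F) :
    ∃ x : ℤ, ¬ {y | Conn L x y}.Finite := by
  obtain ⟨d, d', M, lam, hM, hlam, ⟨j, hj⟩, hk⟩ := h
  -- index map k ↦ j + k lam
  have hd : ∀ k : ℤ, F (d + k * M) = d + (j + k * lam) * M := by
    intro k
    rw [hk]
    linear_combination hj
  obtain ⟨k0, hk0⟩ : ∃ k0 : ℤ, j + k0 * lam ≠ k0 := by
    by_cases h0 : j + 0 * lam = 0
    · refine ⟨1, ?_⟩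
      intro h1
      have : j = 0 := by simpa using h0
      rw [this] at h1
      omega
    · exact ⟨0, h0⟩
  set s : ℕ → ℤ := fun n => Nat.rec (motive := fun _ => ℤ) k0 (fun _ k => j + k * lam) n with hs
  have s0 : s 0 = k0 := rfl
  have s1 : ∀ n, s (n + 1) = j + s n * lam := fun n => rfl
  have hdiff : ∀ n, s (n + 1) - s n = lam ^ n * (s 1 - s 0) := by
    intro n
    induction n with
    | zero => simp
    | succ n ih =>
      have e1 := s1 (n + 1)
      have e2 := s1 n
      rw [pow_succ]
      linear_combination e1 - e2 + lam * ih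
  have hne : s 1 - s 0 ≠ 0 := by
    have : s 1 = j + k0 * lam := s1 0
    rw [this, s0]
    intro h
    exact hk0 (by linarith)
  have hinj : Function.Injective s := by
    rcases lt_or_gt_of_ne hne with h | h
    · apply StrictAnti.injective
      apply strictAnti_nat_of_succ_lt
      intro n
      have h1 := hdiff n
      have h2 : (0 : ℤ) < lam ^ n := by positivity
      nlinarith
    · apply StrictMono.injective
      apply strictMono_nat_of_lt_succ
      intro n
      have h1 := hdiff n
      have h2 : (0 : ℤ) < lam ^ n := by positivity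
      nlinarith
  refine ⟨d + k0 * M, fun hfin => ?_⟩
  have hmem : ∀ n, Conn L (d + k0 * M) (d + s n * M) := by
    intro n
    induction n with
    | zero => exact Relation.ReflTransGen.refl
    | succ n ih =>
      have := hF (d + s n * M)
      rw [hd] at this
      exact ih.trans this
  have hinf : (Set.range fun n => d + s n * M).Infinite := by
    apply Set.infinite_range_of_injective
    intro a b hab
    simp only at hab
    apply hinj
    have h1 : s a * M = s b * M := by linarith
    exact mul_right_cancel₀ hM.ne' h1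
  apply hinf
  apply hfin.subset
  rintro _ ⟨n, rfl⟩
  exact hmem n

theorem mod4_comm (t₁ t₂ : Data) : mod4 t₁ t₂ = mod4 t₂ t₁ := by unfold mod4; ring

/-- Two class transpositions: an infinite component exists iff a word of length four expands a
residue class. -/
theorem two_iff {t₁ t₂ : Data} (h1 : IsCT t₁) (h2 : IsCT t₂) :
    ¬ FinOrb [t₁, t₂] ↔ (ExpB (mod4 t₁ t₂ ^ 4) (four t₁ t₂) ∨
      ExpB (mod4 t₁ t₂ ^ 4) (four t₂ t₁)) := by
  rw [ORB_fin (pair_ct h1 h2)]
  constructor
  · intro h
    push Not at h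
    obtain ⟨x, hx⟩ := h
    by_contra hcon
    push Not at hcon
    have n1 : ¬ Function.Injective (path (tau t₁) (tau t₂) x) := fun hi =>
      hcon.1 (path_expands h1 h2 x hi)
    have n2 : ¬ Function.Injective (path (tau t₂) (tau t₁) x) := fun hi =>
      hcon.2 (by rw [mod4_comm]; exact path_expands h2 h1 x hi)
    obtain ⟨S, hS, hxS, c1, c2⟩ := comp_finite (tau_tau h1) (tau_tau h2) x n1 n2
    exact hx (hS.subset (conn_sub hxS c1 c2))
  · rintro (h | h)
    · obtain ⟨x, hx⟩ := exp_infinite (L := [t₁, t₂]) (conn_four (by simp) (by simp))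
        (expZ_of_expB h)
      exact fun hall => hx (hall x)
    · obtain ⟨x, hx⟩ := exp_infinite (L := [t₁, t₂]) (conn_four (by simp) (by simp))
        (expZ_of_expB h)
      exact fun hall => hx (hall x)

/-- Being expanding does not depend on bounds. -/
theorem two_iff' {t₁ t₂ : Data} (h1 : IsCT t₁) (h2 : IsCT t₂) :
    ¬ FinOrb [t₁, t₂] ↔ (ExpZ (four t₁ t₂) ∨ ExpZ (four t₂ t₁)) := by
  constructor
  · intro h
    rcases (two_iff h1 h2).mp h with h | h
    · exact Or.inl (expZ_of_expB h)
    · exact Or.inr (expZ_of_expB h)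
  · rw [ORB_fin (pair_ct h1 h2)]
    rintro (h | h)
    · obtain ⟨x, hx⟩ := exp_infinite (L := [t₁, t₂]) (conn_four (by simp) (by simp)) h
      exact fun hall => hx (hall x)
    · obtain ⟨x, hx⟩ := exp_infinite (L := [t₁, t₂]) (conn_four (by simp) (by simp)) h
      exact fun hall => hx (hall x)

end CTD
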