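import Pool.Agent.CTD.TwoF

set_option autoImplicit false

/-!
Two class transpositions, part G: infinitely many orbits on the support.
-/

namespace CTD



theorem conj_pow (g₁ g₂ : Equiv.Perm ℤ) (i1 : g₁ * g₁ = 1) (i2 : g₂ * g₂ = 1) (k : ℤ) (x : ℤ) :
    g₁ (((g₂ * g₁) ^ k) x) = ((g₂ * g₁) ^ (-k)) (g₁ x) := by
  have j1 : g₁⁻¹ = g₁ := inv_eq_of_mul_eq_one_right i1
  have j2 : g₂⁻¹ = g₂ := inv_eq_of_mul_eq_one_right i2
  have h1 : g₁ * (g₂ * g₁) * g₁⁻¹ = (g₂ * g₁)⁻¹ := by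
    rw [mul_inv_rev, j1, j2]
    rw [mul_assoc, mul_assoc, i1, mul_one]
  have h2 : g₁ * (g₂ * g₁) ^ k * g₁⁻¹ = (g₂ * g₁) ^ (-k) := by
    rw [← conj_zpow, h1, inv_zpow, zpow_neg]
  have h3 : g₁ * (g₂ * g₁) ^ k = (g₂ * g₁) ^ (-k) * g₁ := by
    rw [← h2, inv_mul_cancel_right]
  have := congrArg (fun g : Equiv.Perm ℤ => g x) h3
  simpa [Equiv.Perm.mul_apply] using this

theorem conn_zpow {t₁ t₂ : Data} (h1 : IsCT t₁) (h2 : IsCT t₂) (g₁ g₂ : Equiv.Perm ℤ)
    (e1 : ∀ x, g₁ x = tau t₁ x) (e2 : ∀ x, g₂ x = tau t₂ x) (y x : ℤ)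
    (h : Conn [t₁, t₂] y x) :
    ∃ k : ℤ, x = ((g₂ * g₁) ^ k) y ∨ x = ((g₂ * g₁) ^ k) (g₁ y) := by
  have i1 : g₁ * g₁ = 1 := by
    ext z; rw [Equiv.Perm.mul_apply, e1, e1, tau_tau h1]; rfl
  have i2 : g₂ * g₂ = 1 := by
    ext z; rw [Equiv.Perm.mul_apply, e2, e2, tau_tau h2]; rfl
  have c1 := conj_pow g₁ g₂ i1 i2
  have c2 : ∀ z : ℤ, g₂ z = (g₂ * g₁) (g₁ z) := by
    intro z
    rw [Equiv.Perm.mul_apply]
    have : g₁ (g₁ z) = z := by rw [e1, e1, tau_tau h1]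
    rw [this]
  have c3 : ∀ z : ℤ, g₁ (g₁ z) = z := fun z => by rw [e1, e1, tau_tau h1]
  induction h with
  | refl => exact ⟨0, Or.inl (by simp)⟩
  | tail _ hs ih =>
    obtain ⟨t, ht, rfl⟩ := hs
    obtain ⟨k, hk⟩ := ih
    simp only [List.mem_cons, List.not_mem_nil, or_false] at ht
    rcases ht with rfl | rfl
    · rcases hk with rfl | rfl
      · exact ⟨-k, Or.inr (by rw [← e1, c1])⟩
      · exact ⟨-k, Or.inl (by rw [← e1, c1, c3])⟩
    · rcases hk with rfl | rfl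
      · refine ⟨1 + -k, Or.inr ?_⟩
        rw [← e2, c2, c1, zpow_add, zpow_one]
        rfl
      · refine ⟨1 + -k, Or.inl ?_⟩
        rw [← e2, c2, c1, c3, zpow_add, zpow_one]
        rfl

theorem four_zpow {t₁ t₂ : Data} (g₁ g₂ : Equiv.Perm ℤ)
    (e1 : ∀ x, g₁ x = tau t₁ x) (e2 : ∀ x, g₂ x = tau t₂ x) (m : ℕ) (x : ℤ) :
    ((g₂ * g₁) ^ (2 * (m : ℤ))) x = (four t₁ t₂)^[m] x := by
  induction m generalizing x with
  | zero => simp
  | succ m ih =>
    rw [Function.iterate_succ_apply, ← ih]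
    have : (2 * ((m + 1 : ℕ) : ℤ)) = 2 * (m : ℤ) + 2 := by push_cast; ring
    rw [this, zpow_add, Equiv.Perm.mul_apply]
    congr 1
    have h2 : ((g₂ * g₁) ^ (2 : ℤ)) = (g₂ * g₁) * (g₂ * g₁) := by
      rw [zpow_two]
    rw [h2]
    simp only [Equiv.Perm.mul_apply, e1, e2]
    rfl

theorem many_of_exp {t₁ t₂ : Data} (h1 : IsCT t₁) (h2 : IsCT t₂) {B : ℕ}
    (hE : ExpB B (four t₁ t₂)) (S : Finset ℤ) :
    ∃ x : ℤ, 0 ≤ x ∧ x ∈ supp [t₁, t₂] ∧ ∀ y ∈ S, ¬ Conn [t₁, t₂] y x := by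
  obtain ⟨g₁, hg₁⟩ := BAS_exists h1
  obtain ⟨g₂, hg₂⟩ := BAS_exists h2
  have e1 := (BAS_is h1 g₁).mp hg₁
  have e2 := (BAS_is h2 g₂).mp hg₂
  obtain ⟨d, d', M, lam, b1, b2, b3, b4, b5, ⟨j, hj⟩, hF⟩ := hE
  have hM : (0 : ℤ) < M := by exact_mod_cast (Nat.zero_le _).trans_lt b1
  have hdM : (d : ℤ) < M := by exact_mod_cast b1
  have hlam : (2 : ℤ) ≤ lam := by exact_mod_cast b5
  have hj0 : 0 ≤ j := by
    by_contra hcon
    push Not at hcon
    have h3 : (M : ℤ) * j ≤ -M := by nlinarith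
    have h4 : (0 : ℤ) ≤ d' := by positivity
    linarith
  have hd : ∀ k : ℤ, four t₁ t₂ (d + k * M) = d + (j + k * lam) * M := by
    intro k
    rw [hF]
    linear_combination hj
  set X : ℕ → ℤ := fun n => d + (j + 1 + lam * n) * M with hX
  have hXnn : ∀ n, 0 ≤ X n := by
    intro n
    simp only [hX]
    positivity
  have hXinj : Function.Injective X := by
    intro a b hab
    simp only [hX] at hab
    have h3 : (j + 1 + lam * (a : ℤ)) * M = (j + 1 + lam * (b : ℤ)) * M := by linarith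
    have h4 := mul_right_cancel₀ hM.ne' h3
    have h5 : (lam : ℤ) * a = lam * b := by linarith
    have h6 := mul_left_cancel₀ (by omega : (lam : ℤ) ≠ 0) h5
    exact_mod_cast h6
  have hXsupp : ∀ n, X n ∈ supp [t₁, t₂] := by
    intro n
    rw [ORB_supp (pair_ct h1 h2)]
    by_contra hcon
    push Not at hcon
    have m1 : ¬ Mv t₁ (X n) := by
      intro hm
      have := hcon t₁ (by simp)
      rcases hm with hm | hm
      · exact this.1 hm
      · exact this.2 hm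
    have m2 : ¬ Mv t₂ (X n) := by
      intro hm
      have := hcon t₂ (by simp)
      rcases hm with hm | hm
      · exact this.1 hm
      · exact this.2 hm
    have f1 := tau_fix h1 m1
    have f2 := tau_fix h2 m2
    have f3 : four t₁ t₂ (X n) = X n := by
      unfold four; rw [f1, f2, f1, f2]
    have f4 := hd (j + 1 + lam * n)
    rw [show (d : ℤ) + (j + 1 + lam * n) * M = X n from rfl, f3] at f4
    simp only [hX] at f4
    have f5 : (j + 1 + lam * (n : ℤ)) * M = (j + (j + 1 + lam * n) * lam) * M := by linarith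
    have f6 := mul_right_cancel₀ hM.ne' f5
    have f7 : (0 : ℤ) ≤ lam * n := by positivity
    nlinarith
  -- iterates stay in the class and are in the image
  have hiter : ∀ (m : ℕ) (k : ℤ), ∃ k' : ℤ, (four t₁ t₂)^[m + 1] (d + k * M) =
      d + (j + k' * lam) * M := by
    intro m
    induction m with
    | zero => intro k; exact ⟨k, by simpa using hd k⟩
    | succ m ih =>
      intro k
      rw [Function.iterate_succ_apply, hd]
      exact ih (j + k * lam)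
  have hnot : ∀ (m : ℕ) (n n' : ℕ), X n ≠ (four t₁ t₂)^[m + 1] (X n') := by
    intro m n n' he
    obtain ⟨k', hk'⟩ := hiter m (j + 1 + lam * n')
    rw [show (d : ℤ) + (j + 1 + lam * n') * M = X n' from rfl, ← he] at hk'
    simp only [hX] at hk'
    have f5 : (j + 1 + lam * (n : ℤ)) * M = (j + k' * lam) * M := by linarith
    have f6 := mul_right_cancel₀ hM.ne' f5
    have f7 : (lam : ℤ) * (k' - n) = 1 := by linarith
    have f8 : (lam : ℤ) ∣ 1 := ⟨_, f7.symm⟩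
    have f9 := Int.le_of_dvd one_pos f8
    omega
  have hfin : ∀ y : ℤ, {n : ℕ | Conn [t₁, t₂] y (X n)}.Finite := by
    intro y
    by_contra hinf
    have hinf' : Infinite {n : ℕ | Conn [t₁, t₂] y (X n)} := Set.infinite_coe_iff.mpr hinf
    classical
    have hc : ∀ n : {n : ℕ | Conn [t₁, t₂] y (X n)}, ∃ k : ℤ, ∃ u : Bool,
        X n = ((g₂ * g₁) ^ k) (if u then y else g₁ y) := by
      rintro ⟨n, hn⟩
      obtain ⟨k, hk | hk⟩ := conn_zpow h1 h2 g₁ g₂ e1 e2 y (X n) hn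
      · exact ⟨k, true, by simpa using hk⟩
      · exact ⟨k, false, by simpa using hk⟩
    choose kk uu hku using hc
    obtain ⟨a, b, hab, hf⟩ := Finite.exists_ne_map_eq_of_infinite
      (fun n => (uu n, decide (Even (kk n))))
    simp only [Prod.mk.injEq] at hf
    obtain ⟨hf1, hf2⟩ := hf
    have hpar : Even (kk a - kk b) := by
      rw [Int.even_sub]
      simpa using hf2
    have hrel : X a = ((g₂ * g₁) ^ (kk a - kk b)) (X b) := by
      rw [hku a, hku b, hf1, ← Equiv.Perm.mul_apply, ← zpow_add]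
      congr 2
      ring
    obtain ⟨m, hm⟩ := hpar
    rcases lt_trichotomy m 0 with hm0 | hm0 | hm0
    · obtain ⟨m', hm'⟩ : ∃ m' : ℕ, -m = m' + 1 := ⟨(-m - 1).toNat, by omega⟩
      have h3 : X b = ((g₂ * g₁) ^ (2 * ((m' + 1 : ℕ) : ℤ))) (X a) := by
        rw [hrel, ← Equiv.Perm.mul_apply, ← zpow_add, hm]
        have : (2 * ((m' + 1 : ℕ) : ℤ)) + (m + m) = 0 := by push_cast; omega
        rw [this]; simp
      rw [four_zpow g₁ g₂ e1 e2] at h3
      exact hnot m' _ _ h3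
    · have h3 : X a = X b := by
        rw [hrel, hm, hm0]; simp
      exact hab (Subtype.ext (hXinj h3))
    · obtain ⟨m', hm'⟩ : ∃ m' : ℕ, m = m' + 1 := ⟨(m - 1).toNat, by omega⟩
      have h3 : X a = ((g₂ * g₁) ^ (2 * ((m' + 1 : ℕ) : ℤ))) (X b) := by
        rw [hrel, hm]
        congr 2
        push_cast; omega
      rw [four_zpow g₁ g₂ e1 e2] at h3
      exact hnot m' _ _ h3
  have hfinU : (⋃ y ∈ S, {n : ℕ | Conn [t₁, t₂] y (X n)}).Finite :=
    Set.Finite.biUnion S.finite_toSet (fun y _ => hfin y)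
  obtain ⟨n, hn⟩ := hfinU.infinite_compl.nonempty
  refine ⟨X n, hXnn n, hXsupp n, fun y hy hcon => ?_⟩
  apply hn
  simp only [Set.mem_iUnion]
  exact ⟨y, hy, hcon⟩

theorem conn_swap {t₁ t₂ : Data} {x y : ℤ} (h : Conn [t₁, t₂] x y) : Conn [t₂, t₁] x y := by
  induction h with
  | refl => exact Relation.ReflTransGen.refl
  | tail _ hs ih =>
    obtain ⟨t, ht, rfl⟩ := hs
    refine ih.tail ⟨t, ?_, rfl⟩
    simp only [List.mem_cons, List.not_mem_nil, or_false] at ht ⊢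
    tauto

theorem supp_swap {t₁ t₂ : Data} (h1 : IsCT t₁) (h2 : IsCT t₂) {x : ℤ}
    (h : x ∈ supp [t₁, t₂]) : x ∈ supp [t₂, t₁] := by
  rw [ORB_supp (pair_ct h1 h2)] at h
  rw [ORB_supp (pair_ct h2 h1)]
  obtain ⟨t, ht, h3⟩ := h
  refine ⟨t, ?_, h3⟩
  simp only [List.mem_cons, List.not_mem_nil, or_false] at ht ⊢
  tauto

/-- Infinitely many orbits on the nonnegative part of the support. -/
theorem two_many {t₁ t₂ : Data} (h1 : IsCT t₁) (h2 : IsCT t₂) (S : Finset ℤ) :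
    ∃ x : ℤ, 0 ≤ x ∧ x ∈ supp [t₁, t₂] ∧ ∀ y ∈ S, ¬ Conn [t₁, t₂] y x := by
  by_cases hfo : FinOrb [t₁, t₂]
  · rw [ORB_fin (pair_ct h1 h2)] at hfo
    have hfinU : (⋃ y ∈ S, {x : ℤ | Conn [t₁, t₂] y x}).Finite :=
      Set.Finite.biUnion S.finite_toSet (fun y _ => hfo y)
    have hm : (0 : ℤ) < t₁.1.2 := by exact_mod_cast (Nat.zero_le _).trans_lt h1.1
    have hinj : Function.Injective (fun n : ℕ => (t₁.1.1 : ℤ) + n * t₁.1.2) := by
      intro a b hab
      simp only at hab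
      have h3 : (a : ℤ) * t₁.1.2 = b * t₁.1.2 := by linarith
      exact_mod_cast mul_right_cancel₀ hm.ne' h3
    have hpre := hfinU.preimage (f := fun n : ℕ => (t₁.1.1 : ℤ) + n * t₁.1.2) hinj.injOn
    obtain ⟨n, hn⟩ := hpre.infinite_compl.nonempty
    refine ⟨(t₁.1.1 : ℤ) + n * t₁.1.2, by positivity, ?_, fun y hy hcon => ?_⟩
    · rw [ORB_supp (pair_ct h1 h2)]
      exact ⟨t₁, by simp, Or.inl ⟨n, rfl⟩⟩
    · apply hn
      simp only [Set.mem_preimage, Set.mem_iUnion]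
      exact ⟨y, hy, hcon⟩
  · rcases (two_iff h1 h2).mp hfo with h | h
    · exact many_of_exp h1 h2 h S
    · obtain ⟨x, hx0, hx1, hx2⟩ := many_of_exp h2 h1 h S
      exact ⟨x, hx0, supp_swap h2 h1 hx1, fun y hy hcon => hx2 y hy (conn_swap hcon)⟩

end CTD
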