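import Pool.Agent.CTD.TwoG
import Pool.Agent.CTD.P_PRC

set_option autoImplicit false

/-!
Two class transpositions, part H: the criterion is primitive recursive.
-/

namespace CTD



/-- The composition of four steps on natural numbers. -/
def fourN (t₁ t₂ : Data) (x : ℕ) : ℕ := tauN t₂ (tauN t₁ (tauN t₂ (tauN t₁ x)))

/-- The bounded criterion, `B = mod4 ^ 4`. -/
def critT (t₁ t₂ : Data) : Prop :=
  ∃ M < mod4 t₁ t₂ ^ 4 + 1, ∃ d < M, ∃ lam < mod4 t₁ t₂ ^ 4 + 1, ∃ d' < lam * M,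
    (lam * M ≤ mod4 t₁ t₂ ^ 4 ∧ 2 ≤ lam ∧ ∃ j < mod4 t₁ t₂ ^ 4 + 1, d' = d + j * M) ∧
    ∀ k < 2 * mod4 t₁ t₂ ^ 4, fourN t₁ t₂ (d + k * M) = d' + k * (lam * M)

theorem tau_affine {t : Data} (h : IsCT t) {K : ℕ} (k1 : t.1.2 ∣ K) (k2 : t.2.2 ∣ K) (x : ℤ) :
    ∃ s : ℤ, ∀ c i : ℤ, tau t (x + K * c * i) = tau t x + s * c * i := by
  obtain ⟨a, ha⟩ := k1
  obtain ⟨b, hb⟩ := k2
  have ha' : (K : ℤ) = t.1.2 * a := by exact_mod_cast ha
  have hb' : (K : ℤ) = t.2.2 * b := by exact_mod_cast hb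
  have m1 : (0 : ℤ) < t.1.2 := by exact_mod_cast (Nat.zero_le _).trans_lt h.1
  have m2 : (0 : ℤ) < t.2.2 := by exact_mod_cast (Nat.zero_le _).trans_lt h.2.1
  have e1 : ∀ c i : ℤ, (x + K * c * i) % t.1.2 = x % t.1.2 := by
    intro c i
    have : x + K * c * i = x + (a * c * i) * t.1.2 := by rw [ha']; ring
    rw [this, Int.add_mul_emod_self_right]
  have e2 : ∀ c i : ℤ, (x + K * c * i) % t.2.2 = x % t.2.2 := by
    intro c i
    have : x + K * c * i = x + (b * c * i) * t.2.2 := by rw [hb']; ring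
    rw [this, Int.add_mul_emod_self_right]
  have f1 : ∀ c i : ℤ, (x + K * c * i) / t.1.2 = x / t.1.2 + a * c * i := by
    intro c i
    have : x + K * c * i = x + (a * c * i) * t.1.2 := by rw [ha']; ring
    rw [this, Int.add_mul_ediv_right _ _ m1.ne']
  have f2 : ∀ c i : ℤ, (x + K * c * i) / t.2.2 = x / t.2.2 + b * c * i := by
    intro c i
    have : x + K * c * i = x + (b * c * i) * t.2.2 := by rw [hb']; ring
    rw [this, Int.add_mul_ediv_right _ _ m2.ne']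
  by_cases c1 : x % t.1.2 = t.1.1
  · refine ⟨a * t.2.2, fun c i => ?_⟩
    unfold tau
    rw [e1, if_pos c1, if_pos c1, f1]
    ring
  · by_cases c2 : x % t.2.2 = t.2.1
    · refine ⟨b * t.1.2, fun c i => ?_⟩
      unfold tau
      rw [e1, e2, if_neg c1, if_neg c1, if_pos c2, if_pos c2, f2]
      ring
    · refine ⟨K, fun c i => ?_⟩
      unfold tau
      rw [e1, e2, if_neg c1, if_neg c1, if_neg c2, if_neg c2]

theorem four_affine {t₁ t₂ : Data} (h1 : IsCT t₁) (h2 : IsCT t₂) (x : ℤ) :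
    ∃ s : ℤ, ∀ c i : ℤ, four t₁ t₂ (x + ((mod4 t₁ t₂ ^ 4 : ℕ) : ℤ) * c * i) =
      four t₁ t₂ x + s * c * i := by
  set K := mod4 t₁ t₂ with hK
  have a1 : t₁.1.2 ∣ K := ⟨t₁.2.2 * (t₂.1.2 * t₂.2.2), by rw [hK]; unfold mod4; ring⟩
  have a2 : t₁.2.2 ∣ K := ⟨t₁.1.2 * (t₂.1.2 * t₂.2.2), by rw [hK]; unfold mod4; ring⟩
  have a3 : t₂.1.2 ∣ K := ⟨t₁.1.2 * t₁.2.2 * t₂.2.2, by rw [hK]; unfold mod4; ring⟩
  have a4 : t₂.2.2 ∣ K := ⟨t₁.1.2 * t₁.2.2 * t₂.1.2, by rw [hK]; unfold mod4; ring⟩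
  obtain ⟨s1, hs1⟩ := tau_affine h1 a1 a2 x
  obtain ⟨s2, hs2⟩ := tau_affine h2 a3 a4 (tau t₁ x)
  obtain ⟨s3, hs3⟩ := tau_affine h1 a1 a2 (tau t₂ (tau t₁ x))
  obtain ⟨s4, hs4⟩ := tau_affine h2 a3 a4 (tau t₁ (tau t₂ (tau t₁ x)))
  refine ⟨s4 * s3 * s2 * s1, fun c i => ?_⟩
  unfold four
  have e1 : x + ((K ^ 4 : ℕ) : ℤ) * c * i = x + K * ((K : ℤ) ^ 3 * c) * i := by push_cast; ring
  rw [e1, hs1]
  have e2 : tau t₁ x + s1 * ((K : ℤ) ^ 3 * c) * i =
      tau t₁ x + K * (s1 * (K : ℤ) ^ 2 * c) * i := by ring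
  rw [e2, hs2]
  have e3 : tau t₂ (tau t₁ x) + s2 * (s1 * (K : ℤ) ^ 2 * c) * i =
      tau t₂ (tau t₁ x) + K * (s2 * s1 * K * c) * i := by ring
  rw [e3, hs3]
  have e4 : tau t₁ (tau t₂ (tau t₁ x)) + s3 * (s2 * s1 * K * c) * i =
      tau t₁ (tau t₂ (tau t₁ x)) + K * (s3 * s2 * s1 * c) * i := by ring
  rw [e4, hs4]
  ring

theorem four_nat {t₁ t₂ : Data} (h1 : IsCT t₁) (h2 : IsCT t₂) (x : ℕ) :
    four t₁ t₂ (x : ℤ) = (fourN t₁ t₂ x : ℕ) := by
  unfold four fourN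
  rw [BAS_nat h1, BAS_nat h2, BAS_nat h1, BAS_nat h2]

theorem crit_iff {t₁ t₂ : Data} (h1 : IsCT t₁) (h2 : IsCT t₂) :
    ExpB (mod4 t₁ t₂ ^ 4) (four t₁ t₂) ↔ critT t₁ t₂ := by
  set B := mod4 t₁ t₂ ^ 4 with hB
  constructor
  · rintro ⟨d, d', M, lam, b1, b2, b3, b4, b5, ⟨j, hj⟩, hF⟩
    have hM : 0 < M := by omega
    have hlamB : lam ≤ B := le_trans (Nat.le_mul_of_pos_right _ hM) b4
    have hj0 : 0 ≤ j := by
      by_contra hcon
      push Not at hcon
      have h3 : (M : ℤ) * j ≤ -M := by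
        have : (0 : ℤ) < M := by exact_mod_cast hM
        nlinarith
      have h4 : (0 : ℤ) ≤ d' := by positivity
      have h5 : (d : ℤ) < M := by exact_mod_cast b1
      linarith
    obtain ⟨j', rfl⟩ := Int.eq_ofNat_of_zero_le hj0
    have hd' : d' = d + j' * M := by
      have : (d' : ℤ) = d + j' * M := by linear_combination hj
      exact_mod_cast this
    have hjB : j' ≤ B := by
      have h3 : j' * M ≤ B := by omega
      exact le_trans (Nat.le_mul_of_pos_right _ hM) h3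
    refine ⟨M, by omega, d, b1, lam, by omega, d', b3, ⟨b4, b5, j', by omega, hd'⟩, ?_⟩
    intro k _
    have h3 := hF k
    have h4 := four_nat h1 h2 (d + k * M)
    have h5 : ((d + k * M : ℕ) : ℤ) = (d : ℤ) + (k : ℤ) * M := by push_cast; ring
    rw [h5, h3] at h4
    have h6 : ((d' + k * (lam * M) : ℕ) : ℤ) = (fourN t₁ t₂ (d + k * M) : ℕ) := by
      rw [← h4]; push_cast; ring
    exact_mod_cast h6.symm
  · rintro ⟨M, b2, d, b1, lam, b6, d', b3, ⟨b4, b5, j, b7, hj⟩, hF⟩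
    refine ⟨d, d', M, lam, b1, by omega, b3, b4, b5, ⟨j, by rw [hj]; push_cast; ring⟩, ?_⟩
    have hM : 0 < M := by omega
    have hBp : 0 < B := by
      have : 0 < lam * M := Nat.mul_pos (by omega) hM
      omega
    have hFn : ∀ k : ℕ, k < 2 * B → four t₁ t₂ ((d : ℤ) + k * M) = d' + k * (lam * M) := by
      intro k hk
      have h3 := hF k hk
      have h5 : ((d + k * M : ℕ) : ℤ) = (d : ℤ) + (k : ℤ) * M := by push_cast; ring
      rw [← h5, four_nat h1 h2, h3]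
      push_cast; ring
    intro k
    have hBp' : (0 : ℤ) < B := by exact_mod_cast hBp
    obtain ⟨k0, hk0⟩ := Int.eq_ofNat_of_zero_le (Int.emod_nonneg k hBp'.ne')
    have hk1 : k0 < B := by
      have := Int.emod_lt_of_pos k hBp'
      rw [hk0] at this
      exact_mod_cast this
    have hk2 : k = k0 + B * (k / B) := by
      have := Int.emod_add_mul_ediv k B
      rw [hk0] at this
      exact this.symm
    obtain ⟨s, hs⟩ := four_affine h1 h2 ((d : ℤ) + k0 * M)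
    rw [← hB] at hs
    have q0 := hFn k0 (by omega)
    have q1 := hFn (k0 + B) (by omega)
    have q2 := hs M 1
    have q3 := hs M (k / B)
    have e1 : (d : ℤ) + ((k0 + B : ℕ) : ℤ) * M = (d : ℤ) + k0 * M + (B : ℤ) * M * 1 := by
      push_cast; ring
    rw [e1, q2, q0] at q1
    have e2 : (d : ℤ) + k * M = (d : ℤ) + k0 * M + (B : ℤ) * M * (k / B) := by
      calc (d : ℤ) + k * M = (d : ℤ) + (k0 + B * (k / B)) * M := by rw [← hk2]
        _ = _ := by ring
    rw [e2, q3, q0]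
    have e3 : s * M = B * (lam * M) := by
      push_cast at q1
      linear_combination q1
    calc (d' : ℤ) + k0 * (lam * M) + s * M * (k / B)
        = d' + (k0 + B * (k / B)) * (lam * M) := by rw [e3]; ring
      _ = d' + k * (lam * M) := by rw [← hk2]

theorem pri_fourN {α : Type} [Primcodable α] {f g : α → Data} {x : α → ℕ} (hf : Primrec f)
    (hg : Primrec g) (hx : Primrec x) : Primrec fun a => fourN (f a) (g a) (x a) :=
  pri_tauN.comp hg (pri_tauN.comp hf (pri_tauN.comp hg (pri_tauN.comp hf hx)))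

theorem pri_mod4 {α : Type} [Primcodable α] {f g : α → Data} (hf : Primrec f)
    (hg : Primrec g) : Primrec fun a => mod4 (f a) (g a) ^ 4 := by
  unfold mod4
  exact prc_pow.comp (Primrec.nat_mul.comp (Primrec.nat_mul.comp (pri_m1.comp hf)
    (pri_m2.comp hf)) (Primrec.nat_mul.comp (pri_m1.comp hg) (pri_m2.comp hg)))
    (Primrec.const 4)

theorem pri_critT : PrimrecPred (fun p : Data × Data => critT p.1 p.2) := by
  unfold critT
  have fB : Primrec fun p : Data × Data => mod4 p.1 p.2 ^ 4 :=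
    pri_mod4 Primrec.fst Primrec.snd
  have one : ∀ {α : Type} [Primcodable α] {f : α → ℕ}, Primrec f →
      Primrec fun a => f a + 1 := fun hf => Primrec.nat_add.comp hf (Primrec.const 1)
  have two : ∀ {α : Type} [Primcodable α] {f : α → ℕ}, Primrec f →
      Primrec fun a => 2 * f a := fun hf => Primrec.nat_mul.comp (Primrec.const 2) hf
  refine prc_ex (one fB) ?_
  refine prc_ex Primrec.snd ?_
  have g2 : Primrec fun a : ((Data × Data) × ℕ) × ℕ => a.1.1 := Primrec.fst.comp Primrec.fst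
  refine prc_ex (one (fB.comp g2)) ?_
  -- a = (((p, M), d), lam)
  have g3 : Primrec fun a : (((Data × Data) × ℕ) × ℕ) × ℕ => a.1.1.1 := g2.comp Primrec.fst
  have M3 : Primrec fun a : (((Data × Data) × ℕ) × ℕ) × ℕ => a.1.1.2 :=
    Primrec.snd.comp (Primrec.fst.comp Primrec.fst)
  have d3 : Primrec fun a : (((Data × Data) × ℕ) × ℕ) × ℕ => a.1.2 :=
    Primrec.snd.comp Primrec.fst
  have l3 : Primrec fun a : (((Data × Data) × ℕ) × ℕ) × ℕ => a.2 := Primrec.snd
  refine prc_ex (Primrec.nat_mul.comp l3 M3) ?_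
  -- a = ((((p, M), d), lam), d')
  have g4 : Primrec fun a : ((((Data × Data) × ℕ) × ℕ) × ℕ) × ℕ => a.1.1.1.1 :=
    g3.comp Primrec.fst
  have M4 : Primrec fun a : ((((Data × Data) × ℕ) × ℕ) × ℕ) × ℕ => a.1.1.1.2 :=
    M3.comp Primrec.fst
  have d4 : Primrec fun a : ((((Data × Data) × ℕ) × ℕ) × ℕ) × ℕ => a.1.1.2 :=
    d3.comp Primrec.fst
  have l4 : Primrec fun a : ((((Data × Data) × ℕ) × ℕ) × ℕ) × ℕ => a.1.2 :=
    l3.comp Primrec.fst
  have e4 : Primrec fun a : ((((Data × Data) × ℕ) × ℕ) × ℕ) × ℕ => a.2 := Primrec.snd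
  refine PrimrecPred.and (PrimrecPred.and ?_ (PrimrecPred.and ?_ ?_)) ?_
  · exact Primrec.nat_le.comp (Primrec.nat_mul.comp l4 M4) (fB.comp g4)
  · exact Primrec.nat_le.comp (Primrec.const 2) l4
  · refine prc_ex (one (fB.comp g4)) ?_
    exact Primrec.eq.comp (e4.comp Primrec.fst) (Primrec.nat_add.comp (d4.comp Primrec.fst)
      (Primrec.nat_mul.comp Primrec.snd (M4.comp Primrec.fst)))
  · refine prc_all (two (fB.comp g4)) ?_
    have g5 : Primrec fun a : (((((Data × Data) × ℕ) × ℕ) × ℕ) × ℕ) × ℕ => a.1.1.1.1.1 :=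
      g4.comp Primrec.fst
    exact Primrec.eq.comp
      (pri_fourN (Primrec.fst.comp g5) (Primrec.snd.comp g5)
        (Primrec.nat_add.comp (d4.comp Primrec.fst)
          (Primrec.nat_mul.comp Primrec.snd (M4.comp Primrec.fst))))
      (Primrec.nat_add.comp (e4.comp Primrec.fst)
        (Primrec.nat_mul.comp Primrec.snd (Primrec.nat_mul.comp (l4.comp Primrec.fst)
          (M4.comp Primrec.fst))))

/-- The finiteness of all orbits is decidable for two class transpositions. -/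
theorem two_dec : PrimrecPred (fun p : Data × Data => IsCT p.1 ∧ IsCT p.2 ∧
    FinOrb [p.1, p.2]) := by
  have h : PrimrecPred (fun p : Data × Data => IsCT p.1 ∧ IsCT p.2 ∧
      ¬ (critT p.1 p.2 ∨ critT p.2 p.1)) :=
    (PRI_isCT.comp Primrec.fst).and ((PRI_isCT.comp Primrec.snd).and
      (pri_critT.or (pri_critT.comp (Primrec.snd.pair Primrec.fst))).not)
  refine h.of_eq fun p => ?_
  refine and_congr_right fun h1 => and_congr_right fun h2 => ?_
  have e1 := crit_iff h1 h2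
  have e2 := crit_iff h2 h1
  rw [mod4_comm p.2 p.1] at e2
  rw [← e1, ← e2, ← two_iff h1 h2, not_not]

end CTD
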