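import Pool.Agent.CTD.TwoH
import Pool.Agent.CTD.Defs2

set_option autoImplicit false

/-!
Two class transpositions, part I: lists which contain at most two class transpositions.
-/

namespace CTD

theorem isCT_swap {t : Data} (h : IsCT t) : IsCT t.swap := ⟨h.2.1, h.1, h.2.2.symm⟩

theorem tau_swap {t : Data} (h : IsCT t) (x : ℤ) : tau t.swap x = tau t x := by
  by_cases hx : Mv t x
  · rcases hx with ⟨k, hk⟩ | ⟨k, hk⟩
    · have h1 := tau_snd (isCT_swap h) k
      simp only [Prod.fst_swap, Prod.snd_swap] at h1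
      rw [hk, h1, tau_fst h]
    · have h1 := tau_fst (isCT_swap h) k
      simp only [Prod.fst_swap, Prod.snd_swap] at h1
      rw [hk, h1, tau_snd h]
  · have hx' : ¬ Mv t.swap x := fun h' => hx (Or.symm h')
    rw [tau_fix h hx, tau_fix (isCT_swap h) hx']

theorem tau_eq {t s : Data} (h : IsCT t) (hs : t = s ∨ t = s.swap) (x : ℤ) :
    tau t x = tau s x := by
  rcases hs with rfl | rfl
  · rfl
  · have h1 : IsCT s := by have := isCT_swap h; simpa using this
    exact tau_swap h1 x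

theorem conn_congr {L : List Data} (hL : ∀ t ∈ L, IsCT t) {t₁ t₂ : Data} (m1 : t₁ ∈ L)
    (m2 : t₂ ∈ L) (h : ∀ t ∈ L, t = t₁ ∨ t = t₁.swap ∨ t = t₂ ∨ t = t₂.swap) (x y : ℤ) :
    Conn L x y ↔ Conn [t₁, t₂] x y := by
  constructor
  · intro hc
    induction hc with
    | refl => exact Relation.ReflTransGen.refl
    | tail _ hs ih =>
      obtain ⟨t, ht, rfl⟩ := hs
      rcases h t ht with h3 | h3 | h3 | h3
      · exact ih.tail ⟨t₁, by simp, tau_eq (hL t ht) (Or.inl h3) _⟩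
      · exact ih.tail ⟨t₁, by simp, tau_eq (hL t ht) (Or.inr h3) _⟩
      · exact ih.tail ⟨t₂, by simp, tau_eq (hL t ht) (Or.inl h3) _⟩
      · exact ih.tail ⟨t₂, by simp, tau_eq (hL t ht) (Or.inr h3) _⟩
  · intro hc
    induction hc with
    | refl => exact Relation.ReflTransGen.refl
    | tail _ hs ih =>
      obtain ⟨t, ht, rfl⟩ := hs
      refine ih.tail ⟨t, ?_, rfl⟩
      simp only [List.mem_cons, List.not_mem_nil, or_false] at ht
      rcases ht with rfl | rfl
      · exact m1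
      · exact m2

theorem supp_congr {L : List Data} (hL : ∀ t ∈ L, IsCT t) {t₁ t₂ : Data} (m1 : t₁ ∈ L)
    (m2 : t₂ ∈ L) (x : ℤ) (hx : x ∈ supp [t₁, t₂]) : x ∈ supp L := by
  rw [ORB_supp (pair_ct (hL _ m1) (hL _ m2))] at hx
  rw [ORB_supp hL]
  obtain ⟨t, ht, h3⟩ := hx
  refine ⟨t, ?_, h3⟩
  simp only [List.mem_cons, List.not_mem_nil, or_false] at ht
  rcases ht with rfl | rfl
  · exact m1
  · exact m2

theorem twoGen_iff (L : List Data) : TwoGen L ↔ (∀ t ∈ L, IsCT t) ∧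
    (L = [] ∨ ∃ t₁ ∈ L, ∃ t₂ ∈ L, ∀ t ∈ L, t = t₁ ∨ t = t₁.swap ∨ t = t₂ ∨ t = t₂.swap) := by
  unfold TwoGen
  refine and_congr_right fun _ => ?_
  constructor
  · rintro ⟨s₁, s₂, h⟩
    by_cases hL : L = []
    · exact Or.inl hL
    right
    by_cases h1 : ∃ a ∈ L, a = s₁ ∨ a = s₁.swap
    · obtain ⟨a, ha, ha'⟩ := h1
      by_cases h2 : ∃ b ∈ L, b = s₂ ∨ b = s₂.swap
      · obtain ⟨b, hb, hb'⟩ := h2
        refine ⟨a, ha, b, hb, fun t ht => ?_⟩
        rcases ha' with rfl | rfl <;> rcases hb' with rfl | rfl <;>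
          rcases h t ht with rfl | rfl | rfl | rfl <;> simp
      · refine ⟨a, ha, a, ha, fun t ht => ?_⟩
        push Not at h2
        have h3 := h2 t ht
        rcases h t ht with h4 | h4 | h4 | h4
        · rcases ha' with rfl | rfl <;> subst h4 <;> simp
        · rcases ha' with rfl | rfl <;> subst h4 <;> simp
        · exact absurd h4 h3.1
        · exact absurd h4 h3.2
    · push Not at h1
      obtain ⟨b, hb⟩ := List.exists_mem_of_ne_nil L hL
      have hb' : b = s₂ ∨ b = s₂.swap := by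
        rcases h b hb with h4 | h4 | h4 | h4
        · exact absurd h4 (h1 b hb).1
        · exact absurd h4 (h1 b hb).2
        · exact Or.inl h4
        · exact Or.inr h4
      refine ⟨b, hb, b, hb, fun t ht => ?_⟩
      have h3 := h1 t ht
      rcases h t ht with h4 | h4 | h4 | h4
      · exact absurd h4 h3.1
      · exact absurd h4 h3.2
      · rcases hb' with rfl | rfl <;> subst h4 <;> simp
      · rcases hb' with rfl | rfl <;> subst h4 <;> simp
  · rintro (h | ⟨t₁, _, t₂, _, h⟩)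
    · subst h
      exact ⟨((0, 0), (0, 0)), ((0, 0), (0, 0)), by simp⟩
    · exact ⟨t₁, t₂, h⟩

theorem finOrb_congr {L : List Data} (hL : ∀ t ∈ L, IsCT t) {t₁ t₂ : Data} (m1 : t₁ ∈ L)
    (m2 : t₂ ∈ L) (h : ∀ t ∈ L, t = t₁ ∨ t = t₁.swap ∨ t = t₂ ∨ t = t₂.swap) :
    FinOrb L ↔ FinOrb [t₁, t₂] := by
  rw [ORB_fin hL, ORB_fin (pair_ct (hL _ m1) (hL _ m2))]
  refine forall_congr' fun x => ?_
  have : {y | Conn L x y} = {y | Conn [t₁, t₂] x y} := by
    ext y
    exact conn_congr hL m1 m2 h x y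
  rw [this]

theorem finOrb_nil : FinOrb [] := by
  rw [ORB_fin (by simp)]
  intro x
  have : {y | Conn [] x y} ⊆ {x} := by
    intro y hy
    induction hy with
    | refl => rfl
    | tail _ hs _ =>
      obtain ⟨t, ht, _⟩ := hs
      simp at ht
  exact (Set.finite_singleton x).subset this

theorem pri_swap {α : Type} [Primcodable α] {f : α → Data} (hf : Primrec f) :
    Primrec fun a => (f a).swap :=
  ((Primrec.snd.comp hf).pair (Primrec.fst.comp hf)).of_eq fun _ => rfl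

theorem pri_same {α : Type} [Primcodable α] {f g h : α → Data} (hf : Primrec f)
    (hg : Primrec g) (hh : Primrec h) :
    PrimrecPred fun a => f a = g a ∨ f a = (g a).swap ∨ f a = h a ∨ f a = (h a).swap :=
  (Primrec.eq.comp hf hg).or ((Primrec.eq.comp hf (pri_swap hg)).or
    ((Primrec.eq.comp hf hh).or (Primrec.eq.comp hf (pri_swap hh))))

theorem pri_allCT : PrimrecPred (fun L : List Data => ∀ t ∈ L, IsCT t) :=
  pri_forall_mem (f := fun L : List Data => L) (R := fun (t : Data) (_ : List Data) => IsCT t)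
    Primrec.id (PRI_isCT.comp Primrec.fst)

theorem pri_nil : PrimrecPred (fun L : List Data => L = []) :=
  Primrec.eq.comp Primrec.id (Primrec.const [])

/-- quantification over two members of the list -/
theorem pri_two {R : List Data → Data → Data → Prop}
    (hR : PrimrecPred (fun q : Data × (Data × List Data) => R q.2.2 q.2.1 q.1)) :
    PrimrecPred (fun L : List Data => ∃ t₁ ∈ L, ∃ t₂ ∈ L,
      (∀ t ∈ L, t = t₁ ∨ t = t₁.swap ∨ t = t₂ ∨ t = t₂.swap) ∧ R L t₁ t₂) := by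
  refine pri_exists_mem (f := fun L : List Data => L)
    (R := fun (t₁ : Data) (L : List Data) => ∃ t₂ ∈ L,
      (∀ t ∈ L, t = t₁ ∨ t = t₁.swap ∨ t = t₂ ∨ t = t₂.swap) ∧ R L t₁ t₂) Primrec.id ?_
  refine pri_exists_mem (f := fun p : Data × List Data => p.2)
    (R := fun (t₂ : Data) (p : Data × List Data) =>
      (∀ t ∈ p.2, t = p.1 ∨ t = p.1.swap ∨ t = t₂ ∨ t = t₂.swap) ∧ R p.2 p.1 t₂)
    Primrec.snd ?_
  refine PrimrecPred.and ?_ hR
  refine pri_forall_mem (f := fun q : Data × (Data × List Data) => q.2.2)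
    (R := fun (t : Data) (q : Data × (Data × List Data)) =>
      t = q.2.1 ∨ t = q.2.1.swap ∨ t = q.1 ∨ t = q.1.swap)
    (Primrec.snd.comp Primrec.snd) ?_
  exact pri_same (f := fun u : Data × (Data × (Data × List Data)) => u.1)
    (g := fun u => u.2.2.1) (h := fun u => u.2.1) Primrec.fst
    (Primrec.fst.comp (Primrec.snd.comp Primrec.snd)) (Primrec.fst.comp Primrec.snd)

theorem pri_twoGen : PrimrecPred (fun L : List Data => TwoGen L) := by
  have h := pri_two (R := fun _ _ _ => True) (by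
    have : PrimrecPred (fun _ : Data × (Data × List Data) => (0 : ℕ) = 0) :=
      Primrec.eq.comp (Primrec.const 0) (Primrec.const 0)
    exact this.of_eq fun _ => by simp)
  refine (pri_allCT.and (pri_nil.or h)).of_eq fun L => ?_
  rw [twoGen_iff]
  simp only [and_true]

theorem pri_twoGen_fin : PrimrecPred (fun L : List Data => TwoGen L ∧ FinOrb L) := by
  have h := pri_two (R := fun _ t₁ t₂ => IsCT t₁ ∧ IsCT t₂ ∧ FinOrb [t₁, t₂])
    (two_dec.comp ((Primrec.fst.comp Primrec.snd).pair Primrec.fst))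
  refine (pri_allCT.and (pri_nil.or h)).of_eq fun L => ?_
  constructor
  · rintro ⟨hL, rfl | ⟨t₁, m1, t₂, m2, h3, _, _, h4⟩⟩
    · exact ⟨(twoGen_iff _).mpr ⟨hL, Or.inl rfl⟩, finOrb_nil⟩
    · exact ⟨(twoGen_iff _).mpr ⟨hL, Or.inr ⟨t₁, m1, t₂, m2, h3⟩⟩,
        (finOrb_congr hL m1 m2 h3).mpr h4⟩
  · rintro ⟨h1, h2⟩
    obtain ⟨hL, rfl | ⟨t₁, m1, t₂, m2, h3⟩⟩ := (twoGen_iff L).mp h1
    · exact ⟨hL, Or.inl rfl⟩
    · exact ⟨hL, Or.inr ⟨t₁, m1, t₂, m2, h3, hL _ m1, hL _ m2,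
        (finOrb_congr hL m1 m2 h3).mp h2⟩⟩

/-- Infinitely many orbits on the nonnegative part of the support. -/
theorem twoGen_many {L : List Data} (h : TwoGen L) (hne : L ≠ []) :
    Set.Infinite {O : Set ℤ | ∃ x : ℤ, 0 ≤ x ∧ x ∈ supp L ∧
      O = MulAction.orbit (grp L) x} := by
  obtain ⟨hL, hnil | ⟨t₁, m1, t₂, m2, h3⟩⟩ := (twoGen_iff L).mp h
  · exact absurd hnil hne
  intro hfin
  -- choose a representative in every orbit of the finite set
  have hex : ∀ O : Set ℤ, ∃ y : ℤ, O ∈ {O : Set ℤ | ∃ x : ℤ, 0 ≤ x ∧ x ∈ supp L ∧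
      O = MulAction.orbit (grp L) x} → O = MulAction.orbit (grp L) y := by
    intro O
    by_cases hO : O ∈ {O : Set ℤ | ∃ x : ℤ, 0 ≤ x ∧ x ∈ supp L ∧
      O = MulAction.orbit (grp L) x}
    · obtain ⟨x, _, _, hx⟩ := hO
      exact ⟨x, fun _ => hx⟩
    · exact ⟨0, fun h' => absurd h' hO⟩
  choose r hr using hex
  obtain ⟨x, hx0, hx1, hx2⟩ := two_many (hL _ m1) (hL _ m2) (hfin.toFinset.image r)
  have hx1' : x ∈ supp L := supp_congr hL m1 m2 x hx1
  have hmem : MulAction.orbit (grp L) x ∈ {O : Set ℤ | ∃ x : ℤ, 0 ≤ x ∧ x ∈ supp L ∧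
      O = MulAction.orbit (grp L) x} := ⟨x, hx0, hx1', rfl⟩
  have h5 := hr _ hmem
  apply hx2 (r (MulAction.orbit (grp L) x))
    (Finset.mem_image_of_mem r (hfin.mem_toFinset.mpr hmem))
  rw [← conn_congr hL m1 m2 h3, ← ORB_orbit hL, ← h5]
  exact MulAction.mem_orbit_self x

theorem twoGen_not_trans {L : List Data} (h : TwoGen L) (hne : L ≠ []) : ¬ Trans L := by
  intro ht
  apply twoGen_many h hne
  by_cases hx : ∃ x0 : ℤ, 0 ≤ x0 ∧ x0 ∈ supp L
  · obtain ⟨x0, h0, h1⟩ := hx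
    apply (Set.finite_singleton (MulAction.orbit (grp L) x0)).subset
    rintro O ⟨x, hx0, hx1, rfl⟩
    exact (MulAction.orbit_eq_iff.mpr (ht x0 x h0 hx0 h1 hx1))
  · apply Set.Finite.subset Set.finite_empty
    rintro O ⟨x, hx0, hx1, rfl⟩
    exact absurd ⟨x, hx0, hx1⟩ hx

end CTD
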